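import Pool.Agent.Helper24.QD.Stmts

set_option autoImplicit false

/-! Basic lemmas on replacement moves. -/

namespace QD

variable {G : Type} [Group G] {S : Set G} {c k l : ℕ} {w w' w'' v v' : List G}

theorem Step.symm (h : Step S c w w') : Step S c w' w := by
  obtain ⟨a, x, y, d, h1, h2, h3, h4, h5, h6, h7⟩ := h
  exact ⟨a, y, x, d, h2, h1, h3.symm, h5, h4, h7, h6⟩

theorem Step.append (h : Step S c w w') (u v : List G) : Step S c (u ++ w ++ v) (u ++ w' ++ v) := by
  obtain ⟨a, x, y, d, h1, h2, h3, h4, h5, h6, h7⟩ := h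
  exact ⟨u ++ a, x, y, d ++ v, by simp [h1], by simp [h2], h3, h4, h5, h6, h7⟩

theorem Step.prod_eq (h : Step S c w w') : w.prod = w'.prod := by
  obtain ⟨a, x, y, d, h1, h2, h3, h4, h5, h6, h7⟩ := h
  simp [h1, h2, h3]

theorem Step.mem (h : Step S c w w') (hw : ∀ g ∈ w, g ∈ S) : ∀ g ∈ w', g ∈ S := by
  obtain ⟨a, x, y, d, h1, h2, h3, h4, h5, h6, h7⟩ := h
  intro g hg
  rw [h2] at hg
  simp only [List.mem_append] at hg
  rcases hg with hg | hg | hg
  · exact hw g (by simp [h1, hg])
  · exact h7 g hg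
  · exact hw g (by simp [h1, hg])

theorem Step.mono {c' : ℕ} {S' : Set G} (hc : c ≤ c') (hS : S ⊆ S') (h : Step S c w w') :
    Step S' c' w w' := by
  obtain ⟨a, x, y, d, h1, h2, h3, h4, h5, h6, h7⟩ := h
  exact ⟨a, x, y, d, h1, h2, h3, h4.trans hc, h5.trans hc, fun g hg => hS (h6 g hg),
    fun g hg => hS (h7 g hg)⟩

theorem Step.map {G' : Type} [Group G'] (f : G →* G') (h : Step S c w w') :
    Step (f '' S) c (w.map f) (w'.map f) := by
  obtain ⟨a, x, y, d, h1, h2, h3, h4, h5, h6, h7⟩ := h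
  refine ⟨a.map f, x.map f, y.map f, d.map f, by simp [h1], by simp [h2], ?_, by simpa, by simpa,
    ?_, ?_⟩
  · rw [← map_list_prod, ← map_list_prod, h3]
  · intro g hg
    obtain ⟨g', hg', rfl⟩ := List.mem_map.1 hg
    exact ⟨g', h6 g' hg', rfl⟩
  · intro g hg
    obtain ⟨g', hg', rfl⟩ := List.mem_map.1 hg
    exact ⟨g', h7 g' hg', rfl⟩

/-- One move on the middle part. -/
theorem Step.mid (a x y d : List G) (h : x.prod = y.prod) (hx : x.length ≤ c)
    (hy : y.length ≤ c) (hxS : ∀ g ∈ x, g ∈ S) (hyS : ∀ g ∈ y, g ∈ S) :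
    Step S c (a ++ x ++ d) (a ++ y ++ d) :=
  ⟨a, x, y, d, by simp, by simp, h, hx, hy, hxS, hyS⟩

/-- One move replacing the whole word. -/
theorem Step.whole (h : w.prod = w'.prod) (hx : w.length ≤ c)
    (hy : w'.length ≤ c) (hxS : ∀ g ∈ w, g ∈ S) (hyS : ∀ g ∈ w', g ∈ S) : Step S c w w' :=
  ⟨[], w, w', [], by simp, by simp, h, hx, hy, hxS, hyS⟩

theorem Ar.one (h : Step S c w w') : Ar S c 1 w w' := Ar.step h (Ar.refl 0 w')

theorem Ar.mono_k {k' : ℕ} (h : Ar S c k w w') (hk : k ≤ k') : Ar S c k' w w' := by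
  induction h generalizing k' with
  | refl k w => exact Ar.refl _ _
  | @step k w w' w'' hs _ ih =>
    obtain ⟨m, rfl⟩ : ∃ m, k' = m + 1 := ⟨k' - 1, by omega⟩
    exact Ar.step hs (ih (by omega))

theorem Ar.mono {c' : ℕ} {S' : Set G} (hc : c ≤ c') (hS : S ⊆ S') (h : Ar S c k w w') :
    Ar S' c' k w w' := by
  induction h with
  | refl k w => exact Ar.refl _ _
  | step hs _ ih => exact Ar.step (hs.mono hc hS) ih

theorem Ar.trans (h : Ar S c k w w') (h' : Ar S c l w' w'') : Ar S c (k + l) w w'' := by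
  induction h with
  | refl k w => exact h'.mono_k (by omega)
  | @step k _ _ _ hs _ ih =>
    have := Ar.step hs (ih h')
    exact this.mono_k (by omega)

theorem Ar.symm (h : Ar S c k w w') : Ar S c k w' w := by
  induction h with
  | refl k w => exact Ar.refl _ _
  | step hs _ ih => exact ih.trans (Ar.one hs.symm)

theorem Ar.congr (h : Ar S c k w w') (u v : List G) : Ar S c k (u ++ w ++ v) (u ++ w' ++ v) := by
  induction h with
  | refl k w => exact Ar.refl _ _
  | step hs _ ih => exact Ar.step (hs.append u v) ih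

theorem Ar.left (u : List G) (h : Ar S c k w w') : Ar S c k (u ++ w) (u ++ w') := by
  simpa using h.congr u []

theorem Ar.right (v : List G) (h : Ar S c k w w') : Ar S c k (w ++ v) (w' ++ v) := by
  simpa using h.congr [] v

theorem Ar.cons (g : G) (h : Ar S c k w w') : Ar S c k (g :: w) (g :: w') := by
  simpa using h.left [g]

theorem Ar.append (h : Ar S c k w w') (h' : Ar S c l v v') : Ar S c (k + l) (w ++ v) (w' ++ v') :=
  (h.right v).trans (h'.left w')

theorem Ar.prod_eq (h : Ar S c k w w') : w.prod = w'.prod := by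
  induction h with
  | refl k w => rfl
  | step hs _ ih => exact hs.prod_eq.trans ih

theorem Ar.mem (h : Ar S c k w w') (hw : ∀ g ∈ w, g ∈ S) : ∀ g ∈ w', g ∈ S := by
  induction h with
  | refl k w => exact hw
  | step hs _ ih => exact ih (hs.mem hw)

theorem Ar.map {G' : Type} [Group G'] (f : G →* G') (h : Ar S c k w w') :
    Ar (f '' S) c k (w.map f) (w'.map f) := by
  induction h with
  | refl k w => exact Ar.refl _ _
  | step hs _ ih => exact Ar.step (hs.map f) ih

/-- A word whose letters lie in `S` and a word of bounded length with the same product. -/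
theorem Ar.whole (h : w.prod = w'.prod) (hx : w.length ≤ c) (hy : w'.length ≤ c)
    (hxS : ∀ g ∈ w, g ∈ S) (hyS : ∀ g ∈ w', g ∈ S) : Ar S c 1 w w' :=
  Ar.one (Step.whole h hx hy hxS hyS)

/-- A letter commuting with all letters of `v` moves across `v`. -/
theorem Ar.comm_letter (hc : 2 ≤ c) (g : G) (hg : g ∈ S) (v : List G) (hv : ∀ h ∈ v, h ∈ S)
    (hgv : ∀ h ∈ v, g * h = h * g) : Ar S c v.length (g :: v) (v ++ [g]) := by
  induction v with
  | nil => exact Ar.refl _ _
  | cons h v ih =>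
    have h1 : Ar S c 1 [g, h] [h, g] := by
      apply Ar.whole
      · simp [hgv h (by simp)]
      · simpa using hc
      · simpa using hc
      · intro x hx; simp at hx; rcases hx with rfl | rfl
        · exact hg
        · exact hv x (by simp)
      · intro x hx; simp at hx; rcases hx with rfl | rfl
        · exact hv x (by simp)
        · exact hg
    have h2 := h1.right v
    have h3 := (ih (fun x hx => hv x (by simp [hx])) (fun x hx => hgv x (by simp [hx]))).cons h
    have h4 := h2.trans h3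
    simp only [List.cons_append, List.nil_append] at h4
    exact h4.mono_k (by simp; omega)

/-- Commuting words. -/
theorem Ar.comm_lists (hc : 2 ≤ c) (u v : List G) (hu : ∀ g ∈ u, g ∈ S) (hv : ∀ h ∈ v, h ∈ S)
    (huv : ∀ g ∈ u, ∀ h ∈ v, g * h = h * g) :
    Ar S c (u.length * v.length) (u ++ v) (v ++ u) := by
  induction u with
  | nil => simpa using Ar.refl _ _
  | cons g u ih =>
    have h1 := (ih (fun x hx => hu x (by simp [hx])) (fun x hx => huv x (by simp [hx]))).cons g
    have h2 := (Ar.comm_letter hc g (hu g (by simp)) v hv (huv g (by simp))).right u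
    have h3 := h1.trans h2
    simp only [List.cons_append, List.append_assoc, List.nil_append] at h3 ⊢
    refine h3.mono_k ?_
    simp only [List.length_cons]
    rw [Nat.succ_mul]

/-- Cancellation `g⁻¹ ⋯ g⁻¹ g ⋯ g → []`. -/
theorem Ar.cancel_inv (hc : 2 ≤ c) (g : G) (hg : g ∈ S) (hg' : g⁻¹ ∈ S) (n : ℕ) :
    Ar S c n (List.replicate n g⁻¹ ++ List.replicate n g) [] := by
  induction n with
  | zero => exact Ar.refl _ _
  | succ n ih =>
    have h1 : Ar S c 1 [g⁻¹, g] [] := by
      apply Ar.whole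
      · simp
      · simpa using hc
      · simp
      · intro x hx; simp at hx; rcases hx with rfl | rfl <;> assumption
      · simp
    have h2 := h1.congr (List.replicate n g⁻¹) (List.replicate n g)
    have h3 := h2.trans (by simpa using ih)
    rw [List.replicate_succ', List.replicate_succ]
    simp only [List.append_assoc, List.cons_append, List.nil_append] at h3 ⊢
    exact h3.mono_k (by omega)

/-- Cancellation `g ⋯ g g⁻¹ ⋯ g⁻¹ → []`. -/
theorem Ar.cancel (hc : 2 ≤ c) (g : G) (hg : g ∈ S) (hg' : g⁻¹ ∈ S) (n : ℕ) :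
    Ar S c n (List.replicate n g ++ List.replicate n g⁻¹) [] := by
  have := Ar.cancel_inv (S := S) hc g⁻¹ hg' (by simpa using hg) n
  simpa using this

theorem prod_ray (g x : G) (n : ℕ) : (ray g n x).prod = x := by
  simp [ray, List.prod_append, List.prod_replicate, mul_assoc]

theorem length_ray (g x : G) (n : ℕ) : (ray g n x).length = 2 * n + 1 := by
  simp [ray]; omega

theorem mem_ray (g x : G) (n : ℕ) (E : Set G) (hg : g ∈ S) (hg' : g⁻¹ ∈ S) (hE : E ⊆ S)
    (hx : g⁻¹ ^ n * x * g ^ n ∈ E) : ∀ y ∈ ray g n x, y ∈ S := by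
  intro y hy
  simp only [ray, List.mem_append, List.mem_cons, List.mem_replicate] at hy
  rcases hy with ⟨_, rfl⟩ | rfl | ⟨_, rfl⟩
  · exact hg
  · exact hE hx
  · exact hg'

theorem Red.trans {S S₀ S₁ : Set G} (h : Red S S₀) (h' : Red S₀ S₁) (hS : S₀ ⊆ S) :
    Red S S₁ := by
  obtain ⟨c, C, h⟩ := h
  obtain ⟨c', C', h'⟩ := h'
  refine ⟨max c c', C + (C' * C + C') + C' * (2 * C) ^ 2 + C', ?_⟩
  intro w hw hw1
  obtain ⟨w₀, h1, h2, h3⟩ := h w hw hw1
  obtain ⟨w₁, h4, h5, h6⟩ := h' w₀ h1 (h3.prod_eq ▸ hw1)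
  set n := w.length
  refine ⟨w₁, h4, ?_, ?_⟩
  · refine h5.trans ?_
    have : C' * w₀.length ≤ C' * (C * n + C) := Nat.mul_le_mul_left _ h2
    nlinarith [Nat.zero_le (C' * (2 * C) ^ 2 * n), Nat.zero_le (C * n), Nat.zero_le (C' * n),
      Nat.zero_le (C' * (2 * C) ^ 2)]
  · have h7 := (h3.mono (le_max_left c c') (le_refl S)).trans (h6.mono (le_max_right c c') hS)
    refine h7.mono_k ?_
    have h8 : w₀.length ^ 2 ≤ (2 * C) ^ 2 * n ^ 2 + (2 * C) ^ 2 := by
      have : w₀.length ^ 2 ≤ (C * n + C) ^ 2 := Nat.pow_le_pow_left h2 2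
      nlinarith [Nat.zero_le ((C * n - C) ^ 2), sq_nonneg ((C * n : ℤ) - C), sq_nonneg (C : ℤ),
        sq_nonneg ((C : ℤ) * n), this, (by
          have := sq_nonneg ((n : ℤ) - 1)
          have h9 : (2 * n : ℤ) ≤ n ^ 2 + 1 := by nlinarith
          have : 2 * n ≤ n ^ 2 + 1 := by exact_mod_cast h9
          exact Nat.mul_le_mul_left (C ^ 2) this : C ^ 2 * (2 * n) ≤ C ^ 2 * (n ^ 2 + 1))]
    have h9 : C' * w₀.length ^ 2 ≤ C' * ((2 * C) ^ 2 * n ^ 2 + (2 * C) ^ 2) :=
      Nat.mul_le_mul_left _ h8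
    nlinarith [Nat.zero_le ((C' * C + C') * n ^ 2), Nat.zero_le (C' * n ^ 2),
      Nat.zero_le (C' * C)]

end QD
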