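import Pool.Agent.Helper24.QD.Stmts2

set_option autoImplicit false

/-! Row BLK: block triangular groups all of whose diagonal block groups have quadratic Dehn
function. -/

namespace QD

/-- The points of the blocks. -/
def blkEquiv {n : ℕ} (b : Fin n → ℕ) (B : ℕ) (hB : ∀ x, b x < B) :
    (Σ k : Fin B, {x : Fin n // b x = k.1}) ≃ Fin n where
  toFun p := p.2.1
  invFun x := ⟨⟨b x, hB x⟩, ⟨x, rfl⟩⟩
  left_inv := by
    rintro ⟨⟨k, hk⟩, ⟨x, hx⟩⟩
    simp only at hx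
    subst hx
    rfl
  right_inv x := rfl

/-- Block diagonal matrices as a ring homomorphism. -/
noncomputable def blkHom {n : ℕ} (b : Fin n → ℕ) (B : ℕ) (hB : ∀ x, b x < B) (K : Type)
    [Field K] : (∀ k : Fin B, Matrix {x : Fin n // b x = k.1} {x : Fin n // b x = k.1} K) →+*
      Matrix (Fin n) (Fin n) K :=
  (Matrix.reindexRingEquiv K (blkEquiv b B hB)).toRingHom.comp
    (Matrix.blockDiagonal'RingHom (fun k : Fin B => {x : Fin n // b x = k.1}) K)

theorem blkHom_ne {n : ℕ} (b : Fin n → ℕ) (B : ℕ) (hB : ∀ x, b x < B) (K : Type)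
    [Field K] (M : ∀ k : Fin B, Matrix {x : Fin n // b x = k.1} {x : Fin n // b x = k.1} K)
    (x y : Fin n) (h : b x ≠ b y) : blkHom b B hB K M x y = 0 := by
  show Matrix.blockDiagonal' M ((blkEquiv b B hB).symm x) ((blkEquiv b B hB).symm y) = 0
  apply Matrix.blockDiagonal'_apply_ne
  intro h'
  exact h (by simpa using congrArg Fin.val h')

theorem blkHom_eq {n : ℕ} (b : Fin n → ℕ) (B : ℕ) (hB : ∀ x, b x < B) (K : Type)
    [Field K] (M : ∀ k : Fin B, Matrix {x : Fin n // b x = k.1} {x : Fin n // b x = k.1} K)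
    (x y : Fin n) (h : b x = b y) :
    blkHom b B hB K M x y = M ⟨b x, hB x⟩ ⟨x, rfl⟩ ⟨y, h.symm⟩ := by
  show Matrix.blockDiagonal' M ((blkEquiv b B hB).symm x) ((blkEquiv b B hB).symm y) = _
  have h1 : (blkEquiv b B hB).symm y = ⟨⟨b x, hB x⟩, ⟨y, h.symm⟩⟩ := by
    rw [Equiv.symm_apply_eq]
    rfl
  have h2 : (blkEquiv b B hB).symm x = ⟨⟨b x, hB x⟩, ⟨x, rfl⟩⟩ := rfl
  rw [h1, h2, Matrix.blockDiagonal'_apply_eq]

theorem st_BLK (hPI : ST_PI) : ST_BLK := by
  intro K _ hLift n b H hH hb hD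
  choose D hD1 hD2 using hD
  obtain ⟨B, hB⟩ : ∃ B : ℕ, ∀ x, b x < B :=
    ⟨Finset.univ.sup b + 1, fun x => Nat.lt_succ_of_le (Finset.le_sup (Finset.mem_univ x))⟩
  have hQ : QuadDehn (∀ k : Fin B, (D k.1).range) := hPI B _ fun k => hD2 k.1
  let lam : H →* (∀ k : Fin B, (D k.1).range) := MonoidHom.pi fun k => (D k.1).rangeRestrict
  let inc : (∀ k : Fin B, (D k.1).range) →*
      (∀ k : Fin B, (Matrix {x : Fin n // b x = k.1} {x : Fin n // b x = k.1} K)ˣ) :=
    MonoidHom.pi fun k => ((D k.1).range.subtype).comp (Pi.evalMonoidHom _ k)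
  let th : (∀ k : Fin B, (D k.1).range) →* GL (Fin n) K :=
    (Units.map (blkHom b B hB K : _ →* Matrix (Fin n) (Fin n) K)).comp
      ((MulEquiv.piUnits.symm.toMonoidHom).comp inc)
  have hth : ∀ (l : ∀ k : Fin B, (D k.1).range) x y,
      (th l).1 x y = blkHom b B hB K (fun k => (l k).1.1) x y := by
    intro l x y
    rfl
  refine hLift n b H hH hb _ hQ lam th ?_ ?_
  · intro l x y hxy
    rw [hth, blkHom_ne b B hB K _ x y hxy]
  · intro h x y hxy
    rw [hth, blkHom_eq b B hB K _ x y hxy]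
    exact hD1 (b x) h ⟨x, rfl⟩ ⟨y, hxy.symm⟩

end QD
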