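import Pool.Agent.Helper24.QD.Stmts

set_option autoImplicit false

namespace QD

theorem covr_conj {ι : Type} [Fintype ι] [DecidableEq ι] {b : ι → ℕ} {m : ℕ} {Q : Type} [Group Q]
    (D : Inst ι b m Q) (t : Q) (v : GL ι ℚ) (hv : v ∈ Vb b) :
    (D.ρ t)⁻¹ * v * D.ρ t ∈ Vb b := by
  have h := D.conj t⁻¹ v hv
  rwa [map_inv, inv_inv] at h

theorem covr_letters {ι : Type} [Fintype ι] [DecidableEq ι] {b : ι → ℕ} {m : ℕ} {Q : Type} [Group Q]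
    (D : Inst ι b m Q) (R : ℕ) (g : (Pl m → GL ι ℚ) × Q) (hg : g ∈ D.S R) (i : Pl m) :
    (D.ρ g.2)⁻¹ * g.1 i ∈ Vb b := by
  rcases hg with ⟨t, _, rfl⟩ | hg
  · show (D.ρ t)⁻¹ * D.ρ t ∈ Vb b
    rw [inv_mul_cancel]; exact (Vb b).one_mem
  · obtain ⟨j, hj⟩ := Set.mem_iUnion.mp hg
    obtain ⟨h1, h2, h3⟩ := hj.1
    rw [h1, map_one, inv_one, one_mul]
    by_cases hij : i = j
    · subst hij; exact h2
    · rw [h3 i hij]; exact (Vb b).one_mem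

theorem covr_prod {ι : Type} [Fintype ι] [DecidableEq ι] {b : ι → ℕ} {m : ℕ} {Q : Type} [Group Q]
    (D : Inst ι b m Q) (R : ℕ) (w : List ((Pl m → GL ι ℚ) × Q)) (hw : ∀ g ∈ w, g ∈ D.S R)
    (i : Pl m) : (D.ρ w.prod.2)⁻¹ * w.prod.1 i ∈ Vb b := by
  induction w with
  | nil =>
    show (D.ρ 1)⁻¹ * 1 ∈ Vb b
    rw [map_one, inv_one, one_mul]; exact (Vb b).one_mem
  | cons g w ih =>
    have h1 := covr_letters D R g (hw g (by simp)) i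
    have h2 := ih (fun x hx => hw x (by simp [hx]))
    rw [List.prod_cons]
    have h3 := (Vb b).mul_mem (covr_conj D w.prod.2 _ h1) h2
    convert h3 using 1
    rw [Prod.snd_mul, Prod.fst_mul, Pi.mul_apply, map_mul]
    group

theorem st_COVR (h : ST_COV) : ST_COVR := by
  intro ι _ _ b m Q _ D R w hw
  obtain ⟨γ₀, hγ1, hγ2, hγ3⟩ := h ι b m D.hm (fun i => (D.ρ w.prod.2)⁻¹ * w.prod.1 i)
    (fun i => covr_prod D R w hw i)
  refine ⟨(fun _ => D.ρ w.prod.2 * γ₀, w.prod.2), ⟨fun _ => rfl, ?_, ?_⟩,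
    (fun i => γ₀⁻¹ * ((D.ρ w.prod.2)⁻¹ * w.prod.1 i), 1), ⟨rfl, fun i => ⟨?_, fun s t => hγ3 i s t⟩⟩, ?_⟩
  · exact (GLB _).mul_mem (D.hρB _) hγ2
  · exact D.conj _ _ hγ1
  · exact (Vb b).mul_mem ((Vb b).inv_mem hγ1) (covr_prod D R w hw i)
  · apply Prod.ext
    · funext i
      show w.prod.1 i = D.ρ w.prod.2 * γ₀ * (γ₀⁻¹ * ((D.ρ w.prod.2)⁻¹ * w.prod.1 i))
      group
    · show w.prod.2 = w.prod.2 * 1
      rw [mul_one]

end QD
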