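import Pool.Agent.Helper24.QD.ArB

set_option autoImplicit false

namespace QD

theorem crs_scale {G I : Type} [Group G] (D : Setup G I) (i j l : I) (hl : l = i ∨ l = j)
    (a : G) (ha : a ∈ D.T) (n : ℕ) (e : G) (he : e ∈ D.E l) :
    (D.A i j)⁻¹ ^ (D.k0 * n) * (a ^ n * e * a⁻¹ ^ n) * D.A i j ^ (D.k0 * n) ∈ D.E l := by
  induction n with
  | zero => simpa using he
  | succ n ih =>
    have h := D.hC3 i j l hl a ha _ ih
    have hc : Commute (D.A i j) a := D.hAcomm i j a ha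
    have h1 : Commute ((D.A i j)⁻¹ ^ (D.k0 * n)) a := (hc.inv_left).pow_left _
    have h2 : Commute (D.A i j ^ (D.k0 * n)) a⁻¹ := (hc.pow_left _).inv_right
    convert h using 1
    rw [Nat.mul_succ, pow_add (D.A i j)⁻¹, pow_add (D.A i j), pow_succ' a, pow_succ a⁻¹]
    have e1 : (D.A i j)⁻¹ ^ (D.k0 * n) * (D.A i j)⁻¹ ^ D.k0 =
        (D.A i j)⁻¹ ^ D.k0 * (D.A i j)⁻¹ ^ (D.k0 * n) := by
      rw [← pow_add, ← pow_add, add_comm]
    rw [e1]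
    calc (D.A i j)⁻¹ ^ D.k0 * (D.A i j)⁻¹ ^ (D.k0 * n) * (a * a ^ n * e * (a⁻¹ ^ n * a⁻¹)) *
          (D.A i j ^ (D.k0 * n) * D.A i j ^ D.k0)
        = (D.A i j)⁻¹ ^ D.k0 * (((D.A i j)⁻¹ ^ (D.k0 * n) * a) * (a ^ n * e * a⁻¹ ^ n) *
          (a⁻¹ * D.A i j ^ (D.k0 * n))) * D.A i j ^ D.k0 := by simp only [mul_assoc]
      _ = (D.A i j)⁻¹ ^ D.k0 * ((a * (D.A i j)⁻¹ ^ (D.k0 * n)) * (a ^ n * e * a⁻¹ ^ n) *
          (D.A i j ^ (D.k0 * n) * a⁻¹)) * D.A i j ^ D.k0 := by rw [h1.eq, h2.eq]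
      _ = _ := by simp only [mul_assoc]

theorem crs_scale' {G I : Type} [Group G] (D : Setup G I) (i j l : I) (hl : l = i ∨ l = j)
    (a : G) (ha : a ∈ D.T) (n : ℕ) (x : G) (hx : a⁻¹ ^ n * x * a ^ n ∈ D.E l) :
    (D.A i j)⁻¹ ^ (D.k0 * n) * x * D.A i j ^ (D.k0 * n) ∈ D.E l := by
  have h := crs_scale D i j l hl a ha n _ hx
  have e1 : a ^ n * (a⁻¹ ^ n * x * a ^ n) * a⁻¹ ^ n = x := by
    rw [inv_pow]; group
  rwa [e1] at h

theorem st_CRS (h2 : ST_R2) (h4 : ST_R4) : ST_CRS := by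
  intro G I _ D c hc
  refine ⟨8 * D.k0 + 4, ?_⟩
  intro i j n x y hij hx hy hxE hyE
  have hE : ∀ l, D.E l ⊆ D.S := fun l z hz => Or.inr (Set.mem_iUnion.mpr ⟨l, hz⟩)
  have hA : ∀ i j, D.A i j ∈ D.S := fun i j => Or.inl (D.hAT i j)
  have hA' : ∀ i j, (D.A i j)⁻¹ ∈ D.S := fun i j => Or.inl (D.hTinv _ (D.hAT i j))
  have hxS := crs_scale' D i j i (Or.inl rfl) (D.A i i) (D.hAT i i) n x hxE
  have hyS := crs_scale' D i j j (Or.inr rfl) (D.A j j) (D.hAT j j) n y hyE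
  have r1 := h2 G D.S (D.E i) c (D.A i i) (D.A i j) x n (D.k0 * n) (by omega) (hA i i) (hA' i i)
    (hA i j) (hA' i j) (hE i) (D.hC1 i i i (Or.inl rfl)) (D.hC1 i j i (Or.inl rfl))
    (D.hAcomm i i _ (D.hAT i j)) hxE hxS
  have r2 := h2 G D.S (D.E j) c (D.A j j) (D.A i j) y n (D.k0 * n) (by omega) (hA j j) (hA' j j)
    (hA i j) (hA' i j) (hE j) (D.hC1 j j j (Or.inl rfl)) (D.hC1 i j j (Or.inr rfl))
    (D.hAcomm j j _ (D.hAT i j)) hyE hyS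
  have r3 := h4 G D.S (D.E i) (D.E j) c (D.A i j) x y (D.k0 * n) (by omega) (hA i j) (hA' i j)
    (hE i) (hE j) (D.hVcomm i j hij x hx y hy) hxS hyS
  have r4 := ((r1.append r2).trans r3).trans ((r2.append r1).symm)
  refine r4.mono_k ?_
  nlinarith [Nat.zero_le (D.k0 * n), Nat.zero_le (D.k0 * n * n), Nat.zero_le D.k0, Nat.zero_le n,
    Nat.zero_le (n * n)]

end QD
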