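import Pool.Agent.Helper24.QD.Stmts

set_option autoImplicit false

/-! Row DIA: the block diagonal part of block triangular matrices is multiplicative. -/

namespace QD

theorem dia_mul {K : Type} [Field K] {n : ℕ} (b : Fin n → ℕ) (g h : Matrix (Fin n) (Fin n) K)
    (hg : ∀ x y, b y < b x → g x y = 0) (hh : ∀ x y, b y < b x → h x y = 0) :
    (Matrix.of fun x y => if b x = b y then (g * h) x y else 0) =
      (Matrix.of fun x y => if b x = b y then g x y else 0) *
      (Matrix.of fun x y => if b x = b y then h x y else 0) := by
  ext x y
  rw [Matrix.mul_apply]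
  simp only [Matrix.of_apply]
  split_ifs with h1
  · rw [Matrix.mul_apply]
    apply Finset.sum_congr rfl
    intro z _
    by_cases h2 : b x = b z
    · rw [if_pos h2, if_pos (h2.symm.trans h1)]
    · rw [if_neg h2, zero_mul]
      rcases lt_or_gt_of_ne h2 with h3 | h3
      · rw [hh z y (by omega), mul_zero]
      · rw [hg x z h3, zero_mul]
  · symm
    apply Finset.sum_eq_zero
    intro z _
    by_cases h2 : b x = b z
    · rw [if_pos h2, if_neg (fun h3 => h1 (h2.trans h3)), mul_zero]
    · rw [if_neg h2, zero_mul]

theorem st_DIA : ST_DIA := by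
  intro K _ n b H hH
  let D0 : H →* Matrix (Fin n) (Fin n) K :=
    { toFun := fun h => Matrix.of fun x y => if b x = b y then h.1.1 x y else 0
      map_one' := by
        ext x y
        simp only [Matrix.of_apply]
        show (if b x = b y then (1 : Matrix (Fin n) (Fin n) K) x y else 0) = _
        split_ifs with h1
        · rfl
        · rw [Matrix.one_apply_ne]
          rintro rfl
          exact h1 rfl
      map_mul' := by
        intro g h
        exact dia_mul b g.1.1 h.1.1 (hH g.1 g.2) (hH h.1 h.2) }
  refine ⟨D0.toHomUnits, ?_⟩
  intro h x y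
  rfl

end QD
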