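import Pool.Agent.Helper24.QD.Stmts

set_option autoImplicit false

/-!
Row GEN: generation of the ambient solvable-by-`Q` group by the letters.
-/

namespace QD

section word
variable {G : Type} [Group G] {S : Set G}

theorem gen_mul {x y : G} (hx : ∃ w : List G, (∀ g ∈ w, g ∈ S) ∧ w.prod = x)
    (hy : ∃ w : List G, (∀ g ∈ w, g ∈ S) ∧ w.prod = y) :
    ∃ w : List G, (∀ g ∈ w, g ∈ S) ∧ w.prod = x * y := by
  obtain ⟨w, h1, h2⟩ := hx
  obtain ⟨w', h1', h2'⟩ := hy
  refine ⟨w ++ w', ?_, by rw [List.prod_append, h2, h2']⟩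
  intro g hg
  rcases List.mem_append.1 hg with h | h
  · exact h1 g h
  · exact h1' g h

theorem gen_list (l : List G) (h : ∀ x ∈ l, ∃ w : List G, (∀ g ∈ w, g ∈ S) ∧ w.prod = x) :
    ∃ w : List G, (∀ g ∈ w, g ∈ S) ∧ w.prod = l.prod := by
  induction l with
  | nil => exact ⟨[], by simp, rfl⟩
  | cons x l ih =>
    rw [List.prod_cons]
    exact gen_mul (h x (by simp)) (ih fun y hy => h y (List.mem_cons_of_mem x hy))

/-- elements of the product group supported at the members of a list -/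
theorem gen_prod {I H Q : Type} [DecidableEq I] [Group H] [Group Q] (u : I → H) :
    ∀ l : List I, l.Nodup →
      (l.map fun i => ((Pi.mulSingle i (u i) : I → H), (1 : Q))).prod =
        (fun j => if j ∈ l then u j else 1, 1) := by
  intro l
  induction l with
  | nil => intro _; ext1 <;> simp; rfl
  | cons i l ih =>
    intro hl
    rw [List.nodup_cons] at hl
    rw [List.map_cons, List.prod_cons, ih hl.2, Prod.mk_mul_mk, one_mul]
    congr 1
    funext j
    rw [Pi.mul_apply]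
    by_cases hj : j = i
    · rw [hj, Pi.mulSingle_eq_same, if_neg hl.1, if_pos (by simp), mul_one]
    · rw [Pi.mulSingle_eq_of_ne hj, one_mul]
      simp [hj]

end word

section mat
variable {ι : Type} [Fintype ι] [DecidableEq ι] {b : ι → ℕ}

/-- entries of a matrix conjugated by a power of a diagonal matrix -/
theorem gen_entry (v : GL ι ℚ) (α : ℚˣ) (n : ℕ) (s t : ι) :
    ((dg b α)⁻¹ ^ n * v * dg b α ^ n).1 s t =
      (α : ℚ) ^ (n * b s) * v.1 s t * ((α : ℚ)⁻¹) ^ (n * b t) := by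
  rw [← map_inv, ← map_pow, ← map_pow]
  show (Matrix.diagonal (fun x => ((((α⁻¹ ^ n)⁻¹ ^ b x : ℚˣ)) : ℚ)) * v.1 *
    Matrix.diagonal (fun x => ((((α ^ n)⁻¹ ^ b x : ℚˣ)) : ℚ))) s t = _
  rw [Matrix.mul_diagonal, Matrix.diagonal_mul]
  congr 1
  · congr 1
    rw [inv_pow α n, inv_inv, ← pow_mul, Units.val_pow_eq_pow_val]
  · rw [← inv_pow, ← pow_mul, Units.val_pow_eq_pow_val, Units.val_inv_eq_inv_val]

/-- a high power of a large diagonal matrix contracts -/
theorem gen_small (a : AbsoluteValue ℚ ℚ) {v : GL ι ℚ} (hv : v ∈ Vb b) {α : ℚˣ}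
    (hα : 1 < a (α : ℚ)) {n : ℕ} (hn : ∀ s t, a (v.1 s t) ≤ a (α : ℚ) ^ n) (s t : ι) :
    a (((dg b α)⁻¹ ^ n * v * dg b α ^ n).1 s t) ≤ 1 := by
  rw [gen_entry]
  have hα0 : (α : ℚ) ≠ 0 := α.ne_zero
  have h0 : 0 < a (α : ℚ) := by linarith
  rcases le_or_gt (b t) (b s) with h | h
  · rw [hv s t h]
    rcases eq_or_ne s t with rfl | hst
    · rw [Matrix.one_apply_eq, mul_one, inv_pow, mul_inv_cancel₀ (pow_ne_zero _ hα0), map_one]
    · rw [Matrix.one_apply_ne hst]
      simp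
  · rw [map_mul, map_mul, map_pow, map_pow, map_inv₀]
    have e1 : a (α : ℚ) ^ (n * b s) * a (v.1 s t) * (a (α : ℚ))⁻¹ ^ (n * b t) ≤
        a (α : ℚ) ^ (n * b s) * a (α : ℚ) ^ n * (a (α : ℚ))⁻¹ ^ (n * b t) := by
      have := hn s t
      gcongr
    refine e1.trans ?_
    rw [inv_pow, ← div_eq_mul_inv, div_le_one (by positivity), ← pow_add]
    apply pow_le_pow_right₀ hα.le
    have : n * (b s + 1) ≤ n * b t := Nat.mul_le_mul_left n h
    linarith

end mat

theorem st_GEN : ST_GEN := by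
  intro ι _ _ b m Q _ D R hR x hx
  have hx' : ∀ i, x.1 i * (D.ρ x.2)⁻¹ ∈ Vb b := hx
  -- letters of `Q`
  have hq : ∀ t : Q, ∃ w : List ((Pl m → GL ι ℚ) × Q), (∀ g ∈ w, g ∈ D.S R) ∧ w.prod = D.q t := by
    intro t
    obtain ⟨w, hw, hp⟩ := D.hTgen t (Set.mem_univ t)
    refine ⟨w.map D.q, ?_, ?_⟩
    · intro g hg
      obtain ⟨s, hs, rfl⟩ := List.mem_map.1 hg
      exact Or.inl ⟨s, hw s hs, rfl⟩
    · rw [← hp, map_list_prod]
  -- elements of `V i`
  have hV : ∀ (i : Pl m) (v : GL ι ℚ), v ∈ Vb b →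
      ∃ w : List ((Pl m → GL ι ℚ) × Q), (∀ g ∈ w, g ∈ D.S R) ∧
        w.prod = ((Pi.mulSingle i v : Pl m → GL ι ℚ), (1 : Q)) := by
    intro i v hv
    set α := D.α i i with hα
    have h1 : 1 < av m i (α : ℚ) := (D.hα i i).1
    obtain ⟨n, hn⟩ := pow_unbounded_of_one_lt
      (∑ s, ∑ t, (av m i (v.1 s t) + av m i ((v⁻¹).1 s t))) h1
    have hle : ∀ s t, av m i (v.1 s t) + av m i ((v⁻¹).1 s t) ≤ av m i (α : ℚ) ^ n := by
      intro s t
      refine le_trans ?_ hn.le
      have e1 : av m i (v.1 s t) + av m i ((v⁻¹).1 s t) ≤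
          ∑ t, (av m i (v.1 s t) + av m i ((v⁻¹).1 s t)) :=
        Finset.single_le_sum (f := fun t => av m i (v.1 s t) + av m i ((v⁻¹).1 s t))
          (fun t _ => add_nonneg ((av m i).nonneg _) ((av m i).nonneg _)) (Finset.mem_univ t)
      exact e1.trans (Finset.single_le_sum
        (f := fun s => ∑ t, (av m i (v.1 s t) + av m i ((v⁻¹).1 s t)))
        (fun s _ => Finset.sum_nonneg fun t _ =>
          add_nonneg ((av m i).nonneg _) ((av m i).nonneg _)) (Finset.mem_univ s))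
    have hv1 : ∀ s t, av m i (v.1 s t) ≤ av m i (α : ℚ) ^ n := fun s t => by
      linarith [hle s t, (av m i).nonneg ((v⁻¹).1 s t)]
    have hv2 : ∀ s t, av m i ((v⁻¹).1 s t) ≤ av m i (α : ℚ) ^ n := fun s t => by
      linarith [hle s t, (av m i).nonneg (v.1 s t)]
    set g : (Pl m → GL ι ℚ) × Q := D.q (D.a i i) with hg
    set y : (Pl m → GL ι ℚ) × Q := ((Pi.mulSingle i v : Pl m → GL ι ℚ), (1 : Q)) with hy
    have hgT : g ∈ D.S R := Or.inl ⟨_, D.haT i i, rfl⟩
    have hgT' : g⁻¹ ∈ D.S R := Or.inl ⟨(D.a i i)⁻¹, D.hTinv _ (D.haT i i), by rw [map_inv]⟩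
    have hg1 : ∀ j, g.1 j = D.ρ (D.a i i) := fun j => rfl
    have hgd : D.ρ (D.a i i) = dg b α := D.hρa i i
    -- the contracted element
    have hco : ∀ j, (g⁻¹ ^ n * y * g ^ n).1 j =
        (D.ρ (D.a i i))⁻¹ ^ n * (y.1 j) * (D.ρ (D.a i i)) ^ n := fun j => rfl
    have hcq : (g⁻¹ ^ n * y * g ^ n).2 = 1 := by
      show (D.a i i)⁻¹ ^ n * 1 * (D.a i i) ^ n = 1
      rw [mul_one, inv_pow, inv_mul_cancel]
    have hi : y.1 i = v := by
      rw [hy]
      exact Pi.mulSingle_eq_same (M := fun _ => GL ι ℚ) i v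
    have hE : g⁻¹ ^ n * y * g ^ n ∈ D.E R i := by
      refine ⟨⟨hcq, ?_, ?_⟩, ?_⟩
      · rw [hco, hi]
        have := D.conj ((D.a i i)⁻¹ ^ n) v hv
        rwa [map_pow, map_inv, ← inv_pow, inv_inv] at this
      · intro j hj
        rw [hco]
        have : y.1 j = 1 := by
          rw [hy]
          exact Pi.mulSingle_eq_of_ne (M := fun _ => GL ι ℚ) hj v
        rw [this, mul_one, inv_pow, inv_mul_cancel]
      · intro s t
        have hR' : (1 : ℚ) ≤ R := by exact_mod_cast hR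
        constructor
        · rw [hco, hi, hgd]
          exact (gen_small (av m i) hv h1 hv1 s t).trans hR'
        · have e1 : ((g⁻¹ ^ n * y * g ^ n).1 i)⁻¹ =
              (dg b α)⁻¹ ^ n * v⁻¹ * (dg b α) ^ n := by
            rw [hco, hi, hgd]
            group
          rw [e1]
          exact (gen_small (av m i) ((Vb b).inv_mem hv) h1 hv2 s t).trans hR'
    refine ⟨List.replicate n g ++ (g⁻¹ ^ n * y * g ^ n) :: List.replicate n g⁻¹, ?_, ?_⟩
    · intro z hz
      simp only [List.mem_append, List.mem_cons, List.mem_replicate] at hz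
      rcases hz with h | h | h
      · rw [h.2]
        exact hgT
      · rw [h]
        exact Or.inr (Set.mem_iUnion.2 ⟨i, hE⟩)
      · rw [h.2]
        exact hgT'
    · rw [List.prod_append, List.prod_cons, List.prod_replicate, List.prod_replicate]
      group
  have key := gen_list (S := D.S R)
    ((Finset.univ : Finset (Pl m)).toList.map fun i =>
      ((Pi.mulSingle i (x.1 i * (D.ρ x.2)⁻¹) : Pl m → GL ι ℚ), (1 : Q))) (by
    intro z hz
    obtain ⟨i, _, rfl⟩ := List.mem_map.1 hz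
    exact hV i _ (hx' i))
  have fin := gen_mul key (hq x.2)
  have e : ((Finset.univ : Finset (Pl m)).toList.map fun i =>
      ((Pi.mulSingle i (x.1 i * (D.ρ x.2)⁻¹) : Pl m → GL ι ℚ), (1 : Q))).prod * D.q x.2 = x := by
    rw [gen_prod (fun i => x.1 i * (D.ρ x.2)⁻¹) _ (Finset.nodup_toList _)]
    refine Prod.ext ?_ ?_
    · funext j
      rw [Prod.fst_mul, Pi.mul_apply]
      dsimp only
      rw [if_pos (by simp)]
      show x.1 j * (D.ρ x.2)⁻¹ * D.ρ x.2 = x.1 j
      rw [inv_mul_cancel_right]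
    · show 1 * x.2 = x.2
      rw [one_mul]
  rw [e] at fin
  exact fin

end QD
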