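import Pool.Agent.Helper24.QD.ArB

set_option autoImplicit false

/-! Row IND: the main (dyadic) induction. -/

namespace QD

namespace IND

variable {G I : Type} [Group G] (D : Setup G I) {c : ℕ}

theorem T_sub : D.T ⊆ D.S := Set.subset_union_left

theorem E_sub (i : I) : D.E i ⊆ D.S :=
  (Set.subset_iUnion D.E i).trans Set.subset_union_right

theorem W_cons (i : I) (is : List I) (n : ℕ) (v : I → G) :
    D.W (i :: is) n v = ray (D.A i i) n (v i) ++ D.W is n v := by
  simp [Setup.W]

theorem W_nil (n : ℕ) (v : I → G) : D.W [] n v = [] := by simp [Setup.W]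

theorem W_prod (is : List I) (n : ℕ) (v : I → G) : (D.W is n v).prod = (is.map v).prod := by
  induction is with
  | nil => rw [W_nil]; simp
  | cons i is ih => rw [W_cons, List.prod_append, prod_ray, ih]; simp

theorem W_length (is : List I) (n : ℕ) (v : I → G) :
    (D.W is n v).length = is.length * (2 * n + 1) := by
  induction is with
  | nil => rw [W_nil]; simp
  | cons i is ih =>
    rw [W_cons, List.length_append, length_ray, ih, List.length_cons]; ring

theorem W_mem (is : List I) (n : ℕ) (v : I → G) (hv : D.Ok n v) :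
    ∀ g ∈ D.W is n v, g ∈ D.S := by
  induction is with
  | nil => rw [W_nil]; simp
  | cons i is ih =>
    intro g hg
    rw [W_cons, List.mem_append] at hg
    rcases hg with hg | hg
    · exact mem_ray (D.A i i) (v i) n (D.E i) (T_sub D (D.hAT i i))
        (T_sub D (D.hTinv _ (D.hAT i i))) (E_sub D i) (hv i).2 g hg
    · exact ih g hg

open Classical in
theorem prod_update (is : List I) (his : is.Nodup) (i : I) (x : G) :
    (is.map (Function.update (fun _ => (1 : G)) i x)).prod = if i ∈ is then x else 1 := by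
  induction is with
  | nil => simp
  | cons j is ih =>
    rw [List.map_cons, List.prod_cons, ih (List.nodup_cons.mp his).2]
    by_cases hj : j = i
    · subst hj
      have := (List.nodup_cons.mp his).1
      simp [this]
    · rw [Function.update_of_ne hj, one_mul]
      have : ¬ i = j := fun h => hj h.symm
      simp [this]

/-- Conjugation by a power stays in `E i`. -/
theorem pow_mem (i : I) (m : ℕ) (x : G) (hx : x ∈ D.E i) :
    (D.A i i)⁻¹ ^ m * x * D.A i i ^ m ∈ D.E i := by
  induction m with
  | zero => simpa using hx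
  | succ m ih =>
    have h := D.hC1 i i i (Or.inl rfl) _ ih
    have e : (D.A i i)⁻¹ * ((D.A i i)⁻¹ ^ m * x * D.A i i ^ m) * D.A i i =
        (D.A i i)⁻¹ ^ (m + 1) * x * D.A i i ^ (m + 1) := by
      rw [pow_succ' (D.A i i)⁻¹, pow_succ (D.A i i)]; group
    rwa [e] at h

/-- A letter of `S` is in `T` or in some `E i`. -/
theorem S_cases {g : G} (hg : g ∈ D.S) : g ∈ D.T ∨ ∃ i, g ∈ D.E i := by
  rcases hg with hg | hg
  · exact Or.inl hg
  · obtain ⟨i, hi⟩ := Set.mem_iUnion.mp hg
    exact Or.inr ⟨i, hi⟩

/-- The base of the induction. -/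
theorem base [Fintype I] (n : ℕ) (hc : Fintype.card I * (2 * n + 1) + 1 ≤ c) (w : List G)
    (hw : ∀ g ∈ w, g ∈ D.S) (hl : w.length ≤ 1) :
    ∃ (v : I → G) (om : List G), D.Ok n v ∧ (∀ g ∈ om, g ∈ D.T) ∧ om.length ≤ w.length ∧
      Ar D.S c 1 w (D.W (Finset.univ : Finset I).toList n v ++ om) := by
  classical
  have hok1 : D.Ok n (fun _ => 1) := by
    intro i
    refine ⟨(D.V i).one_mem, ?_⟩
    have e : (D.A i i)⁻¹ ^ n * 1 * D.A i i ^ n = 1 := by rw [mul_one, inv_pow, inv_mul_cancel]
    rw [e]; exact D.hE1 i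
  have hlen : ∀ v, (D.W (Finset.univ : Finset I).toList n v).length =
      Fintype.card I * (2 * n + 1) := by
    intro v
    rw [W_length, Finset.length_toList, Finset.card_univ]
  have hone : ((Finset.univ : Finset I).toList.map (fun _ => (1 : G))).prod = 1 := by simp
  -- the words in `T` of length at most one
  have hT : ∀ om : List G, (∀ g ∈ om, g ∈ D.T) → om.length ≤ 1 →
      Ar D.S c 1 om (D.W (Finset.univ : Finset I).toList n (fun _ => 1) ++ om) := by
    intro om hom hl
    refine Ar.whole ?_ ?_ ?_ ?_ ?_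
    · rw [List.prod_append, W_prod, hone, one_mul]
    · omega
    · rw [List.length_append, hlen]; omega
    · exact fun g hg => T_sub D (hom g hg)
    · intro g hg
      rcases List.mem_append.mp hg with hg | hg
      · exact W_mem D _ n _ hok1 g hg
      · exact T_sub D (hom g hg)
  match w, hl with
  | [], _ => exact ⟨fun _ => 1, [], hok1, by simp, by simp, hT [] (by simp) (by simp)⟩
  | [x], _ =>
    rcases S_cases D (hw x (by simp)) with hx | ⟨i, hx⟩
    · exact ⟨fun _ => 1, [x], hok1, by simpa using hx, by simp, hT [x] (by simpa using hx) (by simp)⟩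
    · have hok : D.Ok n (Function.update (fun _ => (1 : G)) i x) := by
        intro j
        by_cases hj : j = i
        · subst hj
          rw [Function.update_self]
          exact ⟨D.hEV _ x hx, pow_mem D _ n x hx⟩
        · rw [Function.update_of_ne hj]
          exact hok1 j
      refine ⟨Function.update (fun _ => (1 : G)) i x, [], hok, by simp, by simp, ?_⟩
      refine Ar.whole ?_ ?_ ?_ ?_ ?_
      · rw [List.append_nil, W_prod, prod_update _ (Finset.nodup_toList _) i x]
        simp
      · simp; omega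
      · rw [List.append_nil, hlen]; omega
      · exact hw
      · intro g hg
        rw [List.append_nil] at hg
        exact W_mem D _ n _ hok g hg
  | _ :: _ :: _, h => simp at h

end IND

open IND

theorem st_M1 (hWEX : ST_WEX) (hWMUL : ST_WMUL) (hWPASS : ST_WPASS) (hWONE : ST_WONE) :
    ST_M1 := by
  intro G I _ _ D huniq
  classical
  set r := Fintype.card I with hr
  set is := (Finset.univ : Finset I).toList with his
  have hnd : is.Nodup := Finset.nodup_toList _
  have hlen : is.length = r := by rw [his, Finset.length_toList, Finset.card_univ]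
  set κ := 2 * D.k0 with hκ
  set c := 2 * D.k0 + 3 + (r * (2 * κ + 1) + 1) with hcdef
  have hc : 2 * D.k0 + 3 ≤ c := by omega
  obtain ⟨Kw, hKw⟩ := hWMUL G I D c hc
  set D1 := r * (2 * (κ + D.k0) + 1) + 3 * r * D.k0 + Kw * (r + 1) ^ 2 * (κ + D.k0 + 1) ^ 2
    with hD1
  set K := D1 + 1 with hK
  have claim : ∀ (k : ℕ) (w : List G), (∀ g ∈ w, g ∈ D.S) → w.length ≤ 2 ^ k →
      ∃ (v : I → G) (om : List G), D.Ok (κ * 2 ^ k) v ∧ (∀ g ∈ om, g ∈ D.T) ∧
        om.length ≤ w.length ∧ Ar D.S c (K * 4 ^ k) w (D.W is (κ * 2 ^ k) v ++ om) := by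
    intro k
    induction k with
    | zero =>
      intro w hw hl
      obtain ⟨v, om, h1, h2, h3, h4⟩ := base D (c := c) κ (by rw [← hr]; omega) w hw (by simpa using hl)
      rw [pow_zero, mul_one, pow_zero, mul_one]
      exact ⟨v, om, h1, h2, h3, h4.mono_k (by omega)⟩
    | succ k ih =>
      intro w hw hl
      set x := 2 ^ k with hx
      have hx1 : 1 ≤ x := Nat.one_le_two_pow
      have hwl : w.length ≤ 2 * x := by rw [hx, ← pow_succ']; exact hl
      obtain ⟨v1, om1, a1, a2, a3, a4⟩ := ih (w.take x)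
        (fun g hg => hw g (List.mem_of_mem_take hg)) (List.length_take_le _ _)
      obtain ⟨v2, om2, b1, b2, b3, b4⟩ := ih (w.drop x)
        (fun g hg => hw g (List.mem_of_mem_drop hg)) (by rw [List.length_drop]; omega)
      set n := κ * x with hn
      have ho1 : om1.length ≤ x := a3.trans (List.length_take_le _ _)
      -- pass
      obtain ⟨c1, c2⟩ := hWPASS G I D c hc is n v2 om1 a2 b1
      set v2' := fun i => om1.prod * v2 i * om1.prod⁻¹ with hv2'
      -- raise
      obtain ⟨d1, d2⟩ := hWEX G I D c hc is (n + om1.length * D.k0)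
        ((x - om1.length) * D.k0) v2' c1
      have e1 : n + om1.length * D.k0 + (x - om1.length) * D.k0 = n + x * D.k0 := by
        rw [add_assoc, ← Nat.add_mul]; congr 2; omega
      rw [e1] at d1 d2
      obtain ⟨f1, f2⟩ := hWEX G I D c hc is n (x * D.k0) v1 a1
      obtain ⟨g1, g2⟩ := hKw is hnd (n + x * D.k0) v1 v2' f1 d1
      obtain ⟨i1, i2⟩ := hWEX G I D c hc is (n + x * D.k0 + D.k0) ((x - 1) * D.k0) (v1 * v2') g1
      have e2 : n + x * D.k0 + D.k0 + (x - 1) * D.k0 = κ * 2 ^ (k + 1) := by
        rw [pow_succ, hn, hκ, ← hx]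
        obtain ⟨y, hy⟩ : ∃ y, x = y + 1 := ⟨x - 1, by omega⟩
        rw [hy, Nat.add_sub_cancel]; ring
      rw [e2] at i1 i2
      refine ⟨v1 * v2', om1 ++ om2, i1, ?_, ?_, ?_⟩
      · intro g hg
        rcases List.mem_append.mp hg with hg | hg
        · exact a2 g hg
        · exact b2 g hg
      · rw [List.length_append]
        rw [List.length_take] at a3
        rw [List.length_drop] at b3
        omega
      · have j1 := a4.append b4
        rw [List.take_append_drop] at j1
        -- (W v1 ++ om1) ++ (W v2 ++ om2)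
        have j2 := c2.congr (D.W is n v1) om2
        have j3 := (d2.right om1).congr (D.W is n v1) om2
        have j4 := f2.right (D.W is (n + x * D.k0) v2' ++ (om1 ++ om2))
        have j5 := g2.right (om1 ++ om2)
        have j6 := i2.right (om1 ++ om2)
        simp only [List.append_assoc] at j1 j2 j3 j4 j5 j6 ⊢
        have j7 := ((((j1.trans j2).trans j3).trans j4).trans j5).trans j6
        refine j7.mono_k ?_
        rw [hlen]
        have hxx : x ≤ x ^ 2 := Nat.le_self_pow (by norm_num) _
        have h4k : 4 ^ k = x ^ 2 := by rw [hx, ← pow_mul, mul_comm k 2, pow_mul]; norm_num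
        have h4k' : 4 ^ (k + 1) = 4 * x ^ 2 := by rw [pow_succ, h4k]; ring
        rw [h4k, h4k']
        have k1 : r * om1.length * (2 * (n + om1.length * D.k0) + 1) ≤
            r * (2 * (κ + D.k0) + 1) * x ^ 2 := by
          calc r * om1.length * (2 * (n + om1.length * D.k0) + 1)
              ≤ r * x * (2 * (κ * x + x * D.k0) + x) := by gcongr
            _ = r * (2 * (κ + D.k0) + 1) * x ^ 2 := by ring
        have k2 : r * ((x - om1.length) * D.k0) ≤ r * D.k0 * x ^ 2 := by
          calc r * ((x - om1.length) * D.k0) ≤ r * (x ^ 2 * D.k0) := by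
                gcongr; omega
            _ = _ := by ring
        have k3 : r * (x * D.k0) ≤ r * D.k0 * x ^ 2 := by
          calc r * (x * D.k0) ≤ r * (x ^ 2 * D.k0) := by gcongr
            _ = _ := by ring
        have k4 : Kw * (r + 1) ^ 2 * (n + x * D.k0 + 1) ^ 2 ≤
            Kw * (r + 1) ^ 2 * (κ + D.k0 + 1) ^ 2 * x ^ 2 := by
          calc Kw * (r + 1) ^ 2 * (n + x * D.k0 + 1) ^ 2
              ≤ Kw * (r + 1) ^ 2 * (κ * x + x * D.k0 + x) ^ 2 := by gcongr
            _ = _ := by ring
        have k5 : r * ((x - 1) * D.k0) ≤ r * D.k0 * x ^ 2 := by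
          calc r * ((x - 1) * D.k0) ≤ r * (x ^ 2 * D.k0) := by
                gcongr; omega
            _ = _ := by ring
        have k6 : D1 * x ^ 2 = r * (2 * (κ + D.k0) + 1) * x ^ 2 + 3 * (r * D.k0 * x ^ 2) +
            Kw * (r + 1) ^ 2 * (κ + D.k0 + 1) ^ 2 * x ^ 2 := by rw [hD1]; ring
        have k7 : K * (4 * x ^ 2) = 2 * (K * x ^ 2) + 2 * (D1 * x ^ 2) + 2 * x ^ 2 := by
          rw [hK]; ring
        omega
  refine ⟨c, 4 * K + r + r * (κ * 4 + 1) + 1, ?_⟩
  intro w hw hw1
  obtain ⟨k, hk1, hk2⟩ : ∃ k, w.length ≤ 2 ^ k ∧ 2 ^ k ≤ 2 * w.length + 1 := by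
    rcases Nat.eq_zero_or_pos w.length with h0 | hpos
    · exact ⟨0, by omega, by omega⟩
    · refine ⟨Nat.clog 2 w.length, Nat.le_pow_clog (by norm_num) _, ?_⟩
      rcases Nat.lt_or_ge 1 w.length with h1 | h1
      · have h2 := Nat.pow_pred_clog_lt_self (b := 2) (by norm_num) h1
        have h3 : 0 < Nat.clog 2 w.length := Nat.clog_pos (by norm_num) h1
        have h4 : 2 ^ (Nat.clog 2 w.length) = 2 * 2 ^ (Nat.clog 2 w.length).pred := by
          rw [← pow_succ']
          congr 1
          exact (Nat.succ_pred_eq_of_pos h3).symm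
        rw [h4]; omega
      · have : w.length = 1 := by omega
        rw [this]; simp
  obtain ⟨v, om, h1, h2, h3, h4⟩ := claim k w hw hk1
  have hp := h4.prod_eq
  rw [hw1, List.prod_append, W_prod] at hp
  have hv1 := huniq v om (fun i => (h1 i).1) h2 hp.symm
  have hv : v = fun _ => 1 := funext hv1
  subst hv
  have h5 := (hWONE G I D c hc is (κ * 2 ^ k)).2
  have h6 := h4.trans (h5.right om)
  rw [List.nil_append] at h6
  set L := w.length with hL
  refine ⟨om, h2, ?_, ?_⟩
  · nlinarith [Nat.zero_le ((4 * K + r + r * (κ * 4 + 1)) * L)]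
  · refine h6.mono_k ?_
    rw [hlen]
    have m1 : (4 : ℕ) ^ k = (2 ^ k) ^ 2 := by
      rw [← pow_mul, mul_comm k 2, pow_mul]; norm_num
    rw [m1]
    set y := 2 ^ k with hy
    rcases Nat.eq_zero_or_pos L with h0 | hpos
    · have hy1 : y ≤ 1 := by omega
      rw [h0]
      have : K * y ^ 2 ≤ K := by
        calc K * y ^ 2 ≤ K * 1 ^ 2 := by gcongr
          _ = K := by ring
      have h8 : r * (κ * y + 1) ≤ r * (κ * 4 + 1) := by gcongr; omega
      omega
    · have hyy : y ≤ 2 * L := by
        rcases Nat.lt_or_ge y (2 * L + 1) with h | h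
        · omega
        · exfalso
          have h7 : y = 2 * L + 1 := by omega
          rcases k with _ | k
          · simp at hy; omega
          · rw [pow_succ] at hy; omega
      have n1 : K * y ^ 2 ≤ 4 * K * L ^ 2 := by
        calc K * y ^ 2 ≤ K * (2 * L) ^ 2 := by gcongr
          _ = _ := by ring
      have n2 : r * (κ * y + 1) ≤ r * (κ * 4 + 1) * L ^ 2 := by
        have hL2 : L ≤ L ^ 2 := Nat.le_self_pow (by norm_num) _
        have hL1 : 1 ≤ L ^ 2 := Nat.one_le_pow _ _ hpos
        calc r * (κ * y + 1) ≤ r * (κ * (4 * L ^ 2) + L ^ 2) := by gcongr; omega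
          _ = _ := by ring
      have n3 : (4 * K + r + r * (κ * 4 + 1) + 1) * L ^ 2 = 4 * K * L ^ 2 + r * L ^ 2 +
          r * (κ * 4 + 1) * L ^ 2 + L ^ 2 := by ring
      omega

end QD
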