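import Pool.Agent.Helper24.QD.ArB

set_option autoImplicit false

/-! Row NFL: lists of ray words. -/

namespace QD

namespace NFL

variable {G I : Type} [Group G] (D : Setup G I) {c : ℕ}

theorem T_sub : D.T ⊆ D.S := Set.subset_union_left

theorem E_sub (i : I) : D.E i ⊆ D.S :=
  (Set.subset_iUnion D.E i).trans Set.subset_union_right

theorem A_mem (i j : I) : D.A i j ∈ D.S := T_sub D (D.hAT i j)

theorem A_inv_mem (i j : I) : (D.A i j)⁻¹ ∈ D.S := T_sub D (D.hTinv _ (D.hAT i j))

theorem hC1' (i : I) : ∀ x ∈ D.E i, (D.A i i)⁻¹ * x * D.A i i ∈ D.E i :=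
  D.hC1 i i i (Or.inl rfl)

/-- Conjugation by a power stays in `E i`. -/
theorem pow_mem (i : I) (m : ℕ) (x : G) (hx : x ∈ D.E i) :
    (D.A i i)⁻¹ ^ m * x * D.A i i ^ m ∈ D.E i := by
  induction m with
  | zero => simpa using hx
  | succ m ih =>
    have h := hC1' D i _ ih
    have e : (D.A i i)⁻¹ * ((D.A i i)⁻¹ ^ m * x * D.A i i ^ m) * D.A i i =
        (D.A i i)⁻¹ ^ (m + 1) * x * D.A i i ^ (m + 1) := by
      rw [pow_succ' (D.A i i)⁻¹, pow_succ (D.A i i)]; group
    rwa [e] at h

theorem ok_add {n : ℕ} {v : I → G} (h : D.Ok n v) (m : ℕ) : D.Ok (n + m) v := by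
  intro i
  refine ⟨(h i).1, ?_⟩
  have h1 := pow_mem D i m _ (h i).2
  have e : (D.A i i)⁻¹ ^ m * ((D.A i i)⁻¹ ^ n * v i * D.A i i ^ n) * D.A i i ^ m =
      (D.A i i)⁻¹ ^ (n + m) * v i * D.A i i ^ (n + m) := by
    rw [pow_add (D.A i i), add_comm n m, pow_add (D.A i i)⁻¹]; group
  rwa [e] at h1

theorem W_cons (i : I) (is : List I) (n : ℕ) (v : I → G) :
    D.W (i :: is) n v = ray (D.A i i) n (v i) ++ D.W is n v := by
  simp [Setup.W]

theorem W_nil (n : ℕ) (v : I → G) : D.W [] n v = [] := by simp [Setup.W]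

end NFL

open NFL

theorem st_WEX (hR1 : ST_R1) : ST_WEX := by
  intro G I _ D c hc is n m v hv
  refine ⟨ok_add D hv m, ?_⟩
  induction is with
  | nil => rw [W_nil, W_nil]; exact Ar.refl _ _
  | cons i is ih =>
    rw [W_cons, W_cons, List.length_cons]
    have h1 := hR1 G D.S (D.E i) c (D.A i i) (v i) n m (by omega) (A_mem D i i) (A_inv_mem D i i)
      (E_sub D i) (hC1' D i) (hv i).2
    exact (h1.append ih).mono_k (by rw [Nat.succ_mul]; omega)

theorem st_WONE (hR6 : ST_R6) : ST_WONE := by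
  intro G I _ D c hc is n
  refine ⟨?_, ?_⟩
  · intro i
    refine ⟨(D.V i).one_mem, ?_⟩
    have e : (D.A i i)⁻¹ ^ n * 1 * D.A i i ^ n = 1 := by rw [mul_one, inv_pow, inv_mul_cancel]
    rw [e]; exact D.hE1 i
  · induction is with
    | nil => rw [W_nil]; exact Ar.refl _ _
    | cons i is ih =>
      rw [W_cons, List.length_cons]
      have h1 := hR6 G D.S c (D.A i i) n (by omega) (A_mem D i i) (A_inv_mem D i i)
        (E_sub D i (D.hE1 i))
      have h2 := h1.append ih
      rw [List.nil_append] at h2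
      exact h2.mono_k (by rw [Nat.succ_mul]; omega)

/-- One letter of `T` across the whole word. -/
theorem NFL.pass_one (hR5 : ST_R5) {G I : Type} [Group G] (D : Setup G I) {c : ℕ}
    (hc : 2 * D.k0 + 3 ≤ c) (is : List I) (n : ℕ) (v : I → G) (t : G) (ht : t ∈ D.T)
    (hv : D.Ok n v) :
    D.Ok (n + D.k0) (fun i => t * v i * t⁻¹) ∧
    Ar D.S c (is.length * (2 * n + 1)) (t :: D.W is n v)
      (D.W is (n + D.k0) (fun i => t * v i * t⁻¹) ++ [t]) := by
  have hcomm : ∀ i, D.A i i * t = t * D.A i i := fun i => D.hAcomm i i t ht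
  refine ⟨?_, ?_⟩
  · intro i
    refine ⟨D.hTV t ht i _ (hv i).1, ?_⟩
    have h1 := D.hC3 i i i (Or.inl rfl) t ht _ (hv i).2
    have hcn : Commute (D.A i i ^ n) t := Commute.pow_left (hcomm i) n
    have hcn' : Commute ((D.A i i)⁻¹ ^ n) t := by
      rw [inv_pow]; exact hcn.inv_left
    have hcn2 : Commute (D.A i i ^ n) t⁻¹ := hcn.inv_right
    have e : (D.A i i)⁻¹ ^ D.k0 * (t * ((D.A i i)⁻¹ ^ n * v i * D.A i i ^ n) * t⁻¹) *
        D.A i i ^ D.k0 = (D.A i i)⁻¹ ^ (n + D.k0) * (t * v i * t⁻¹) * D.A i i ^ (n + D.k0) := by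
      have e1 : t * ((D.A i i)⁻¹ ^ n * v i * D.A i i ^ n) * t⁻¹ =
          (D.A i i)⁻¹ ^ n * (t * v i * t⁻¹) * D.A i i ^ n := by
        calc t * ((D.A i i)⁻¹ ^ n * v i * D.A i i ^ n) * t⁻¹
            = (t * (D.A i i)⁻¹ ^ n) * v i * (D.A i i ^ n * t⁻¹) := by group
          _ = ((D.A i i)⁻¹ ^ n * t) * v i * (t⁻¹ * D.A i i ^ n) := by rw [hcn'.eq, hcn2.eq]
          _ = _ := by group
      rw [e1, pow_add (D.A i i), add_comm n, pow_add (D.A i i)⁻¹]; group
    rwa [e] at h1
  · induction is with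
    | nil => rw [W_nil, W_nil]; exact Ar.refl _ _
    | cons i is ih =>
      rw [W_cons, W_cons, List.length_cons]
      have h1 := hR5 G D.S (D.E i) c D.k0 (D.A i i) t (v i) n hc (A_mem D i i) (A_inv_mem D i i)
        (T_sub D ht) (E_sub D i) (hcomm i) (D.hC3 i i i (Or.inl rfl) t ht) (hv i).2
      have h2 := h1.right (D.W is n v)
      have h3 := ih.left (ray (D.A i i) (n + D.k0) (t * v i * t⁻¹))
      have h4 : Ar D.S c (2 * n + 1) (t :: (ray (D.A i i) n (v i) ++ D.W is n v))
          (ray (D.A i i) (n + D.k0) (t * v i * t⁻¹) ++ (t :: D.W is n v)) := by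
        simpa using h2
      have h5 := h4.trans h3
      rw [← List.append_assoc] at h5
      refine h5.mono_k ?_
      have h6 : (is.length + 1) * (2 * n + 1) = is.length * (2 * n + 1) + (2 * n + 1) := by ring
      omega

theorem st_WPASS (hR5 : ST_R5) : ST_WPASS := by
  intro G I _ D c hc is n v t ht hv
  induction t with
  | nil =>
    refine ⟨?_, ?_⟩
    · simpa using hv
    · simpa using Ar.refl _ _
  | cons a t ih =>
    obtain ⟨h1, h2⟩ := ih (fun g hg => ht g (by simp [hg]))
    obtain ⟨h3, h4⟩ := NFL.pass_one hR5 D hc is _ _ a (ht a (by simp)) h1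
    have e1 : n + t.length * D.k0 + D.k0 = n + (a :: t).length * D.k0 := by
      rw [List.length_cons, Nat.succ_mul]; ring
    have e2 : (fun i => a * (t.prod * v i * t.prod⁻¹) * a⁻¹) =
        (fun i => (a :: t).prod * v i * (a :: t).prod⁻¹) := by
      funext i; rw [List.prod_cons]; group
    rw [e1, e2] at h3 h4
    refine ⟨h3, ?_⟩
    have h5 := h2.cons a
    have h6 := h4.right t
    have h7 : Ar D.S c (is.length * (2 * (n + t.length * D.k0) + 1))
        (a :: (D.W is (n + t.length * D.k0) (fun i => t.prod * v i * t.prod⁻¹) ++ t))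
        (D.W is (n + (a :: t).length * D.k0) (fun i => (a :: t).prod * v i * (a :: t).prod⁻¹) ++
          (a :: t)) := by
      simpa using h6
    have h8 := h5.trans h7
    rw [List.cons_append]
    refine h8.mono_k ?_
    rw [List.length_cons]
    have h9 : is.length * t.length * (2 * (n + t.length * D.k0) + 1) ≤
        is.length * t.length * (2 * (n + (t.length + 1) * D.k0) + 1) := by
      gcongr; omega
    have h10 : is.length * (2 * (n + t.length * D.k0) + 1) ≤
        is.length * (2 * (n + (t.length + 1) * D.k0) + 1) := by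
      gcongr; omega
    calc _ ≤ is.length * t.length * (2 * (n + (t.length + 1) * D.k0) + 1) +
          is.length * (2 * (n + (t.length + 1) * D.k0) + 1) := Nat.add_le_add h9 h10
      _ = _ := by ring

theorem st_WMUL (hR3 : ST_R3) (hCRS : ST_CRS) : ST_WMUL := by
  intro G I _ D c hc
  obtain ⟨K, hK⟩ := hCRS G I D c hc
  refine ⟨K + 1, ?_⟩
  intro is his n v w hv hw
  have hok : D.Ok (n + D.k0) (v * w) := by
    intro i
    refine ⟨(D.V i).mul_mem (hv i).1 (hw i).1, ?_⟩
    have h1 := D.hC2 i i i (Or.inl rfl) _ (hv i).2 _ (hw i).2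
    have e : (D.A i i)⁻¹ ^ D.k0 * ((D.A i i)⁻¹ ^ n * v i * D.A i i ^ n *
        ((D.A i i)⁻¹ ^ n * w i * D.A i i ^ n)) * D.A i i ^ D.k0 =
        (D.A i i)⁻¹ ^ (n + D.k0) * ((v * w) i) * D.A i i ^ (n + D.k0) := by
      rw [pow_add (D.A i i), add_comm n, pow_add (D.A i i)⁻¹, Pi.mul_apply]
      have : D.A i i ^ n * (D.A i i)⁻¹ ^ n = 1 := by rw [inv_pow, mul_inv_cancel]
      calc _ = (D.A i i)⁻¹ ^ D.k0 * (D.A i i)⁻¹ ^ n * v i *
            (D.A i i ^ n * (D.A i i)⁻¹ ^ n) * w i * D.A i i ^ n * D.A i i ^ D.k0 := by group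
        _ = _ := by rw [this]; group
    rwa [e] at h1
  refine ⟨hok, ?_⟩
  -- moving one block across
  have hmove : ∀ (i : I) (js : List I), i ∉ js →
      Ar D.S c (K * js.length * (n + 1) ^ 2) (D.W js n v ++ ray (D.A i i) n (w i))
        (ray (D.A i i) n (w i) ++ D.W js n v) := by
    intro i js
    induction js with
    | nil => intro _; rw [W_nil]; simpa using Ar.refl _ _
    | cons j js ih =>
      intro hij
      have hji : j ≠ i := fun h => hij (by simp [h])
      have h1 := ih (fun h => hij (by simp [h]))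
      have h2 := hK j i n (v j) (w i) hji (hv j).1 (hw i).1 (hv j).2 (hw i).2
      rw [W_cons, List.length_cons]
      have h3 := h1.left (ray (D.A j j) n (v j))
      have h4 := h2.right (D.W js n v)
      rw [← List.append_assoc, ← List.append_assoc] at h3
      have h5 := h3.trans h4
      refine Ar.mono_k (k := K * js.length * (n + 1) ^ 2 + K * (n + 1) ^ 2) ?_ (by
        have : K * (js.length + 1) * (n + 1) ^ 2 =
          K * js.length * (n + 1) ^ 2 + K * (n + 1) ^ 2 := by ring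
        omega)
      simpa using h5
  induction is with
  | nil => rw [W_nil, W_nil, W_nil]; exact Ar.refl _ _
  | cons i is ih =>
    have hi : i ∉ is := (List.nodup_cons.mp his).1
    have h1 := ih (List.nodup_cons.mp his).2
    have h2 := hmove i is hi
    have h3 := hR3 G D.S (D.E i) c D.k0 (D.A i i) (v i) (w i) n hc (A_mem D i i) (A_inv_mem D i i)
      (E_sub D i) (D.hC2 i i i (Or.inl rfl)) (hv i).2 (hw i).2
    have h4 := h2.congr (ray (D.A i i) n (v i)) (D.W is n w)
    have h5 := h3.append h1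
    rw [W_cons, W_cons, W_cons, List.length_cons, Pi.mul_apply]
    have h6 : Ar D.S c (K * is.length * (n + 1) ^ 2 + (n + 1 + (K + 1) * (is.length + 1) ^ 2 *
        (n + 1) ^ 2))
        (ray (D.A i i) n (v i) ++ D.W is n v ++ (ray (D.A i i) n (w i) ++ D.W is n w))
        (ray (D.A i i) (n + D.k0) (v i * w i) ++ D.W is (n + D.k0) (v * w)) := by
      refine Ar.trans ?_ h5
      simpa using h4
    refine h6.mono_k ?_
    have h7 : n + 1 ≤ (n + 1) ^ 2 := Nat.le_self_pow (by norm_num) _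
    have h8 : (K + 1) * (is.length + 1 + 1) ^ 2 * (n + 1) ^ 2 =
        (K + 1) * (is.length + 1) ^ 2 * (n + 1) ^ 2 + K * is.length * (n + 1) ^ 2 + (n + 1) ^ 2 +
        (K * is.length + 2 * is.length + 3 * K + 2) * (n + 1) ^ 2 := by ring
    rw [h8]
    have h9 := Nat.zero_le ((K * is.length + 2 * is.length + 3 * K + 2) * (n + 1) ^ 2)
    omega

end QD
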