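import Pool.Agent.Helper24.QD.Stmts

set_option autoImplicit false

/-! Simultaneous approximation at the places of `ℤ[1/m]`. -/

namespace QD

theorem nta_pow_one (p q k : ℕ) (hp : p.Prime) (hq : q.Prime) (h : q ≠ p) :
    padicNorm q ((p : ℚ) ^ k) = 1 := by
  have : Fact q.Prime := ⟨hq⟩
  have h1 : ¬ q ∣ p ^ k := by
    intro h2
    exact h ((Nat.prime_dvd_prime_iff_eq hq hp).1 (hq.dvd_of_dvd_pow h2))
  have h3 := (padicNorm.nat_eq_one_iff _).2 h1
  push_cast at h3
  exact h3

theorem nta_loc (p : ℕ) (hp : p.Prime) (x : ℚ) : ∃ b : ℚ, padicNorm p (x - b) ≤ 1 ∧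
    ∀ q : ℕ, q.Prime → q ≠ p → padicNorm q b ≤ 1 := by
  have hpf : Fact p.Prime := ⟨hp⟩
  obtain ⟨k, c, hc, hkc⟩ := Nat.exists_eq_pow_mul_and_not_dvd x.den_nz p hp.ne_one
  have hcop : IsCoprime (c : ℤ) ((p : ℤ) ^ k) := by
    have h1 : Nat.Coprime c (p ^ k) :=
      Nat.Coprime.pow_right k ((Nat.Prime.coprime_iff_not_dvd hp).2 hc).symm
    have h2 := Nat.isCoprime_iff_coprime.2 h1
    push_cast at h2
    exact h2
  obtain ⟨u, v, huv⟩ := hcop
  have hp0 : (p : ℚ) ≠ 0 := by exact_mod_cast hp.ne_zero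
  have hc0 : (c : ℚ) ≠ 0 := by
    have : c ≠ 0 := by rintro rfl; exact hc (dvd_zero p)
    exact_mod_cast this
  have huv' : (u : ℚ) * c + v * (p : ℚ) ^ k = 1 := by exact_mod_cast huv
  have hx : x = x.num / ((p : ℚ) ^ k * c) := by
    conv_lhs => rw [← Rat.num_div_den x]
    rw [hkc]
    push_cast
    rfl
  generalize x.num = n at hx
  refine ⟨n * u / (p : ℚ) ^ k, ?_, ?_⟩
  · have h1 : x - n * u / (p : ℚ) ^ k = ((n * v : ℤ) : ℚ) / (c : ℚ) := by
      rw [hx]
      push_cast
      field_simp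
      linear_combination (-(n : ℚ)) * huv'
    rw [h1, padicNorm.div]
    have h2 : padicNorm p (c : ℚ) = 1 := (padicNorm.nat_eq_one_iff _).2 hc
    rw [h2, div_one]
    exact padicNorm.of_int _
  · intro q hq hqp
    have : Fact q.Prime := ⟨hq⟩
    rw [padicNorm.div, nta_pow_one p q k hp hq hqp, div_one]
    have h3 : ((n : ℚ) * u) = ((n * u : ℤ) : ℚ) := by push_cast; rfl
    rw [h3]
    exact padicNorm.of_int _

theorem st_NTA : ST_NTA := by
  intro m hm x
  choose b hb1 hb2 using fun p : {p : ℕ // p ∈ m.primeFactors} =>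
    nta_loc p.1 (Nat.prime_of_mem_primeFactors p.2) (x (some p))
  set β1 : ℚ := ∑ p, b p with hβ1
  refine ⟨β1 + (⌊x none - β1⌋ : ℤ), ?_, ?_⟩
  · intro q hq hqm
    have : Fact q.Prime := ⟨hq⟩
    refine (padicNorm.nonarchimedean).trans (max_le ?_ (padicNorm.of_int _))
    refine padicNorm.sum_le' (fun p _ => hb2 p q hq ?_) zero_le_one
    rintro rfl
    exact hqm (Nat.dvd_of_mem_primeFactors p.2)
  · intro i
    rcases i with _ | p
    · show |x none - (β1 + (⌊x none - β1⌋ : ℤ))| ≤ 1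
      have h1 := Int.floor_le (x none - β1)
      have h2 := Int.lt_floor_add_one (x none - β1)
      rw [abs_le]
      constructor <;> linarith
    · have hp : p.1.Prime := Nat.prime_of_mem_primeFactors p.2
      have hpf : Fact p.1.Prime := ⟨hp⟩
      show padicNorm p.1 (x (some p) - (β1 + (⌊x none - β1⌋ : ℤ))) ≤ 1
      have h1 : x (some p) - (β1 + (⌊x none - β1⌋ : ℤ)) =
          (x (some p) - b p) + (-(∑ r ∈ Finset.univ.erase p, b r) + ((-⌊x none - β1⌋ : ℤ) : ℚ)) := by
        rw [hβ1, ← Finset.add_sum_erase Finset.univ b (Finset.mem_univ p)]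
        push_cast
        ring
      rw [h1]
      refine (padicNorm.nonarchimedean).trans (max_le (hb1 p)
        ((padicNorm.nonarchimedean).trans (max_le ?_ (padicNorm.of_int _))))
      rw [padicNorm.neg]
      refine padicNorm.sum_le' (fun r hr => hb2 r p.1 hp ?_) zero_le_one
      intro h2
      exact (Finset.mem_erase.1 hr).1 (Subtype.ext h2.symm)

end QD
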