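import Pool.Agent.Helper24.QD.Stmts

set_option autoImplicit false

/-! Finiteness: elements of `ℤ[1/m]` bounded at all places. -/

namespace QD

theorem ntb_int_of (x : ℚ) (h : ∀ p : ℕ, p.Prime → padicNorm p x ≤ 1) : ∃ z : ℤ, x = z := by
  by_cases hd : x.den = 1
  · exact ⟨x.num, ((Rat.den_eq_one_iff x).1 hd).symm⟩
  · exfalso
    obtain ⟨p, hp, hpd⟩ := Nat.exists_prime_and_dvd hd
    have : Fact p.Prime := ⟨hp⟩
    have h1 := h p hp
    have hnum : ¬ (p : ℤ) ∣ x.num := by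
      intro h2
      have h3 : p ∣ x.num.natAbs := Int.natCast_dvd.1 h2
      have h4 := Nat.dvd_gcd h3 hpd
      rw [x.reduced] at h4
      exact hp.one_lt.ne' (Nat.dvd_one.1 h4)
    have h5 : padicNorm p (x.num : ℚ) = 1 := (padicNorm.int_eq_one_iff _).2 hnum
    have h6 : padicNorm p (x.den : ℚ) < 1 := (padicNorm.nat_lt_one_iff _).2 hpd
    have h7 : padicNorm p x * padicNorm p (x.den : ℚ) = 1 := by
      rw [← padicNorm.mul, Rat.mul_den_eq_num, h5]
    have h8 : 0 ≤ padicNorm p (x.den : ℚ) := padicNorm.nonneg _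
    have h9 : 0 ≤ padicNorm p x := padicNorm.nonneg _
    nlinarith

theorem st_NTB : ST_NTB := by
  intro m R hm
  have hm0 : (m : ℚ) ≠ 0 := by exact_mod_cast hm.ne'
  have key : ∀ β : ℚ, β ∈ Bm m → (∀ i, av m i β ≤ R) → ∃ z : ℤ, (m : ℚ) ^ R * β = z := by
    intro β hβ hav
    apply ntb_int_of
    intro p hp
    have : Fact p.Prime := ⟨hp⟩
    have hpow : padicNorm p ((m : ℚ) ^ R) = padicNorm p (m : ℚ) ^ R :=
      map_pow (padicAV p) (m : ℚ) R
    rw [padicNorm.mul, hpow]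
    by_cases hpm : p ∣ m
    · have h1 : av m (some ⟨p, Nat.mem_primeFactors.2 ⟨hp, hpm, hm.ne'⟩⟩) β ≤ R := hav _
      have h2 : padicNorm p β ≤ R := h1
      have h3 : padicNorm p (m : ℚ) ≤ 1 / 2 := by
        have h4 : ((p ^ 1 : ℕ) : ℤ) ∣ (m : ℤ) := by rw [pow_one]; exact_mod_cast hpm
        have h5 := padicNorm.dvd_iff_norm_le.1 h4
        have h6 : padicNorm p (m : ℚ) ≤ (p : ℚ) ^ (-(1 : ℕ) : ℤ) := by simpa using h5
        refine h6.trans ?_
        have h7 : (2 : ℚ) ≤ p := by exact_mod_cast hp.two_le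
        rw [zpow_neg]
        simp only [Nat.cast_one, zpow_one]
        rw [one_div]
        exact inv_anti₀ (by norm_num) h7
      have h8 : padicNorm p (m : ℚ) ^ R ≤ (1 / 2) ^ R :=
        pow_le_pow_left₀ (padicNorm.nonneg _) h3 R
      have h9 : (R : ℚ) ≤ 2 ^ R := by exact_mod_cast (Nat.lt_two_pow_self).le
      calc padicNorm p (m : ℚ) ^ R * padicNorm p β ≤ (1 / 2) ^ R * 2 ^ R :=
            mul_le_mul h8 (h2.trans h9) (padicNorm.nonneg _) (by positivity)
        _ = 1 := by rw [← mul_pow]; norm_num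
    · have h1 := hβ p hp hpm
      have h2 : padicNorm p (m : ℚ) ≤ 1 := by exact_mod_cast padicNorm.of_nat m
      exact mul_le_one₀ (pow_le_one₀ (padicNorm.nonneg _) h2) (padicNorm.nonneg _) h1
  refine Set.Finite.subset ((Finset.Icc (-((m : ℤ) ^ R * R)) ((m : ℤ) ^ R * R)).finite_toSet.image
    (fun z : ℤ => (z : ℚ) / (m : ℚ) ^ R)) ?_
  rintro β ⟨hβ, hav⟩
  obtain ⟨z, hz⟩ := key β hβ hav
  refine ⟨z, ?_, ?_⟩
  · have h1 : |β| ≤ R := hav none
    have hmp : (0 : ℚ) < (m : ℚ) ^ R := by positivity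
    have h2 : |(z : ℚ)| ≤ (m : ℚ) ^ R * R := by
      rw [← hz, abs_mul, abs_of_pos hmp]
      exact mul_le_mul_of_nonneg_left h1 hmp.le
    have h3 := abs_le.1 h2
    rw [Finset.mem_coe, Finset.mem_Icc]
    constructor
    · exact_mod_cast h3.1
    · exact_mod_cast h3.2
  · show (z : ℚ) / (m : ℚ) ^ R = β
    rw [← hz]
    field_simp

end QD
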