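import Pool.Agent.Helper24.QD.Stmts

set_option autoImplicit false

namespace QD

theorem ntc_frac {m n d : ℕ} (h : ∀ p : ℕ, p.Prime → p ∣ d → p ∣ m) :
    ((n : ℚ) / (d : ℚ)) ∈ Bm m := by
  intro p hp hpm
  have : Fact p.Prime := ⟨hp⟩
  rw [padicNorm.div]
  have h1 := padicNorm.of_nat (p := p) n
  have h2 : padicNorm p (d : ℚ) = 1 := (padicNorm.nat_eq_one_iff d).2 fun h3 => hpm (h p hp h3)
  rw [h2, div_one]
  exact h1

/-- the unit `n / d` -/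
theorem ntc_unit {m n d : ℕ} (hn : n ≠ 0) (hd : d ≠ 0) (h1 : ∀ p : ℕ, p.Prime → p ∣ d → p ∣ m)
    (h2 : ∀ p : ℕ, p.Prime → p ∣ n → p ∣ m) : ∃ α : ℚˣ, (α : ℚ) = n / d ∧ (α : ℚ) ∈ Bm m ∧
      ((α⁻¹ : ℚˣ) : ℚ) ∈ Bm m := by
  have hn' : (n : ℚ) ≠ 0 := by exact_mod_cast hn
  have hd' : (d : ℚ) ≠ 0 := by exact_mod_cast hd
  refine ⟨Units.mk0 ((n : ℚ) / d) (div_ne_zero hn' hd'), rfl, ntc_frac h1, ?_⟩
  have h3 : (((Units.mk0 ((n : ℚ) / d) (div_ne_zero hn' hd'))⁻¹ : ℚˣ) : ℚ) = d / n := by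
    rw [Units.val_inv_eq_inv_val, Units.val_mk0, inv_div]
  rw [h3]
  exact ntc_frac h2

/-- the mixed case -/
theorem ntc_mix {m : ℕ} (h6 : 6 ∣ m) (p : {p : ℕ // p ∈ m.primeFactors}) :
    ∃ α : ℚˣ, (α : ℚ) ∈ Bm m ∧ ((α⁻¹ : ℚˣ) : ℚ) ∈ Bm m ∧ 1 < av m none α ∧
      1 < av m (some p) α := by
  have hp : p.1.Prime := Nat.prime_of_mem_primeFactors p.2
  have hpm : p.1 ∣ m := Nat.dvd_of_mem_primeFactors p.2
  have hF : Fact p.1.Prime := ⟨hp⟩
  obtain ⟨q, hq, hqm, hqp⟩ : ∃ q : ℕ, q.Prime ∧ q ∣ m ∧ ¬ p.1 ∣ q := by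
    by_cases h : p.1 = 2
    · exact ⟨3, Nat.prime_three, (by norm_num : 3 ∣ 6).trans h6, by rw [h]; norm_num⟩
    · exact ⟨2, Nat.prime_two, (by norm_num : 2 ∣ 6).trans h6, fun h2 =>
        h ((Nat.prime_dvd_prime_iff_eq hp Nat.prime_two).1 h2)⟩
  obtain ⟨α, h1, h2, h3⟩ := ntc_unit (m := m) (n := q ^ p.1) (d := p.1)
    (pow_ne_zero _ hq.ne_zero) hp.ne_zero
    (fun r hr hrd => (Nat.prime_dvd_prime_iff_eq hr hp).1 hrd ▸ hpm)
    (fun r hr hrd => (Nat.prime_dvd_prime_iff_eq hr hq).1 (hr.dvd_of_dvd_pow hrd) ▸ hqm)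
  refine ⟨α, h2, h3, ?_, ?_⟩
  · show 1 < |(α : ℚ)|
    rw [h1]
    have h4 : (p.1 : ℚ) < ((q ^ p.1 : ℕ) : ℚ) := by exact_mod_cast Nat.lt_pow_self hq.one_lt
    have h5 : (0 : ℚ) < p.1 := by exact_mod_cast hp.pos
    rw [abs_of_pos (div_pos (h5.trans h4) h5), one_lt_div h5]
    exact h4
  · show 1 < padicNorm p.1 (α : ℚ)
    rw [h1, padicNorm.div, padicNorm.padicNorm_p_of_prime]
    have h4 : padicNorm p.1 ((q ^ p.1 : ℕ) : ℚ) = 1 :=
      (padicNorm.nat_eq_one_iff _).2 fun h => hqp (hp.dvd_of_dvd_pow h)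
    rw [h4, one_div, inv_inv]
    exact_mod_cast hp.one_lt

theorem st_NTC : ST_NTC := by
  intro m hm h6 i j
  rcases i with _ | p <;> rcases j with _ | q
  · obtain ⟨α, h1, h2, h3⟩ := ntc_unit (m := m) (n := 2) (d := 1) two_ne_zero one_ne_zero
      (fun r hr hrd => absurd (Nat.dvd_one.1 hrd) hr.one_lt.ne')
      (fun r hr hrd => (Nat.prime_dvd_prime_iff_eq hr Nat.prime_two).1 hrd ▸
        (by norm_num : 2 ∣ 6).trans h6)
    have h4 : 1 < av m none (α : ℚ) := by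
      show 1 < |(α : ℚ)|
      rw [h1]; norm_num
    exact ⟨α, h2, h3, h4, h4⟩
  · exact ntc_mix h6 q
  · obtain ⟨α, h1, h2, h3, h4⟩ := ntc_mix h6 p
    exact ⟨α, h1, h2, h4, h3⟩
  · have hp : p.1.Prime := Nat.prime_of_mem_primeFactors p.2
    have hpm : p.1 ∣ m := Nat.dvd_of_mem_primeFactors p.2
    have hq : q.1.Prime := Nat.prime_of_mem_primeFactors q.2
    have hqm : q.1 ∣ m := Nat.dvd_of_mem_primeFactors q.2
    obtain ⟨α, h1, h2, h3⟩ := ntc_unit (m := m) (n := 1) (d := p.1 * q.1) one_ne_zero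
      (mul_ne_zero hp.ne_zero hq.ne_zero)
      (fun r hr hrd => by
        rcases (Nat.Prime.dvd_mul hr).1 hrd with h | h
        · exact (Nat.prime_dvd_prime_iff_eq hr hp).1 h ▸ hpm
        · exact (Nat.prime_dvd_prime_iff_eq hr hq).1 h ▸ hqm)
      (fun r hr hrd => absurd (Nat.dvd_one.1 hrd) hr.one_lt.ne')
    have key : ∀ a b : ℕ, a.Prime → b.Prime → (α : ℚ) = 1 / ((a : ℚ) * b) →
        1 < padicNorm a (α : ℚ) := by
      intro a b ha hb hab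
      have hF : Fact a.Prime := ⟨ha⟩
      rw [hab, padicNorm.div, padicNorm.mul, padicNorm.padicNorm_p_of_prime, padicNorm.one]
      have h5 := padicNorm.of_nat (p := a) b
      have h6 : 0 < padicNorm a (b : ℚ) := lt_of_le_of_ne (padicNorm.nonneg _)
        (Ne.symm (padicNorm.nonzero (by exact_mod_cast hb.ne_zero)))
      have h7 : (1 : ℚ) < a := by exact_mod_cast ha.one_lt
      have h8 : (0 : ℚ) < (a : ℚ)⁻¹ := by positivity
      rw [one_lt_div (mul_pos h8 h6)]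
      have h9 : (a : ℚ)⁻¹ < 1 := inv_lt_one_of_one_lt₀ h7
      nlinarith
    refine ⟨α, h2, h3, ?_, ?_⟩
    · show 1 < padicNorm p.1 (α : ℚ)
      exact key _ _ hp hq (by rw [h1]; push_cast; ring)
    · show 1 < padicNorm q.1 (α : ℚ)
      exact key _ _ hq hp (by rw [h1]; push_cast; ring)

theorem st_DEN : ST_DEN := by
  intro F hF
  refine ⟨6 * ∏ x ∈ hF.toFinset, x.den, ?_, Dvd.intro _ rfl, ?_⟩
  · apply Nat.mul_pos (by norm_num)
    exact Finset.prod_pos fun x _ => x.den_pos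
  · intro x hx p hp hpm
    have : Fact p.Prime := ⟨hp⟩
    have h1 : ¬ p ∣ x.den := fun h => hpm (Dvd.dvd.mul_left
      (h.trans (Finset.dvd_prod_of_mem _ (hF.mem_toFinset.2 hx))) 6)
    rw [← Rat.num_div_den x, padicNorm.div, (padicNorm.nat_eq_one_iff _).2 h1, div_one]
    exact padicNorm.of_int _

end QD
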