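import Pool.Agent.Helper24.QD.Stmts

set_option autoImplicit false

namespace QD

open scoped Classical

/-! ### Areas -/

theorem AreaLe.one {α : Type} (R : Set (FreeGroup α)) : AreaLe R 0 1 :=
  ⟨[], le_refl _, by simp, by simp⟩

theorem AreaLe.mono {α : Type} {R : Set (FreeGroup α)} {m m' : ℕ} {w : FreeGroup α}
    (h : AreaLe R m w) (hm : m ≤ m') : AreaLe R m' w := by
  obtain ⟨l, h1, h2, h3⟩ := h
  exact ⟨l, h1.trans hm, h2, h3⟩

theorem AreaLe.mul {α : Type} {R : Set (FreeGroup α)} {m m' : ℕ} {w w' : FreeGroup α}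
    (h : AreaLe R m w) (h' : AreaLe R m' w') : AreaLe R (m + m') (w * w') := by
  obtain ⟨l, h1, h2, h3⟩ := h
  obtain ⟨l', h1', h2', h3'⟩ := h'
  refine ⟨l ++ l', by rw [List.length_append]; omega, ?_, ?_⟩
  · intro p hp
    rcases List.mem_append.1 hp with hp | hp
    · exact h2 p hp
    · exact h2' p hp
  · rw [List.map_append, List.prod_append, ← h3, ← h3']

theorem AreaLe.of_mem {α : Type} {R : Set (FreeGroup α)} {w : FreeGroup α} (h : w ∈ R) :
    AreaLe R 1 w :=
  ⟨[(1, w)], by simp, by simp [h], by simp⟩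

theorem AreaLe.conj {α : Type} {R : Set (FreeGroup α)} {m : ℕ} {w : FreeGroup α}
    (h : AreaLe R m w) (g : FreeGroup α) : AreaLe R m (g * w * g⁻¹) := by
  obtain ⟨l, h1, h2, h3⟩ := h
  refine ⟨l.map (fun p => (g * p.1, p.2)), by rw [List.length_map]; exact h1, ?_, ?_⟩
  · intro p hp
    obtain ⟨q, hq, rfl⟩ := List.mem_map.1 hp
    exact h2 q hq
  · rw [h3, List.map_map]
    clear h1 h2 h3
    induction l with
    | nil => simp
    | cons a t ih =>
      rw [List.map_cons, List.prod_cons, List.map_cons, List.prod_cons, ← ih]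
      simp only [Function.comp]
      group

theorem AreaLe.inv {α : Type} {R : Set (FreeGroup α)} {m : ℕ} {w : FreeGroup α}
    (h : AreaLe R m w) : AreaLe R m w⁻¹ := by
  obtain ⟨l, h1, h2, h3⟩ := h
  refine ⟨(l.map (fun p => (p.1, p.2⁻¹))).reverse, by
    rw [List.length_reverse, List.length_map]; exact h1, ?_, ?_⟩
  · intro p hp
    obtain ⟨q, hq, rfl⟩ := List.mem_map.1 (List.mem_reverse.1 hp)
    rcases h2 q hq with h | h
    · right; rwa [inv_inv]
    · left; exact h
  · rw [h3, List.map_reverse, List.prod_inv_reverse, List.map_map, List.map_map]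
    congr 2
    apply List.map_congr_left
    intro a _
    simp only [Function.comp]
    group

theorem AreaLe.map {α β : Type} {R : Set (FreeGroup α)} {R' : Set (FreeGroup β)} {m : ℕ}
    {w : FreeGroup α} (ψ : FreeGroup α →* FreeGroup β) (hψ : ∀ r ∈ R, ψ r ∈ R')
    (h : AreaLe R m w) : AreaLe R' m (ψ w) := by
  obtain ⟨l, h1, h2, h3⟩ := h
  refine ⟨l.map (fun p => (ψ p.1, ψ p.2)), by rw [List.length_map]; exact h1, ?_, ?_⟩
  · intro p hp
    obtain ⟨q, hq, rfl⟩ := List.mem_map.1 hp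
    rcases h2 q hq with h | h
    · left; exact hψ _ h
    · right
      show (ψ q.2)⁻¹ ∈ R'
      rw [← map_inv]; exact hψ _ h
  · rw [h3, map_list_prod, List.map_map, List.map_map]
    congr 1
    apply List.map_congr_left
    intro a _
    simp only [Function.comp, map_mul, map_inv]

theorem AreaLe.mem {α : Type} {R : Set (FreeGroup α)} {m : ℕ} {w : FreeGroup α}
    (h : AreaLe R m w) : w ∈ Subgroup.normalClosure R := by
  obtain ⟨l, h1, h2, h3⟩ := h
  rw [h3]
  apply Subgroup.list_prod_mem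
  intro x hx
  obtain ⟨q, hq, rfl⟩ := List.mem_map.1 hx
  have hn : (Subgroup.normalClosure R).Normal := Subgroup.normalClosure_normal
  apply hn.conj_mem
  rcases h2 q hq with h | h
  · exact Subgroup.subset_normalClosure h
  · rw [← inv_inv q.2]
    exact Subgroup.inv_mem _ (Subgroup.subset_normalClosure h)

theorem AreaLe.tr {α : Type} {R : Set (FreeGroup α)} {m m' : ℕ} {u v w : FreeGroup α}
    (h : AreaLe R m (u * v⁻¹)) (h' : AreaLe R m' (v * w⁻¹)) : AreaLe R (m + m') (u * w⁻¹) := by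
  have h1 := h.mul h'
  have h2 : u * v⁻¹ * (v * w⁻¹) = u * w⁻¹ := by group
  rwa [h2] at h1

/-! ### Norms -/

theorem pr_norm_prod_le {α : Type} [DecidableEq α] (l : List (FreeGroup α))
    (h : ∀ x ∈ l, x.norm ≤ 1) : l.prod.norm ≤ l.length := by
  induction l with
  | nil => simp
  | cons a t ih =>
    rw [List.prod_cons, List.length_cons]
    have h1 := h a (by simp)
    have h2 := ih (fun x hx => h x (by simp [hx]))
    have h3 := FreeGroup.norm_mul_le a t.prod
    omega

theorem pr_norm_lift_le {α β : Type} [DecidableEq α] [DecidableEq β] (f : α → FreeGroup β)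
    (hf : ∀ i, (f i).norm ≤ 1) (u : FreeGroup α) : (FreeGroup.lift f u).norm ≤ u.norm := by
  have h1 : u = FreeGroup.mk u.toWord := (FreeGroup.mk_toWord).symm
  have h2 : u.norm = u.toWord.length := rfl
  rw [h2]
  conv_lhs => rw [h1]
  rw [FreeGroup.lift_mk]
  refine (pr_norm_prod_le _ ?_).trans (by rw [List.length_map])
  intro x hx
  obtain ⟨p, _, rfl⟩ := List.mem_map.1 hx
  rcases p with ⟨i, b⟩
  cases b
  · show ((f i)⁻¹).norm ≤ 1
    rw [FreeGroup.norm_inv_eq]; exact hf i
  · exact hf i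

theorem pr_norm_finite (K N : ℕ) : {u : FreeGroup (Fin K) | u.norm ≤ N}.Finite := by
  have h := (List.finite_length_le (Fin K × Bool) N).image FreeGroup.mk
  apply h.subset
  intro u hu
  exact ⟨u.toWord, hu, FreeGroup.mk_toWord⟩

/-! ### Words -/

section words
variable {G : Type} [Group G] {S : Set G} {K : ℕ}

/-- The letter of the free group belonging to an element of `S`. -/
noncomputable def pfl (e : Fin K ≃ S) (g : G) : FreeGroup (Fin K) :=
  if h : g ∈ S then FreeGroup.of (e.symm ⟨g, h⟩) else 1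

/-- The word of the free group. -/
noncomputable def pfw (e : Fin K ≃ S) (w : List G) : FreeGroup (Fin K) := (w.map (pfl e)).prod

/-- The evaluation. -/
def pev (e : Fin K ≃ S) : FreeGroup (Fin K) →* G := FreeGroup.lift (fun i => (e i : G))

/-- The null words of bounded length. -/
def pRS (e : Fin K ≃ S) (N : ℕ) : Set (FreeGroup (Fin K)) := {u | u.norm ≤ N ∧ pev e u = 1}

theorem pr_ev_fl (e : Fin K ≃ S) {g : G} (hg : g ∈ S) : pev e (pfl e g) = g := by
  rw [pfl, dif_pos hg, pev, FreeGroup.lift_apply_of, Equiv.apply_symm_apply]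

omit [Group G] in
theorem pr_norm_fl (e : Fin K ≃ S) (g : G) : (pfl e g).norm ≤ 1 := by
  rw [pfl]
  split_ifs with h
  · rw [FreeGroup.norm_of]
  · rw [FreeGroup.norm_one]; omega

omit [Group G] in
theorem pr_norm_fw (e : Fin K ≃ S) (w : List G) : (pfw e w).norm ≤ w.length := by
  rw [pfw]
  refine (pr_norm_prod_le _ ?_).trans (by rw [List.length_map])
  intro x hx
  obtain ⟨g, _, rfl⟩ := List.mem_map.1 hx
  exact pr_norm_fl e g

theorem pr_ev_fw (e : Fin K ≃ S) {w : List G} (hw : ∀ g ∈ w, g ∈ S) : pev e (pfw e w) = w.prod := by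
  rw [pfw, map_list_prod, List.map_map]
  congr 1
  conv_rhs => rw [← List.map_id w]
  apply List.map_congr_left
  intro g hg
  exact pr_ev_fl e (hw g hg)

omit [Group G] in
theorem pr_fw_append (e : Fin K ≃ S) (a b : List G) : pfw e (a ++ b) = pfw e a * pfw e b := by
  rw [pfw, List.map_append, List.prod_append]; rfl

omit [Group G] in
theorem pr_fw_cons (e : Fin K ≃ S) (g : G) (w : List G) : pfw e (g :: w) = pfl e g * pfw e w := by
  rw [pfw, List.map_cons, List.prod_cons]; rfl

theorem pr_area_two (e : Fin K ≃ S) {N : ℕ} (hN : 2 ≤ N) {g : G} (hg : g ∈ S)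
    {u : FreeGroup (Fin K)} (hu : u.norm ≤ 1) (hug : pev e u = g) :
    AreaLe (pRS e N) 1 (u * (pfl e g)⁻¹) := by
  apply AreaLe.of_mem
  constructor
  · have h1 := FreeGroup.norm_mul_le u (pfl e g)⁻¹
    rw [FreeGroup.norm_inv_eq] at h1
    have h2 := pr_norm_fl e g
    omega
  · rw [map_mul, map_inv, pr_ev_fl e hg, hug, mul_inv_cancel]

theorem pr_step_area (e : Fin K ≃ S) {c N : ℕ} (hN : 2 * c ≤ N) {w w' : List G}
    (h : Step S c w w') : AreaLe (pRS e N) 1 (pfw e w * (pfw e w')⁻¹) := by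
  obtain ⟨a, x, y, d, rfl, rfl, hp, hx, hy, hxS, hyS⟩ := h
  have h1 : pfw e (a ++ (x ++ d)) * (pfw e (a ++ (y ++ d)))⁻¹ =
      pfw e a * (pfw e x * (pfw e y)⁻¹) * (pfw e a)⁻¹ := by
    rw [pr_fw_append, pr_fw_append, pr_fw_append, pr_fw_append]; group
  rw [h1]
  apply AreaLe.conj
  apply AreaLe.of_mem
  constructor
  · have h2 := FreeGroup.norm_mul_le (pfw e x) (pfw e y)⁻¹
    rw [FreeGroup.norm_inv_eq] at h2
    have h3 := pr_norm_fw e x
    have h4 := pr_norm_fw e y
    omega
  · rw [map_mul, map_inv, pr_ev_fw e hxS, pr_ev_fw e hyS, hp, mul_inv_cancel]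

theorem pr_ar_area (e : Fin K ≃ S) {c N : ℕ} (hN : 2 * c ≤ N) {k : ℕ} {w w' : List G}
    (h : Ar S c k w w') : AreaLe (pRS e N) k (pfw e w * (pfw e w')⁻¹) := by
  induction h with
  | refl k w =>
    rw [mul_inv_cancel]
    exact (AreaLe.one _).mono (Nat.zero_le _)
  | step h1 _ ih =>
    have h2 := (pr_step_area e hN h1).tr ih
    exact h2.mono (by omega)

theorem pr_step_prod {c : ℕ} {w w' : List G} (h : Step S c w w') : w.prod = w'.prod := by
  obtain ⟨a, x, y, d, rfl, rfl, hp, -⟩ := h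
  simp [List.prod_append, hp]

theorem pr_ar_prod {c k : ℕ} {w w' : List G} (h : Ar S c k w w') : w.prod = w'.prod := by
  induction h with
  | refl k w => rfl
  | step h1 _ ih => exact (pr_step_prod h1).trans ih

/-- The letters of an element of the free group. -/
def plt (e : Fin K ≃ S) (p : Fin K × Bool) : G := cond p.2 (e p.1 : G) (e p.1 : G)⁻¹

theorem pr_lt_mem (hinv : ∀ s ∈ S, s⁻¹ ∈ S) (e : Fin K ≃ S) (p : Fin K × Bool) : plt e p ∈ S := by
  rcases p with ⟨i, b⟩
  cases b
  · exact hinv _ (e i).2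
  · exact (e i).2

theorem pr_word_area (hinv : ∀ s ∈ S, s⁻¹ ∈ S) (e : Fin K ≃ S) {N : ℕ} (hN : 2 ≤ N)
    (L : List (Fin K × Bool)) :
    AreaLe (pRS e N) L.length (FreeGroup.mk L * (pfw e (L.map (plt e)))⁻¹) := by
  induction L with
  | nil =>
    have : FreeGroup.mk ([] : List (Fin K × Bool)) = 1 := rfl
    rw [this, List.map_nil, pfw, List.map_nil, List.prod_nil, mul_inv_cancel]
    exact AreaLe.one _
  | cons p L ih =>
    have h1 : FreeGroup.mk (p :: L) = FreeGroup.mk [p] * FreeGroup.mk L := by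
      rw [FreeGroup.mul_mk]; rfl
    have h2 : FreeGroup.mk (p :: L) * (pfw e ((p :: L).map (plt e)))⁻¹ =
        (FreeGroup.mk [p] * (FreeGroup.mk L * (pfw e (L.map (plt e)))⁻¹) * (FreeGroup.mk [p])⁻¹) *
          (FreeGroup.mk [p] * (pfl e (plt e p))⁻¹) := by
      rw [h1, List.map_cons, pr_fw_cons]; group
    rw [h2, List.length_cons]
    refine (ih.conj _).mul (pr_area_two e hN (pr_lt_mem hinv e p) ?_ ?_)
    · have := FreeGroup.norm_mk_le (L₁ := [p])
      simpa using this
    · rw [pev, FreeGroup.lift_mk]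
      simp [plt]

/-- The subwords in the generators of the presented group. -/
theorem pr_sub_area {k : ℕ} (hinv : ∀ s ∈ S, s⁻¹ ∈ S) (e : Fin K ≃ S) {N : ℕ} (hN : 2 ≤ N)
    (f : Fin k → G) (hf : ∀ i, f i ∈ S) (w : List G) (hw : ∀ g ∈ w, ∃ i, g = f i ∨ g = (f i)⁻¹) :
    ∃ u : FreeGroup (Fin k), u.norm ≤ w.length ∧ FreeGroup.lift f u = w.prod ∧
      AreaLe (pRS e N) w.length (FreeGroup.lift (fun i => pfl e (f i)) u * (pfw e w)⁻¹) := by
  induction w with
  | nil =>
    refine ⟨1, by simp, by simp, ?_⟩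
    rw [map_one, pfw, List.map_nil, List.prod_nil, mul_inv_cancel]
    exact AreaLe.one _
  | cons g w ih =>
    obtain ⟨u, h1, h2, h3⟩ := ih (fun x hx => hw x (by simp [hx]))
    obtain ⟨i, hi⟩ := hw g (by simp)
    obtain ⟨a, ha1, ha2, ha3, ha4⟩ : ∃ a : FreeGroup (Fin k), a.norm ≤ 1 ∧
        FreeGroup.lift f a = g ∧ (FreeGroup.lift (fun i => pfl e (f i)) a).norm ≤ 1 ∧
        pev e (FreeGroup.lift (fun i => pfl e (f i)) a) = g := by
      rcases hi with hi | hi
      · refine ⟨FreeGroup.of i, by rw [FreeGroup.norm_of], ?_, ?_, ?_⟩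
        · rw [FreeGroup.lift_apply_of, hi]
        · rw [FreeGroup.lift_apply_of]; exact pr_norm_fl e _
        · rw [FreeGroup.lift_apply_of, pr_ev_fl e (hf i), hi]
      · refine ⟨(FreeGroup.of i)⁻¹, by rw [FreeGroup.norm_inv_eq, FreeGroup.norm_of], ?_, ?_, ?_⟩
        · rw [map_inv, FreeGroup.lift_apply_of, hi]
        · rw [map_inv, FreeGroup.lift_apply_of, FreeGroup.norm_inv_eq]; exact pr_norm_fl e _
        · rw [map_inv, map_inv, FreeGroup.lift_apply_of, pr_ev_fl e (hf i), hi]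
    have hgS : g ∈ S := by
      rcases hi with hi | hi
      · rw [hi]; exact hf i
      · rw [hi]; exact hinv _ (hf i)
    refine ⟨a * u, ?_, ?_, ?_⟩
    · have := FreeGroup.norm_mul_le a u
      rw [List.length_cons]; omega
    · rw [map_mul, ha2, h2, List.prod_cons]
    · have h4 : FreeGroup.lift (fun i => pfl e (f i)) (a * u) * (pfw e (g :: w))⁻¹ =
          (FreeGroup.lift (fun i => pfl e (f i)) a *
            (FreeGroup.lift (fun i => pfl e (f i)) u * (pfw e w)⁻¹) *
            (FreeGroup.lift (fun i => pfl e (f i)) a)⁻¹) *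
          (FreeGroup.lift (fun i => pfl e (f i)) a * (pfl e g)⁻¹) := by
        rw [map_mul, pr_fw_cons]; group
      rw [h4, List.length_cons]
      exact (h3.conj _).mul (pr_area_two e hN hgS ha3 ha4)

end words

theorem pres_arith (n C D : ℕ) (m : ℕ) (hm : m ≤ C * n + C) :
    n + (C * n ^ 2 + C) + m + (D * m ^ 2 + D) ≤
      (1 + 4 * C + 4 * D * C ^ 2 + D) * n ^ 2 + (1 + 4 * C + 4 * D * C ^ 2 + D) := by
  have h1 : n ≤ n ^ 2 := by nlinarith [Nat.zero_le n, sq_nonneg (n : ℤ)]
  have h2 : m ^ 2 ≤ C ^ 2 * (4 * n ^ 2 + 4) := by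
    calc m ^ 2 ≤ (C * n + C) ^ 2 := Nat.pow_le_pow_left hm 2
      _ = C ^ 2 * (n ^ 2 + 2 * n + 1) := by ring
      _ ≤ C ^ 2 * (4 * n ^ 2 + 4) := Nat.mul_le_mul_left _ (by omega)
  have h3 : D * m ^ 2 ≤ D * (C ^ 2 * (4 * n ^ 2 + 4)) := Nat.mul_le_mul_left _ h2
  have h4 : C * n ≤ C * n ^ 2 := Nat.mul_le_mul_left _ h1
  have h5 : 0 ≤ D * n ^ 2 := Nat.zero_le _
  have h6 : D * (C ^ 2 * (4 * n ^ 2 + 4)) = 4 * D * C ^ 2 * n ^ 2 + 4 * D * C ^ 2 := by ring
  have h7 : (1 + 4 * C + 4 * D * C ^ 2 + D) * n ^ 2 =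
      n ^ 2 + 4 * (C * n ^ 2) + 4 * D * C ^ 2 * n ^ 2 + D * n ^ 2 := by ring
  omega

theorem st_PRES : ST_PRES := by
  intro G _ S hS hinv hgen k rels hQ j hj hjS hRed
  obtain ⟨K, ⟨e'⟩⟩ : ∃ K : ℕ, Nonempty (S ≃ Fin K) := by
    have : Finite S := hS
    exact Finite.exists_equiv_fin S
  set e : Fin K ≃ S := e'.symm with he
  obtain ⟨c, C, hC⟩ := hRed
  obtain ⟨D, hD⟩ := hQ
  set f : Fin k → G := fun i => j (PresentedGroup.of i) with hf
  set N : ℕ := 2 * c + 2 + rels.sup FreeGroup.norm with hN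
  have hJ : ∀ u : FreeGroup (Fin k), FreeGroup.lift f u =
      j (PresentedGroup.mk (rels : Set (FreeGroup (Fin k))) u) := by
    intro u
    have : FreeGroup.lift f = j.comp
        (PresentedGroup.mk (rels : Set (FreeGroup (Fin k)))) := by
      ext i
      simp [hf, PresentedGroup.of]
    rw [this]; rfl
  have hev : ∀ u : FreeGroup (Fin k), pev e (FreeGroup.lift (fun i => pfl e (f i)) u) =
      FreeGroup.lift f u := by
    intro u
    have : (pev e).comp (FreeGroup.lift (fun i => pfl e (f i))) = FreeGroup.lift f := by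
      ext i
      simp only [MonoidHom.comp_apply, FreeGroup.lift_apply_of]
      exact pr_ev_fl e (hjS i)
    rw [← this]; rfl
  have hmain : ∀ u : FreeGroup (Fin K), pev e u = 1 →
      AreaLe (pRS e N) ((1 + 4 * C + 4 * D * C ^ 2 + D) * u.norm ^ 2 +
        (1 + 4 * C + 4 * D * C ^ 2 + D)) u := by
    intro u hu
    have hmk : FreeGroup.mk u.toWord = u := FreeGroup.mk_toWord
    set w : List G := u.toWord.map (plt e) with hw
    have hwS : ∀ g ∈ w, g ∈ S := by
      intro g hg
      obtain ⟨p, _, rfl⟩ := List.mem_map.1 hg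
      exact pr_lt_mem hinv e p
    have hwp : w.prod = 1 := by
      rw [← hu]
      conv_rhs => rw [← hmk]
      rw [pev, FreeGroup.lift_mk]
      rfl
    have hwl : w.length = u.norm := by rw [hw, List.length_map]; rfl
    obtain ⟨w₀, hw1, hw2, hw3⟩ := hC w hwS hwp
    have hw0 : w₀.prod = 1 := (pr_ar_prod hw3).symm.trans hwp
    obtain ⟨u₀, h1, h2, h3⟩ := pr_sub_area (N := N) hinv e (by omega) f hjS w₀ hw1
    have hu0 : u₀ ∈ Subgroup.normalClosure (rels : Set (FreeGroup (Fin k))) := by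
      have h4 : j (PresentedGroup.mk (rels : Set (FreeGroup (Fin k))) u₀) = 1 := by
        rw [← hJ, h2, hw0]
      have h5 := hj (h4.trans (map_one j).symm)
      exact (QuotientGroup.eq_one_iff u₀).1 h5
    have h4 := hD u₀ hu0
    have h5 : AreaLe (pRS e N) (D * u₀.norm ^ 2 + D)
        (FreeGroup.lift (fun i => pfl e (f i)) u₀) := by
      refine h4.map _ ?_
      intro r hr
      constructor
      · refine (pr_norm_lift_le _ (fun i => pr_norm_fl e _) r).trans ?_
        have := Finset.le_sup (f := FreeGroup.norm) (Finset.mem_coe.1 hr)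
        omega
      · rw [hev, hJ]
        have h9 : PresentedGroup.mk (rels : Set (FreeGroup (Fin k))) r = 1 :=
          (QuotientGroup.eq_one_iff r).2 (Subgroup.subset_normalClosure hr)
        rw [h9]
        exact map_one j
    have h6 := pr_word_area (N := N) hinv e (by omega) u.toWord
    rw [hmk] at h6
    have h7 := pr_ar_area (N := N) e (by omega) hw3
    have h8 : AreaLe (pRS e N) w₀.length
        (pfw e w₀ * (FreeGroup.lift (fun i => pfl e (f i)) u₀)⁻¹) := by
      have := h3.inv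
      rwa [mul_inv_rev, inv_inv] at this
    have h9 : AreaLe (pRS e N) (D * u₀.norm ^ 2 + D)
        (FreeGroup.lift (fun i => pfl e (f i)) u₀ * (1 : FreeGroup (Fin K))⁻¹) := by
      rw [inv_one, mul_one]; exact h5
    have h10 := ((h6.tr h7).tr h8).tr h9
    rw [inv_one, mul_one] at h10
    refine h10.mono ?_
    have hn : u.toWord.length = u.norm := rfl
    rw [hn, hwl]
    rw [hwl] at hw2
    have h11 : D * u₀.norm ^ 2 ≤ D * w₀.length ^ 2 :=
      Nat.mul_le_mul_left _ (Nat.pow_le_pow_left h1 2)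
    have h12 := pres_arith u.norm C D w₀.length hw2
    omega
  have hfin : (pRS e N).Finite := (pr_norm_finite K N).subset fun u hu => hu.1
  have hker : Subgroup.normalClosure (pRS e N) = (pev e).ker := by
    apply le_antisymm
    · apply Subgroup.normalClosure_le_normal
      intro u hu
      exact hu.2
    · intro u hu
      exact (hmain u hu).mem
  refine ⟨K, hfin.toFinset, ⟨1 + 4 * C + 4 * D * C ^ 2 + D, fun u hu => ?_⟩, ?_⟩
  · rw [Set.Finite.coe_toFinset] at hu ⊢
    rw [hker] at hu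
    exact hmain u hu
  · have hsurj : Function.Surjective (pev e) := by
      intro g
      obtain ⟨w, hw1, hw2⟩ := hgen g (Set.mem_univ g)
      exact ⟨pfw e w, (pr_ev_fw e hw1).trans hw2⟩
    have h1 : G ≃* FreeGroup (Fin K) ⧸ (pev e).ker :=
      (QuotientGroup.quotientKerEquivOfSurjective (pev e) hsurj).symm
    have h2 : FreeGroup (Fin K) ⧸ (pev e).ker ≃*
        FreeGroup (Fin K) ⧸ Subgroup.normalClosure
          ((hfin.toFinset : Finset (FreeGroup (Fin K))) : Set (FreeGroup (Fin K))) :=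
      QuotientGroup.quotientMulEquivOfEq (by rw [Set.Finite.coe_toFinset, hker])
    exact ⟨h1.trans h2⟩

end QD
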