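import Pool.Agent.Helper24.QD.ArB

set_option autoImplicit false

/-! Ray words. -/

namespace QD

theorem st_R1 : ST_R1 := by
  intro G _ S E c g x n m hc hg hg' hE hE1 hx
  induction m with
  | zero => exact Ar.refl _ _
  | succ m ih =>
    have hx' : ∀ k, g⁻¹ ^ (n + k) * x * g ^ (n + k) ∈ E := by
      intro k
      induction k with
      | zero => exact hx
      | succ k ihk =>
        have := hE1 _ ihk
        have h2 : g⁻¹ * (g⁻¹ ^ (n + k) * x * g ^ (n + k)) * g =
            g⁻¹ ^ (n + (k + 1)) * x * g ^ (n + (k + 1)) := by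
          rw [← add_assoc, pow_succ' g⁻¹, pow_succ g]; simp only [mul_assoc]
        rwa [h2] at this
    have h1 : Ar S c 1 [g⁻¹ ^ (n + m) * x * g ^ (n + m)]
        [g, g⁻¹ ^ (n + (m + 1)) * x * g ^ (n + (m + 1)), g⁻¹] := by
      apply Ar.whole
      · rw [← add_assoc, pow_succ' g⁻¹, pow_succ g]; simp [mul_assoc]
      · simp; omega
      · simpa using hc
      · intro y hy; simp only [List.mem_singleton] at hy; subst hy; exact hE (hx' m)
      · intro y hy
        simp only [List.mem_cons, List.not_mem_nil, or_false] at hy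
        rcases hy with rfl | rfl | rfl
        · exact hg
        · exact hE (hx' (m + 1))
        · exact hg'
    have h2 := h1.congr (List.replicate (n + m) g) (List.replicate (n + m) g⁻¹)
    have h3 : ray g (n + (m + 1)) x = List.replicate (n + m) g ++
        [g, g⁻¹ ^ (n + (m + 1)) * x * g ^ (n + (m + 1)), g⁻¹] ++
        List.replicate (n + m) g⁻¹ := by
      unfold ray
      rw [← add_assoc, List.replicate_succ', List.replicate_succ (a := g⁻¹)]
      simp
    rw [h3]
    refine ih.trans (l := 1) ?_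
    convert h2 using 1
    simp [ray]

theorem Ar.repl_comm {G : Type} [Group G] {S : Set G} {c : ℕ} (hc : 2 ≤ c) (g h : G)
    (hg : g ∈ S) (hh : h ∈ S) (hgh : g * h = h * g) (n m : ℕ) :
    Ar S c (n * m) (List.replicate n g ++ List.replicate m h)
      (List.replicate m h ++ List.replicate n g) := by
  have := Ar.comm_lists (S := S) hc (List.replicate n g) (List.replicate m h)
    (fun x hx => by rw [List.eq_of_mem_replicate hx]; exact hg)
    (fun x hx => by rw [List.eq_of_mem_replicate hx]; exact hh)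
    (fun x hx y hy => by
      rw [List.eq_of_mem_replicate hx, List.eq_of_mem_replicate hy]; exact hgh)
  simpa using this

/-- nested rays -/
theorem ray_nest {G : Type} [Group G] {S E : Set G} {c : ℕ} (hc : 3 ≤ c) (g h x : G) (n m : ℕ)
    (hh : h ∈ S) (hh' : h⁻¹ ∈ S) (hE : E ⊆ S) (hEh : ∀ y ∈ E, h⁻¹ * y * h ∈ E)
    (hx : g⁻¹ ^ n * x * g ^ n ∈ E) :
    Ar S c m (ray g n x) (List.replicate n g ++ (List.replicate m h ++
      (h⁻¹ ^ m * (g⁻¹ ^ n * x * g ^ n) * h ^ m) :: List.replicate m h⁻¹) ++
      List.replicate n g⁻¹) := by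
  have h1 := st_R1 G S E c h (g⁻¹ ^ n * x * g ^ n) 0 m hc hh hh' hE hEh (by simpa using hx)
  simp only [Nat.zero_add] at h1
  have h2 := h1.congr (List.replicate n g) (List.replicate n g⁻¹)
  convert h2 using 1 <;> simp [ray]

theorem st_R2 : ST_R2 := by
  intro G _ S E c g h x n m hc hg hg' hh hh' hE hEg hEh hgh hx hy
  have hc2 : 2 ≤ c := by omega
  have h1 := ray_nest hc g h x n m hh hh' hE hEh hx
  have h2 := (ray_nest hc h g x m n hg hg' hE hEg hy).symm
  have hgh' : Commute g h := hgh
  have hz : h⁻¹ ^ m * (g⁻¹ ^ n * x * g ^ n) * h ^ m = g⁻¹ ^ n * (h⁻¹ ^ m * x * h ^ m) * g ^ n := by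
    have e1 : h⁻¹ ^ m * g⁻¹ ^ n = g⁻¹ ^ n * h⁻¹ ^ m :=
      ((hgh'.symm.inv_inv).pow_pow m n).eq
    have e2 : g ^ n * h ^ m = h ^ m * g ^ n := (hgh'.pow_pow n m).eq
    calc h⁻¹ ^ m * (g⁻¹ ^ n * x * g ^ n) * h ^ m
        = (h⁻¹ ^ m * g⁻¹ ^ n) * x * (g ^ n * h ^ m) := by simp only [mul_assoc]
      _ = (g⁻¹ ^ n * h⁻¹ ^ m) * x * (h ^ m * g ^ n) := by rw [e1, e2]
      _ = _ := by simp only [mul_assoc]
  rw [hz] at h1
  set z := g⁻¹ ^ n * (h⁻¹ ^ m * x * h ^ m) * g ^ n with hzdef
  have h3 := (Ar.repl_comm (S := S) hc2 g h hg hh hgh n m).right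
    (z :: (List.replicate m h⁻¹ ++ List.replicate n g⁻¹))
  have h4 := (Ar.repl_comm (S := S) hc2 h⁻¹ g⁻¹ hh' hg' (hgh'.symm.inv_inv).eq m n).left
    (List.replicate m h ++ List.replicate n g ++ [z])
  have h5 := ((h1.trans (w'' := List.replicate m h ++ List.replicate n g ++
    (z :: (List.replicate m h⁻¹ ++ List.replicate n g⁻¹))) (l := n * m)
    (by convert h3 using 1; simp)).trans (l := m * n)
    (w'' := List.replicate m h ++ List.replicate n g ++ [z] ++
      (List.replicate n g⁻¹ ++ List.replicate m h⁻¹)) (by convert h4 using 1; simp)).trans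
    (l := n) (w'' := ray h m x) (by convert h2 using 1; simp)
  refine h5.mono_k ?_
  nlinarith

theorem st_R3 : ST_R3 := by
  intro G _ S E c k0 g x y n hc hg hg' hE hmul hx hy
  have hc2 : 2 ≤ c := by omega
  set x' := g⁻¹ ^ n * x * g ^ n with hx'
  set y' := g⁻¹ ^ n * y * g ^ n with hy'
  have h1 := (Ar.cancel_inv (S := S) hc2 g hg hg' n).congr (List.replicate n g ++ [x'])
    (y' :: List.replicate n g⁻¹)
  have h2 : Ar S c 1 [x', y'] (List.replicate k0 g ++
      (g⁻¹ ^ k0 * (x' * y') * g ^ k0) :: List.replicate k0 g⁻¹) := by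
    apply Ar.whole
    · simp [List.prod_replicate, mul_assoc]
    · simp; omega
    · simp; omega
    · intro u hu; simp only [List.mem_cons, List.not_mem_nil, or_false] at hu
      rcases hu with rfl | rfl
      · exact hE hx
      · exact hE hy
    · intro u hu
      simp only [List.mem_append, List.mem_cons] at hu
      rcases hu with hu | rfl | hu
      · rw [List.eq_of_mem_replicate hu]; exact hg
      · exact hE (hmul _ hx _ hy)
      · rw [List.eq_of_mem_replicate hu]; exact hg'
  have h3 := h2.congr (List.replicate n g) (List.replicate n g⁻¹)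
  have h4 := h1.trans (l := 1) (w'' := ray g (n + k0) (x * y)) (by
    convert h3 using 1
    · simp
    · have e : g⁻¹ ^ (n + k0) * (x * y) * g ^ (n + k0) = g⁻¹ ^ k0 * (x' * y') * g ^ k0 := by
        rw [hx', hy', add_comm n k0, pow_add, pow_add]
        have : g⁻¹ ^ k0 * g⁻¹ ^ n * (x * y) * (g ^ k0 * g ^ n) =
          g⁻¹ ^ k0 * g⁻¹ ^ n * x * (g ^ n * g⁻¹ ^ n) * y * (g ^ k0 * g ^ n) := by
          simp [mul_assoc]
        rw [this, ← pow_add g k0 n, add_comm k0 n, pow_add]
        simp only [mul_assoc]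
      unfold ray
      rw [e, List.replicate_add, add_comm n k0, List.replicate_add (a := g⁻¹)]
      simp only [List.append_assoc, List.cons_append])
  convert h4 using 1
  simp [ray, hx', hy']

theorem st_R4 : ST_R4 := by
  intro G _ S E E' c g x y n hc hg hg' hE hE' hxy hx hy
  set x' := g⁻¹ ^ n * x * g ^ n with hx'
  set y' := g⁻¹ ^ n * y * g ^ n with hy'
  have hxy' : x' * y' = y' * x' := by
    have e1 : x' * y' = g⁻¹ ^ n * (x * y) * g ^ n := by
      rw [hx', hy']; simp [mul_assoc]
    have e2 : y' * x' = g⁻¹ ^ n * (y * x) * g ^ n := by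
      rw [hx', hy']; simp [mul_assoc]
    rw [e1, e2, hxy]
  have h1 := (Ar.cancel_inv (S := S) hc g hg hg' n).congr (List.replicate n g ++ [x'])
    (y' :: List.replicate n g⁻¹)
  have h2 : Ar S c 1 [x', y'] [y', x'] := by
    apply Ar.whole
    · simpa using hxy'
    · simpa using hc
    · simpa using hc
    · intro u hu; simp only [List.mem_cons, List.not_mem_nil, or_false] at hu
      rcases hu with rfl | rfl
      · exact hE hx
      · exact hE' hy
    · intro u hu; simp only [List.mem_cons, List.not_mem_nil, or_false] at hu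
      rcases hu with rfl | rfl
      · exact hE' hy
      · exact hE hx
  have h3 := h2.congr (List.replicate n g) (List.replicate n g⁻¹)
  have h4 := ((Ar.cancel_inv (S := S) hc g hg hg' n).congr (List.replicate n g ++ [y'])
    (x' :: List.replicate n g⁻¹)).symm
  have h5 := (h1.trans (l := 1) (w'' := List.replicate n g ++ [y', x'] ++ List.replicate n g⁻¹)
    (by convert h3 using 1; simp)).trans (l := n) (w'' := ray g n y ++ ray g n x) (by
      convert h4 using 1
      · simp
      · simp [ray, hx', hy'])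
  have h6 : Ar S c (n + 1 + n) (ray g n x ++ ray g n y) (ray g n y ++ ray g n x) := by
    convert h5 using 1
    simp [ray, hx', hy']
  exact h6.mono_k (by omega)

theorem st_R5 : ST_R5 := by
  intro G _ S E c k0 g t x n hc hg hg' ht hE hgt hE1 hx
  have hc2 : 2 ≤ c := by omega
  set x' := g⁻¹ ^ n * x * g ^ n with hx'
  have hgt' : Commute g t := hgt
  have h1 := (Ar.comm_letter (S := S) hc2 t ht (List.replicate n g)
    (fun u hu => by rw [List.eq_of_mem_replicate hu]; exact hg)
    (fun u hu => by rw [List.eq_of_mem_replicate hu]; exact hgt.symm)).right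
    (x' :: List.replicate n g⁻¹)
  have h2 : Ar S c 1 [t, x'] ((List.replicate k0 g ++
      (g⁻¹ ^ k0 * (t * x' * t⁻¹) * g ^ k0) :: List.replicate k0 g⁻¹) ++ [t]) := by
    apply Ar.whole
    · simp [List.prod_replicate, mul_assoc]
    · simp; omega
    · simp; omega
    · intro u hu; simp only [List.mem_cons, List.not_mem_nil, or_false] at hu
      rcases hu with rfl | rfl
      · exact ht
      · exact hE hx
    · intro u hu
      simp only [List.mem_append, List.mem_cons, List.not_mem_nil, or_false] at hu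
      rcases hu with (hu | rfl | hu) | rfl
      · rw [List.eq_of_mem_replicate hu]; exact hg
      · exact hE (hE1 _ hx)
      · rw [List.eq_of_mem_replicate hu]; exact hg'
      · exact ht
  have h3 := h2.congr (List.replicate n g) (List.replicate n g⁻¹)
  have h4 := (Ar.comm_letter (S := S) hc2 t ht (List.replicate n g⁻¹)
    (fun u hu => by rw [List.eq_of_mem_replicate hu]; exact hg')
    (fun u hu => by rw [List.eq_of_mem_replicate hu]; exact hgt'.symm.inv_right.eq)).left
    (List.replicate n g ++ (List.replicate k0 g ++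
      (g⁻¹ ^ k0 * (t * x' * t⁻¹) * g ^ k0) :: List.replicate k0 g⁻¹))
  have e : g⁻¹ ^ (n + k0) * (t * x * t⁻¹) * g ^ (n + k0) =
      g⁻¹ ^ k0 * (t * x' * t⁻¹) * g ^ k0 := by
    have e1 : g⁻¹ ^ n * t = t * g⁻¹ ^ n := (hgt'.inv_left.pow_left n).eq
    have e2 : t⁻¹ * g ^ n = g ^ n * t⁻¹ := (hgt'.inv_right.pow_left n).eq.symm
    rw [hx', add_comm n k0, pow_add, pow_add]
    calc g⁻¹ ^ k0 * g⁻¹ ^ n * (t * x * t⁻¹) * (g ^ k0 * g ^ n)
        = g⁻¹ ^ k0 * (g⁻¹ ^ n * t) * x * t⁻¹ * (g ^ k0 * g ^ n) := by simp only [mul_assoc]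
      _ = g⁻¹ ^ k0 * (t * g⁻¹ ^ n) * x * t⁻¹ * (g ^ n * g ^ k0) := by
          rw [e1, ← pow_add g k0, add_comm k0, pow_add]
      _ = g⁻¹ ^ k0 * t * g⁻¹ ^ n * x * (t⁻¹ * g ^ n) * g ^ k0 := by simp only [mul_assoc]
      _ = _ := by rw [e2]; simp only [mul_assoc]
  have h5 := (h1.trans (l := 1) (w'' := List.replicate n g ++ ((List.replicate k0 g ++
      (g⁻¹ ^ k0 * (t * x' * t⁻¹) * g ^ k0) :: List.replicate k0 g⁻¹) ++ [t]) ++
      List.replicate n g⁻¹) (by convert h3 using 1; simp)).trans
      (l := n) (w'' := ray g (n + k0) (t * x * t⁻¹) ++ [t]) (by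
      convert h4 using 1
      · simp
      · simp only [List.append_assoc, List.cons_append, List.nil_append]
      · unfold ray
        rw [e, List.replicate_add, add_comm n k0, List.replicate_add (a := g⁻¹)]
        simp only [List.append_assoc, List.cons_append])
  have h6 : Ar S c (n + 1 + n) (t :: ray g n x) (ray g (n + k0) (t * x * t⁻¹) ++ [t]) := by
    convert h5 using 1
    · simp
    · rw [hx']; simp [ray]
  exact h6.mono_k (by omega)

theorem st_R6 : ST_R6 := by
  intro G _ S c g n hc hg hg' h1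
  have h2 : Ar S c 1 [(1 : G)] [] := by
    apply Ar.whole
    · simp
    · simp; omega
    · simp
    · intro u hu; simp only [List.mem_singleton] at hu; subst hu; exact h1
    · simp
  have h3 := h2.congr (List.replicate n g) (List.replicate n g⁻¹)
  have h4 := h3.trans (l := n) (w'' := []) (by
    simpa using Ar.cancel (S := S) hc g hg hg' n)
  have h5 : Ar S c (1 + n) (ray g n 1) [] := by
    convert h4 using 1
    simp [ray]
  exact h5.mono_k (by omega)

end QD
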