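import Pool.Agent.Helper24.QD.Stmts

set_option autoImplicit false

/-! Row SCAL: restriction of scalars. -/

namespace QD

theorem st_SCAL : ST_SCAL := by
  intro K _ _ n
  let β := Module.finBasis ℚ K
  let d := Module.finrank ℚ K
  let F₀ : K →ₐ[ℚ] Matrix (Fin d) (Fin d) ℚ := Algebra.leftMulMatrix β
  have hF : Function.Injective F₀ := Algebra.leftMulMatrix_injective β
  let Φ : Matrix (Fin n) (Fin n) K →+* Matrix (Fin n × Fin d) (Fin n × Fin d) ℚ :=
    (Matrix.compRingEquiv (Fin n) (Fin d) ℚ).toRingHom.comp (F₀.toRingHom.mapMatrix)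
  have hΦ : ∀ (g : Matrix (Fin n) (Fin n) K) x y s t, Φ g (x, s) (y, t) = F₀ (g x y) s t := by
    intro g x y s t
    rfl
  refine ⟨d, Units.map (Φ : Matrix (Fin n) (Fin n) K →* _), F₀.toRingHom.toAddMonoidHom, ?_, ?_⟩
  · apply Units.map_injective
    intro g h hgh
    ext x y
    apply hF
    ext s t
    have h1 := congrFun (congrFun hgh (x, s)) (y, t)
    exact h1
  · intro g x y s t
    rfl

end QD
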