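import Pool.Agent.Helper24.QD.Stmts

set_option autoImplicit false

/-!
Second set of statements: virtually solvable groups (Mal'cev), products, virtually free groups,
diagonal blocks.
-/

namespace QD

/-- scalar operators -/
def IsScal {F V : Type} [Field F] [AddCommGroup V] [Module F V] (T : Module.End F V) : Prop :=
  ∃ c : F, ∀ v, T v = c • v

/-- WTS: finitely many simultaneous eigenvalue functions. -/
def ST_WTS : Prop := ∀ (F V ι : Type) [Field F] [AddCommGroup V] [Module F V]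
  [FiniteDimensional F V] (f : ι → Module.End F V),
  {χ : ι → F | ∃ v : V, v ≠ 0 ∧ ∀ i, f i v = χ i • v}.Finite

/-- CEV: commuting operators have a common eigenvector. -/
def ST_CEV : Prop := ∀ (F V : Type) [Field F] [IsAlgClosed F] [AddCommGroup V] [Module F V]
  [FiniteDimensional F V] [Nontrivial V] (S : Set (Module.End F V)),
  (∀ f ∈ S, ∀ g ∈ S, f * g = g * f) → ∃ v : V, v ≠ 0 ∧ ∀ f ∈ S, ∃ c : F, f v = c • v

/-- STEP: in a representation all of whose restrictions to finite index subgroups are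
irreducible, a normal subgroup with scalar commutators is scalar. -/
def ST_STEP : Prop := ∀ (F V G : Type) [Field F] [IsAlgClosed F] [AddCommGroup V] [Module F V]
  [FiniteDimensional F V] [Nontrivial V] [Group G] (ρ : G →* Module.End F V),
  (∀ (G₁ : Subgroup G) (U : Submodule F V), G₁.FiniteIndex → U ≠ ⊥ →
    (∀ g ∈ G₁, ∀ u ∈ U, ρ g u ∈ U) → U = ⊤) →
  ∀ B : Subgroup G, B.Normal → (∀ x ∈ B, ∀ y ∈ B, IsScal (ρ (x * y * x⁻¹ * y⁻¹))) →
    ∀ x ∈ B, IsScal (ρ x)

/-- EIG: a solvable group has a finite index subgroup with an eigenvector. -/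
def ST_EIG : Prop := ∀ (F V G : Type) [Field F] [IsAlgClosed F] [AddCommGroup V] [Module F V]
  [FiniteDimensional F V] [Nontrivial V] [Group G] (ρ : G →* Module.End F V), Group.IsSolvable G →
  ∃ (G₀ : Subgroup G) (v : V), G₀.FiniteIndex ∧ v ≠ 0 ∧ ∀ g ∈ G₀, ∃ c : F, ρ g v = c • v

/-- FLG: an invariant flag with virtually commutative layers. -/
def ST_FLG : Prop := ∀ (F V G : Type) [Field F] [IsAlgClosed F] [AddCommGroup V] [Module F V]
  [FiniteDimensional F V] [Group G] (ρ : G →* Module.End F V) (G₁ : Subgroup G),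
  G₁.FiniteIndex → Group.IsSolvable G₁ →
  ∃ (N : Subgroup G) (n : ℕ) (β : Module.Basis (Fin n) F V) (b : Fin n → ℕ), N.FiniteIndex ∧
    (∀ g x y, b y < b x → β.repr (ρ g (β y)) x = 0) ∧
    (∀ g ∈ N, ∀ h ∈ N, ∀ x y, b x = b y →
      β.repr (ρ (g * h) (β y)) x = β.repr (ρ (h * g) (β y)) x)

/-- The statement for virtually abelian block diagonal parts over the field `K`. -/
def VabForm (K : Type) [Field K] : Prop := ∀ (n : ℕ) (b : Fin n → ℕ)
  (H : Subgroup (GL (Fin n) K)), H.FG → (∀ g ∈ H, ∀ x y, b y < b x → g.1 x y = 0) →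
  ∀ H₀ : Subgroup H, H₀.FiniteIndex →
  (∀ g ∈ H₀, ∀ h ∈ H₀, ∀ x y, b x = b y → (g * h).1.1 x y = (h * g).1.1 x y) → EmbQD H

/-- The lifting form over the field `K`. -/
def LiftForm (K : Type) [Field K] : Prop := ∀ (n : ℕ) (b : Fin n → ℕ)
  (H : Subgroup (GL (Fin n) K)), H.FG → (∀ g ∈ H, ∀ x y, b y < b x → g.1 x y = 0) →
  ∀ (L : Type) [Group L], QuadDehn L → ∀ (lam : H →* L) (th : L →* GL (Fin n) K),
  (∀ l x y, b x ≠ b y → (th l).1 x y = 0) →
  (∀ (h : H) x y, b x = b y → (th (lam h)).1 x y = h.1.1 x y) → EmbQD H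

/-- SOLV: virtually solvable groups. -/
def ST_SOLV : Prop := ∀ (K : Type) [Field K],
  (∀ (K' : Type) [Field K'] [Algebra K K'] [FiniteDimensional K K'], VabForm K') →
  ∀ (n : ℕ) (H : Subgroup (GL (Fin n) K)), H.FG →
    (∃ H₁ : Subgroup H, H₁.FiniteIndex ∧ Group.IsSolvable H₁) → EmbQD H

/-- PROD -/
def ST_PROD : Prop := ∀ (L₁ L₂ : Type) [Group L₁] [Group L₂], QuadDehn L₁ → QuadDehn L₂ →
  QuadDehn (L₁ × L₂)

/-- PI -/
def ST_PI : Prop := ∀ (r : ℕ) (L : Fin r → Type) [∀ i, Group (L i)], (∀ i, QuadDehn (L i)) →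
  QuadDehn (∀ i, L i)

/-- VFREE: finitely generated virtually free groups. -/
def ST_VFREE : Prop := ∀ (L : Type) [Group L], Group.FG L → ∀ A : Subgroup L, A.FiniteIndex →
  IsFreeGroup A → QuadDehn L

/-- BLK: if all diagonal block groups have quadratic Dehn function. -/
def ST_BLK : Prop := ∀ (K : Type) [Field K], LiftForm K →
  ∀ (n : ℕ) (b : Fin n → ℕ) (H : Subgroup (GL (Fin n) K)), H.FG →
  (∀ g ∈ H, ∀ x y, b y < b x → g.1 x y = 0) →
  (∀ k : ℕ, ∃ D : H →* GL {x : Fin n // b x = k} K,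
    (∀ h x y, (D h).1 x y = h.1.1 x.1 y.1) ∧ QuadDehn D.range) → EmbQD H

end QD
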