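import Pool.Agent.Helper24.QD.Stmts

set_option autoImplicit false

/-!
Row TRF: transfer of a quadratic reduction to a subgroup `Γ` with `G = Γ O`.
-/

namespace QD

section ar
variable {G : Type} [Group G] {S : Set G} {c : ℕ}

theorem trf_step_left {w w' : List G} (a : List G) (h : Step S c w w') :
    Step S c (a ++ w) (a ++ w') := by
  obtain ⟨b, x, y, d, h1, h2, h3⟩ := h
  exact ⟨a ++ b, x, y, d, by rw [h1, List.append_assoc], by rw [h2, List.append_assoc], h3⟩

theorem trf_left {k : ℕ} {w w' : List G} (a : List G) (h : Ar S c k w w') :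
    Ar S c k (a ++ w) (a ++ w') := by
  induction h with
  | refl k w => exact Ar.refl k _
  | step h1 _ ih => exact Ar.step (trf_step_left a h1) ih

theorem trf_mono_k {k k' : ℕ} {w w' : List G} (h : Ar S c k w w') (hk : k ≤ k') :
    Ar S c k' w w' := by
  induction h generalizing k' with
  | refl k w => exact Ar.refl k' _
  | step h1 _ ih =>
    obtain ⟨j, rfl⟩ : ∃ j, k' = j + 1 := ⟨k' - 1, by omega⟩
    exact Ar.step h1 (ih (by omega))

theorem trf_mono_c {c' k : ℕ} {w w' : List G} (h : Ar S c k w w') (hc : c ≤ c') :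
    Ar S c' k w w' := by
  induction h with
  | refl k w => exact Ar.refl k _
  | step h1 _ ih =>
    obtain ⟨b, x, y, d, h1, h2, h3, h4, h5, h6⟩ := h1
    exact Ar.step ⟨b, x, y, d, h1, h2, h3, h4.trans hc, h5.trans hc, h6⟩ ih

theorem trf_trans {k l : ℕ} {w w' w'' : List G} (h : Ar S c k w w') (h' : Ar S c l w' w'') :
    Ar S c (k + l) w w'' := by
  induction h with
  | refl k w => exact trf_mono_k h' (by omega)
  | @step k w w1 w2 h1 _ ih =>
    have := Ar.step h1 (ih h')
    rwa [show k + 1 + l = k + l + 1 by omega]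

end ar

section tr
variable {G : Type} [Group G] (Γ : Subgroup G) (O : Set G)

open Classical in
/-- the projection to `Γ` -/
noncomputable def tpi (g : G) : Γ :=
  if h : g ∈ Γ then ⟨g, h⟩
  else if h : ∃ γ : Γ, ∃ o ∈ O, g = γ * o then h.choose else 1

theorem tpi_mem {g : G} (h : g ∈ Γ) : tpi Γ O g = ⟨g, h⟩ := by
  unfold tpi
  rw [dif_pos h]

theorem tpi_spec (h1 : (1 : G) ∈ O) {g : G} (h : ∃ γ ∈ Γ, ∃ o ∈ O, g = γ * o) :
    ∃ o ∈ O, g = (tpi Γ O g : G) * o := by
  by_cases hg : g ∈ Γ
  · refine ⟨1, h1, ?_⟩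
    rw [tpi_mem Γ O hg, mul_one]
  · obtain ⟨γ, hγ, o, ho, e⟩ := h
    have h2 : ∃ γ : Γ, ∃ o ∈ O, g = γ * o := ⟨⟨γ, hγ⟩, o, ho, e⟩
    unfold tpi
    rw [dif_neg hg, dif_pos h2]
    exact h2.choose_spec

/-- the word of the increments of the projection -/
noncomputable def piw : G → List G → List Γ
  | _, [] => []
  | p, s :: w => (tpi Γ O p)⁻¹ * tpi Γ O (p * s) :: piw (p * s) w

theorem piw_cons (p s : G) (w : List G) : piw Γ O p (s :: w) =
    ((tpi Γ O p)⁻¹ * tpi Γ O (p * s)) :: piw Γ O (p * s) w := rfl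

theorem piw_append (a b : List G) : ∀ p : G,
    piw Γ O p (a ++ b) = piw Γ O p a ++ piw Γ O (p * a.prod) b := by
  induction a with
  | nil =>
    intro p
    rw [List.nil_append, List.prod_nil, mul_one]
    rfl
  | cons s a ih =>
    intro p
    rw [List.cons_append, List.prod_cons, piw_cons, piw_cons, ih, List.cons_append, mul_assoc]

theorem piw_length (w : List G) : ∀ p : G, (piw Γ O p w).length = w.length := by
  induction w with
  | nil => intro p; rfl
  | cons s w ih =>
    intro p
    unfold piw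
    rw [List.length_cons, List.length_cons, ih]

theorem piw_prod (w : List G) : ∀ p : G,
    (piw Γ O p w).prod = (tpi Γ O p)⁻¹ * tpi Γ O (p * w.prod) := by
  induction w with
  | nil =>
    intro p
    rw [List.prod_nil, mul_one, inv_mul_cancel]
    rfl
  | cons s w ih =>
    intro p
    unfold piw
    rw [List.prod_cons, ih, List.prod_cons, ← mul_assoc p s]
    group

variable {S : Set G} (h1 : (1 : G) ∈ O)
  (hdec : ∀ w : List G, (∀ g ∈ w, g ∈ S) → ∃ γ ∈ Γ, ∃ o ∈ O, w.prod = γ * o)
include h1 hdec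

theorem piw_mem (w : List G) (hw : ∀ g ∈ w, g ∈ S) : ∀ u : List G, (∀ g ∈ u, g ∈ S) →
    ∀ g ∈ piw Γ O u.prod w, ∃ o ∈ O, ∃ s ∈ S, ∃ o' ∈ O, (g : G) = o * s * o'⁻¹ := by
  induction w with
  | nil =>
    intro u _ g hg
    exact absurd hg (by unfold piw; simp)
  | cons s w ih =>
    intro u hu g hg
    have hs : s ∈ S := hw s (by simp)
    have hus : ∀ g ∈ u ++ [s], g ∈ S := by
      intro g hg
      rcases List.mem_append.1 hg with h | h
      · exact hu g h
      · rw [List.mem_singleton.1 h]
        exact hs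
    have e1 : (u ++ [s]).prod = u.prod * s := by
      rw [List.prod_append, List.prod_singleton]
    unfold piw at hg
    rcases List.mem_cons.1 hg with h | h
    · obtain ⟨o, ho, e⟩ := tpi_spec Γ O h1 (hdec u hu)
      obtain ⟨o', ho', e'⟩ := tpi_spec Γ O h1 (hdec (u ++ [s]) hus)
      rw [e1] at e'
      refine ⟨o, ho, s, hs, o', ho', ?_⟩
      rw [h, Subgroup.coe_mul, Subgroup.coe_inv]
      have e2 : (tpi Γ O u.prod : G) = u.prod * o⁻¹ := by
        rw [eq_mul_inv_iff_mul_eq]
        exact e.symm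
      have e3 : (tpi Γ O (u.prod * s) : G) = u.prod * s * o'⁻¹ := by
        rw [eq_mul_inv_iff_mul_eq]
        exact e'.symm
      rw [e2, e3]
      group
    · rw [← e1] at h
      exact ih (fun g hg => hw g (List.mem_cons_of_mem s hg)) (u ++ [s]) hus g h

/-- moves are transferred -/
theorem piw_ar {S' : Set Γ} (hS' : S' = {γ : Γ | ∃ o ∈ O, ∃ s ∈ S, ∃ o' ∈ O,
    (γ : G) = o * s * o'⁻¹}) {c k : ℕ} {w w' : List G} (h : Ar S c k w w')
    (hw : ∀ g ∈ w, g ∈ S) {u : List G} (hu : ∀ g ∈ u, g ∈ S) :
    Ar S' c k (piw Γ O u.prod w) (piw Γ O u.prod w') := by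
  induction h with
  | refl k w => exact Ar.refl k _
  | step h2 _ ih =>
    obtain ⟨a, x, y, d, e1, e2, e3, e4, e5, e6, e7⟩ := h2
    have ha : ∀ g ∈ a, g ∈ S := fun g hg => hw g (by rw [e1]; simp [hg])
    have hd : ∀ g ∈ d, g ∈ S := fun g hg => hw g (by rw [e1]; simp [hg])
    have hua : ∀ g ∈ u ++ a, g ∈ S := by
      intro g hg
      rcases List.mem_append.1 hg with h | h
      · exact hu g h
      · exact ha g h
    have hua' : (u ++ a).prod = u.prod * a.prod := List.prod_append
    refine Ar.step ⟨piw Γ O u.prod a, piw Γ O (u.prod * a.prod) x,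
      piw Γ O (u.prod * a.prod) y, piw Γ O (u.prod * a.prod * x.prod) d, ?_, ?_, ?_, ?_, ?_, ?_,
      ?_⟩ (ih ?_)
    · rw [e1, piw_append, piw_append]
    · rw [e2, piw_append, piw_append, e3]
    · rw [piw_prod, piw_prod, e3]
    · rw [piw_length]
      exact e4
    · rw [piw_length]
      exact e5
    · intro g hg
      rw [hS']
      rw [← hua'] at hg
      exact piw_mem Γ O h1 hdec x e6 (u ++ a) hua g hg
    · intro g hg
      rw [hS']
      rw [← hua'] at hg
      exact piw_mem Γ O h1 hdec y e7 (u ++ a) hua g hg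
    · intro g hg
      rw [e2] at hg
      simp only [List.mem_append] at hg
      rcases hg with h | h | h
      · exact ha g h
      · exact e7 g h
      · exact hd g h

end tr

theorem st_TRF : ST_TRF := by
  intro G _ Γ O S S₀ m h1 hsym hdec hO hgen hS₀ hS₀Γ hred S' hS'
  -- short words for the letters
  have hB : ∀ g : Γ, g ∈ S' → ∃ w : List G, w.length ≤ 2 * m + 1 ∧ (∀ g ∈ w, g ∈ S) ∧
      w.prod = (g : G) := by
    intro g hg
    rw [hS'] at hg
    obtain ⟨o, ho, s, hs, o', ho', e⟩ := hg
    obtain ⟨w, hw1, hw2, hw3⟩ := hO o ho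
    obtain ⟨w', hw1', hw2', hw3'⟩ := hO o' ho'
    refine ⟨w ++ s :: (w'.map fun x => x⁻¹).reverse, ?_, ?_, ?_⟩
    · rw [List.length_append, List.length_cons, List.length_reverse, List.length_map]
      omega
    · intro g hg
      simp only [List.mem_append, List.mem_cons, List.mem_reverse, List.mem_map] at hg
      rcases hg with h | h | ⟨x, hx, h⟩
      · exact hw2 g h
      · rw [h]
        exact hs
      · rw [← h]
        exact hsym x (hw2' x hx)
    · rw [List.prod_append, List.prod_cons, ← List.prod_inv_reverse, hw3, hw3', e, mul_assoc]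
  classical
  let B : Γ → List G := fun g => if h : g ∈ S' then (hB g h).choose else []
  have hB1 : ∀ g ∈ S', (B g).length ≤ 2 * m + 1 ∧ (∀ x ∈ B g, x ∈ S) ∧ (B g).prod = (g : G) := by
    intro g hg
    have : B g = (hB g hg).choose := dif_pos hg
    rw [this]
    exact (hB g hg).choose_spec
  refine ⟨?_, ?_, ?_⟩
  · -- inverses
    intro γ hγ
    rw [hS'] at hγ ⊢
    obtain ⟨o, ho, s, hs, o', ho', e⟩ := hγ
    refine ⟨o', ho', s⁻¹, hsym s hs, o, ho, ?_⟩
    rw [Subgroup.coe_inv, e]
    group
  · -- generation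
    intro γ _
    obtain ⟨W, hW, hWp⟩ := hgen γ γ.2
    refine ⟨piw Γ O 1 W, ?_, ?_⟩
    · intro g hg
      rw [hS']
      exact piw_mem Γ O h1 hdec W hW [] (by simp) g hg
    · rw [piw_prod, one_mul, hWp, tpi_mem Γ O Γ.one_mem, tpi_mem Γ O γ.2]
      ext
      simp
  -- reduction
  obtain ⟨c, C, hc⟩ := hred
  refine ⟨max c (2 * m + 1), C * (2 * m + 1) ^ 2 + C + 1, ?_⟩
  intro w hw hwp
  set W : List G := (w.map B).flatten with hWdef
  have hWS : ∀ g ∈ W, g ∈ S := by
    intro g hg
    rw [hWdef, List.mem_flatten] at hg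
    obtain ⟨l, hl, hgl⟩ := hg
    rw [List.mem_map] at hl
    obtain ⟨x, hx, rfl⟩ := hl
    exact (hB1 x (hw x hx)).2.1 g hgl
  have hlen : ∀ v : List Γ, (∀ g ∈ v, g ∈ S') → (v.map B).flatten.length ≤ (2 * m + 1) * v.length := by
    intro v
    induction v with
    | nil => intro _; simp
    | cons g v ih =>
      intro hv
      rw [List.map_cons, List.flatten_cons, List.length_append, List.length_cons]
      have a1 := (hB1 g (hv g (by simp))).1
      have a2 := ih fun x hx => hv x (List.mem_cons_of_mem g hx)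
      nlinarith
  have hprod : ∀ v : List Γ, (∀ g ∈ v, g ∈ S') → (v.map B).flatten.prod = (v.prod : G) := by
    intro v
    induction v with
    | nil => intro _; simp
    | cons g v ih =>
      intro hv
      rw [List.map_cons, List.flatten_cons, List.prod_append, List.prod_cons, Subgroup.coe_mul,
        (hB1 g (hv g (by simp))).2.2, ih fun x hx => hv x (List.mem_cons_of_mem g hx)]
  -- every letter is replaced by its block
  have hblock : ∀ v : List Γ, (∀ g ∈ v, g ∈ S') → ∀ u : List G, (∀ g ∈ u, g ∈ S) → u.prod ∈ Γ →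
      Ar S' (max c (2 * m + 1)) v.length v (piw Γ O u.prod (v.map B).flatten) := by
    intro v
    induction v with
    | nil => intro _ u _ _; exact Ar.refl _ _
    | cons g v ih =>
      intro hv u hu huΓ
      have hg := hv g (by simp)
      obtain ⟨b1, b2, b3⟩ := hB1 g hg
      have huB : ∀ x ∈ u ++ B g, x ∈ S := by
        intro x hx
        rcases List.mem_append.1 hx with h | h
        · exact hu x h
        · exact b2 x h
      have e1 : (u ++ B g).prod = u.prod * g := by
        rw [List.prod_append, b3]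
      have hug : u.prod * (g : G) ∈ Γ := Γ.mul_mem huΓ g.2
      rw [List.map_cons, List.flatten_cons, piw_append, List.length_cons, b3]
      refine Ar.step (w' := piw Γ O u.prod (B g) ++ v) ⟨[], [g], piw Γ O u.prod (B g), v, rfl, rfl,
        ?_, ?_, ?_, ?_, ?_⟩ (trf_left _ ?_)
      · rw [piw_prod, b3, tpi_mem Γ O huΓ, tpi_mem Γ O hug, List.prod_singleton]
        ext
        simp
      · simp
      · rw [piw_length]
        exact b1.trans (le_max_right _ _)
      · intro x hx
        rw [List.mem_singleton.1 hx]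
        exact hg
      · intro x hx
        rw [hS']
        exact piw_mem Γ O h1 hdec (B g) b2 u hu x hx
      · have := ih (fun x hx => hv x (List.mem_cons_of_mem g hx)) (u ++ B g) huB (by rwa [e1])
        rwa [e1] at this
  obtain ⟨w₀, hw₀, hw₀l, hw₀a⟩ := hc W hWS (by rw [hWdef, hprod w hw, hwp]; rfl)
  have hWl : W.length ≤ (2 * m + 1) * w.length := hlen w hw
  refine ⟨piw Γ O 1 w₀, ?_, ?_, ?_⟩
  · -- letters
    have key : ∀ v : List G, (∀ g ∈ v, g ∈ S₀) → ∀ p ∈ Γ, ∀ g ∈ piw Γ O p v, (g : G) ∈ S₀ := by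
      intro v
      induction v with
      | nil =>
        intro _ p _ g hg
        exact absurd hg (by unfold piw; simp)
      | cons s v ih =>
        intro hv p hp g hg
        have hs : s ∈ S₀ := hv s (by simp)
        have hps : p * s ∈ Γ := Γ.mul_mem hp (hS₀Γ hs)
        unfold piw at hg
        rcases List.mem_cons.1 hg with h | h
        · rw [h, tpi_mem Γ O hp, tpi_mem Γ O hps]
          simpa using hs
        · exact ih (fun x hx => hv x (List.mem_cons_of_mem s hx)) _ hps g h
    exact fun g hg => key w₀ hw₀ 1 Γ.one_mem g hg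
  · rw [piw_length]
    have h2 : C * W.length ≤ C * ((2 * m + 1) * w.length) := Nat.mul_le_mul_left C hWl
    have h3 : C * ((2 * m + 1) * w.length) ≤ C * (2 * m + 1) ^ 2 * w.length := by
      rw [show C * (2 * m + 1) ^ 2 * w.length = C * ((2 * m + 1) * w.length) * (2 * m + 1) by ring]
      exact Nat.le_mul_of_pos_right _ (by omega)
    nlinarith
  · have a1 := hblock w hw [] (by simp) (by simp)
    have a2 := piw_ar Γ O h1 hdec hS' hw₀a hWS (u := []) (by simp)
    have a3 := trf_trans a1 (trf_mono_c a2 (le_max_left c (2 * m + 1)))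
    rw [List.prod_nil] at a3
    refine trf_mono_k a3 ?_
    have h2 : C * W.length ^ 2 ≤ C * ((2 * m + 1) * w.length) ^ 2 :=
      Nat.mul_le_mul_left C (Nat.pow_le_pow_left hWl 2)
    have h3 : w.length ≤ w.length ^ 2 := by
      rcases Nat.eq_zero_or_pos w.length with h | h
      · rw [h]
        simp
      · nlinarith
    rw [mul_pow] at h2
    nlinarith

end QD
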