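import Pool.Agent.Helper24.QD.Stmts

set_option autoImplicit false

/-! Block unipotent matrices: inverses. -/

namespace QD

section uni

variable {ι : Type} [Fintype ι] [DecidableEq ι]

theorem uni_pow_tri (b : ι → ℕ) (N : Matrix ι ι ℚ) (hN : ∀ x y, b y ≤ b x → N x y = 0) (k : ℕ) :
    ∀ x y, b y < b x + k → (N ^ k) x y = 0 := by
  induction k with
  | zero =>
    intro x y hxy
    rw [pow_zero, Matrix.one_apply_ne]
    rintro rfl
    omega
  | succ k ih =>
    intro x y hxy
    rw [pow_succ, Matrix.mul_apply]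
    apply Finset.sum_eq_zero
    intro z _
    by_cases h : b z < b x + k
    · rw [ih x z h, zero_mul]
    · rw [hN z y (by omega), mul_zero]

theorem uni_pow_top (b : ι → ℕ) (N : Matrix ι ι ℚ) (hN : ∀ x y, b y ≤ b x → N x y = 0) :
    N ^ (Finset.univ.sup b + 1) = 0 := by
  ext x y
  apply uni_pow_tri b N hN
  have : b y ≤ Finset.univ.sup b := Finset.le_sup (f := b) (Finset.mem_univ y)
  omega

theorem uni_right (b : ι → ℕ) (N : Matrix ι ι ℚ) (hN : ∀ x y, b y ≤ b x → N x y = 0) :
    (1 + N) * ∑ k ∈ Finset.range (Finset.univ.sup b + 1), (-N) ^ k = 1 := by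
  have h := mul_neg_geom_sum (-N) (Finset.univ.sup b + 1)
  have h0 : (-N) ^ (Finset.univ.sup b + 1) = 0 :=
    uni_pow_top b (-N) (fun x y hxy => by rw [Matrix.neg_apply, hN x y hxy, neg_zero])
  rw [h0, sub_zero, sub_neg_eq_add] at h
  exact h

theorem uni_left (b : ι → ℕ) (N : Matrix ι ι ℚ) (hN : ∀ x y, b y ≤ b x → N x y = 0) :
    (∑ k ∈ Finset.range (Finset.univ.sup b + 1), (-N) ^ k) * (1 + N) = 1 := by
  have h := geom_sum_mul_neg (-N) (Finset.univ.sup b + 1)
  have h0 : (-N) ^ (Finset.univ.sup b + 1) = 0 :=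
    uni_pow_top b (-N) (fun x y hxy => by rw [Matrix.neg_apply, hN x y hxy, neg_zero])
  rw [h0, sub_zero, sub_neg_eq_add] at h
  exact h

theorem uni_pow_abs (a : AbsoluteValue ℚ ℚ) (N : Matrix ι ι ℚ) (hN : ∀ x y, a (N x y) ≤ 1)
    (k : ℕ) : ∀ x y, a ((N ^ k) x y) ≤ (Fintype.card ι : ℚ) ^ k := by
  induction k with
  | zero =>
    intro x y
    rw [pow_zero, pow_zero, Matrix.one_apply]
    split_ifs
    · rw [map_one]
    · rw [map_zero]; exact zero_le_one
  | succ k ih =>
    intro x y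
    rw [pow_succ, Matrix.mul_apply]
    refine (a.sum_le _ _).trans ?_
    have h1 : ∀ z ∈ (Finset.univ : Finset ι), a ((N ^ k) x z * N z y) ≤
        (Fintype.card ι : ℚ) ^ k := by
      intro z _
      rw [map_mul]
      calc a ((N ^ k) x z) * a (N z y) ≤ (Fintype.card ι : ℚ) ^ k * 1 :=
            mul_le_mul (ih x z) (hN z y) (a.nonneg _) (by positivity)
        _ = (Fintype.card ι : ℚ) ^ k := mul_one _
    refine (Finset.sum_le_card_nsmul _ _ _ h1).trans ?_
    rw [nsmul_eq_mul, Finset.card_univ, pow_succ, mul_comm]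

theorem st_UNIa : ST_UNIa := by
  intro ι _ _ b
  refine ⟨(∑ k ∈ Finset.range (Finset.univ.sup b + 1), Fintype.card ι ^ k) + 1, by omega, ?_⟩
  intro a v hv hav x y
  set N : Matrix ι ι ℚ := v.1 - 1 with hNdef
  have hN : ∀ x y, b y ≤ b x → N x y = 0 := by
    intro x y hxy
    rw [hNdef, Matrix.sub_apply, hv x y hxy, sub_self]
  have hNa : ∀ x y, a ((-N) x y) ≤ 1 := by
    intro x y
    rw [Matrix.neg_apply, map_neg_eq_map]
    by_cases h : b y ≤ b x
    · rw [hN x y h, map_zero]; exact zero_le_one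
    · have hne : x ≠ y := by rintro rfl; omega
      rw [hNdef, Matrix.sub_apply, Matrix.one_apply_ne hne, sub_zero]
      exact hav x y
  have hv1 : v.1 = 1 + N := by rw [hNdef]; abel
  have hinv : (v⁻¹).1 = ∑ k ∈ Finset.range (Finset.univ.sup b + 1), (-N) ^ k := by
    apply Units.inv_eq_of_mul_eq_one_right
    rw [hv1]
    exact uni_right b N hN
  rw [hinv, Matrix.sum_apply]
  refine (a.sum_le _ _).trans ?_
  have h1 : ∑ k ∈ Finset.range (Finset.univ.sup b + 1), a (((-N) ^ k) x y) ≤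
      ∑ k ∈ Finset.range (Finset.univ.sup b + 1), (Fintype.card ι : ℚ) ^ k :=
    Finset.sum_le_sum (fun k _ => uni_pow_abs a (-N) hNa k x y)
  refine h1.trans ?_
  push_cast
  linarith

theorem st_UNIb : ST_UNIb := by
  intro ι _ _ b B N hN hNB
  have hpow : ∀ k x y, ((-N) ^ k) x y ∈ B := by
    intro k
    induction k with
    | zero =>
      intro x y
      rw [pow_zero, Matrix.one_apply]
      split_ifs
      exacts [B.one_mem, B.zero_mem]
    | succ k ih =>
      intro x y
      rw [pow_succ, Matrix.mul_apply]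
      exact B.sum_mem fun z _ => B.mul_mem (ih x z) (by
        rw [Matrix.neg_apply]; exact B.neg_mem (hNB z y))
  let g : GL ι ℚ := ⟨1 + N, ∑ k ∈ Finset.range (Finset.univ.sup b + 1), (-N) ^ k,
    uni_right b N hN, uni_left b N hN⟩
  refine ⟨g, rfl, ?_, ?_, ?_⟩
  · intro x y hxy
    show (1 + N) x y = _
    rw [Matrix.add_apply, hN x y hxy, add_zero]
  · intro x y
    show (1 + N) x y ∈ B
    rw [Matrix.add_apply, Matrix.one_apply]
    apply B.add_mem _ (hNB x y)
    split_ifs
    exacts [B.one_mem, B.zero_mem]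
  · intro x y
    show (∑ k ∈ Finset.range (Finset.univ.sup b + 1), (-N) ^ k) x y ∈ B
    rw [Matrix.sum_apply]
    exact B.sum_mem fun k _ => hpow k x y

end uni

end QD
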