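import Pool.Agent.Helper24.QD.ZNF

set_option autoImplicit false

/-! Finitely generated virtually abelian groups: quadratic reduction to the empty word. -/

namespace QD

/-- Pushing a short list of letters `z j ^ (±1)` into the normal form. -/
theorem nf_push {G J : Type} [Group G] [DecidableEq J] (S : Set G) (c : ℕ) (z : J → G)
    (js : List J) (hc : 2 ≤ c) (hnd : js.Nodup) (hzS : ∀ j, z j ∈ S) (hzS' : ∀ j, (z j)⁻¹ ∈ S)
    (hzz : ∀ i j, z i * z j = z j * z i) (u : List G) :
    (∀ g ∈ u, ∃ j ∈ js, g = z j ∨ g = (z j)⁻¹) → ∀ k : J → ℤ, ∃ k' : J → ℤ,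
      (nf z js k').length ≤ (nf z js k).length + u.length ∧
      Ar S c (u.length * ((nf z js k).length + u.length + 1)) (nf z js k ++ u) (nf z js k') := by
  induction u with
  | nil =>
    intro _ k
    exact ⟨k, by simp, by rw [List.append_nil]; exact Ar.refl _ _⟩
  | cons g u ih =>
    intro hu k
    obtain ⟨j, hj, hg⟩ := hu g (by simp)
    obtain ⟨e, he, hge⟩ : ∃ e : ℤ, (e = 1 ∨ e = -1) ∧ [g] = zb (z j) e := by
      rcases hg with hg | hg
      · exact ⟨1, Or.inl rfl, by rw [zb_one, hg]⟩
      · exact ⟨-1, Or.inr rfl, by rw [zb_neg_one, hg]⟩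
    obtain ⟨h7, h8, h9⟩ := st_ZNF G J S c z js hc hnd hzS hzS' hzz k j e hj he
    rw [← hge] at h9
    obtain ⟨k', h1, h2⟩ := ih (fun x hx => hu x (by simp [hx])) (Function.update k j (k j + e))
    have h3 := (h9.right u).trans h2
    rw [List.append_assoc, List.singleton_append] at h3
    refine ⟨k', ?_, h3.mono_k ?_⟩
    · rw [List.length_cons]; omega
    · rw [List.length_cons]
      have h4 : u.length * ((nf z js (Function.update k j (k j + e))).length + u.length + 1) ≤
          u.length * ((nf z js k).length + (u.length + 1) + 1) :=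
        Nat.mul_le_mul_left _ (by omega)
      nlinarith

theorem st_VAB2 : ST_VAB2 := by
  intro L _ r z R hzz hnfR hind
  classical
  set js : List (Fin r) := List.finRange r with hjs
  have hnd : js.Nodup := List.nodup_finRange r
  have hjm : ∀ j, j ∈ js := fun j => List.mem_finRange j
  set Z : Set L := (⋃ j, {z j}) ∪ ⋃ j, {(z j)⁻¹} with hZ
  set S : Set L := Z ∪ ((R : Set L) ∪ (R : Set L)⁻¹) with hS
  have hzS : ∀ j, z j ∈ S := fun j => Or.inl (Or.inl (Set.mem_iUnion.2 ⟨j, rfl⟩))
  have hzS' : ∀ j, (z j)⁻¹ ∈ S := fun j => Or.inl (Or.inr (Set.mem_iUnion.2 ⟨j, rfl⟩))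
  have hRS : ∀ s ∈ R, s ∈ S := fun s hs => Or.inr (Or.inl hs)
  have hnfS : ∀ k : Fin r → ℤ, ∀ g ∈ nf z js k, g ∈ S := by
    intro k g hg
    obtain ⟨j, _, h | h⟩ := nf_mem z js k g hg
    · rw [h]; exact hzS j
    · rw [h]; exact hzS' j
  have hSfin : S.Finite := by
    apply Set.Finite.union
    · exact (Set.finite_iUnion fun j => Set.finite_singleton _).union
        (Set.finite_iUnion fun j => Set.finite_singleton _)
    · exact (Finset.finite_toSet R).union (Finset.finite_toSet R).inv
  have hSinv : ∀ s ∈ S, s⁻¹ ∈ S := by
    intro s hs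
    rcases hs with (hs | hs) | hs | hs
    · obtain ⟨j, hj⟩ := Set.mem_iUnion.1 hs
      rw [Set.mem_singleton_iff.1 hj]; exact hzS' j
    · obtain ⟨j, hj⟩ := Set.mem_iUnion.1 hs
      rw [Set.mem_singleton_iff.1 hj, inv_inv]; exact hzS j
    · exact Or.inr (Or.inr (by rw [Set.mem_inv, inv_inv]; exact hs))
    · exact Or.inr (Or.inl hs)
  refine ⟨S, hSfin, hSinv, ?_, ?_⟩
  · intro l _
    obtain ⟨k, s, hs, h⟩ := hnfR l
    refine ⟨nf z js k ++ [s], ?_, ?_⟩
    · intro g hg
      rcases List.mem_append.1 hg with hg | hg
      · exact hnfS k g hg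
      · rw [List.mem_singleton.1 hg]; exact hRS s hs
    · rw [List.prod_append, List.prod_singleton, h]
  · -- the choice of the normal form of `r * s`
    choose κ ρ hρR hκ using hnfR
    -- bounds
    obtain ⟨m, hm⟩ : ∃ m : ℕ, ∀ a ∈ R, ∀ s ∈ S, (nf z js (κ (a * s))).length ≤ m := by
      have hfin : (Set.image2 (fun a s => (nf z js (κ (a * s))).length) (R : Set L) S).Finite :=
        Set.Finite.image2 _ (Finset.finite_toSet R) hSfin
      obtain ⟨m, hm⟩ := hfin.bddAbove
      exact ⟨m, fun a ha s hs => hm (Set.mem_image2_of_mem ha hs)⟩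
    obtain ⟨m', hm'⟩ : ∃ m' : ℕ, ∀ a ∈ R, ∀ k : Fin r → ℤ, (nf z js k).prod * a = 1 →
        (nf z js k).length ≤ m' := by
      have hch : ∀ a : L, ∃ n : ℕ, ∀ k : Fin r → ℤ, (nf z js k).prod * a = 1 →
          (nf z js k).length ≤ n := by
        intro a
        by_cases h : ∃ k : Fin r → ℤ, (nf z js k).prod * a = 1
        · obtain ⟨k, hk⟩ := h
          refine ⟨(nf z js k).length, fun k' hk' => ?_⟩
          have h1 : (nf z js k').prod = (nf z js k).prod := by
            rw [← hk] at hk'
            exact mul_right_cancel hk'
          rw [nf_prod_inj z hzz js hind k' k h1]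
        · exact ⟨0, fun k hk => absurd ⟨k, hk⟩ h⟩
      choose n hn using hch
      refine ⟨R.sup n, fun a ha k hk => (hn a k hk).trans (Finset.le_sup ha)⟩
    set m0 : ℕ := (nf z js (κ 1)).length with hm0
    set M : ℕ := m + m' + m0 + 1 with hM
    set c : ℕ := M + 2 with hcdef
    have hc2 : 2 ≤ c := by omega
    have hmain : ∀ w : List L, (∀ g ∈ w, g ∈ S) → ∃ (k : Fin r → ℤ) (a : L), a ∈ R ∧
        (nf z js k).length ≤ M * w.length + M ∧
        Ar S c (w.length * (1 + M * (M * w.length + 2 * M + 1)) + 1) w (nf z js k ++ [a]) := by
      intro w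
      induction w using List.reverseRecOn with
      | nil =>
        intro _
        refine ⟨κ 1, ρ 1, hρR 1, ?_, ?_⟩
        · rw [List.length_nil]; omega
        · have h1 : Ar S c 1 [] (nf z js (κ 1) ++ [ρ 1]) := by
            apply Ar.whole
            · rw [List.prod_append, List.prod_singleton, ← hκ 1, List.prod_nil]
            · simp
            · rw [List.length_append, List.length_singleton]; omega
            · simp
            · intro g hg
              rcases List.mem_append.1 hg with hg | hg
              · exact hnfS _ g hg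
              · rw [List.mem_singleton.1 hg]; exact hRS _ (hρR 1)
          exact h1.mono_k (by omega)
      | append_singleton w s ih =>
        intro hw
        obtain ⟨k, a, ha, h2, h4⟩ := ih (fun x hx => hw x (by simp [hx]))
        have hs : s ∈ S := hw s (by simp)
        have h5 := h4.right [s]
        have hlen := hm a ha s hs
        have h6 : Ar S c 1 [a, s] (nf z js (κ (a * s)) ++ [ρ (a * s)]) := by
          apply Ar.whole
          · rw [List.prod_append, List.prod_singleton, ← hκ (a * s)]; simp
          · simpa using hc2
          · rw [List.length_append, List.length_singleton]; omega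
          · intro g hg
            simp only [List.mem_cons, List.not_mem_nil, or_false] at hg
            rcases hg with rfl | rfl
            · exact hRS _ ha
            · exact hs
          · intro g hg
            rcases List.mem_append.1 hg with hg | hg
            · exact hnfS _ g hg
            · rw [List.mem_singleton.1 hg]; exact hRS _ (hρR _)
        obtain ⟨k', h7, h8⟩ := nf_push S c z js hc2 hnd hzS hzS' hzz (nf z js (κ (a * s)))
          (nf_mem z js _) k
        have h9 := (h6.left (nf z js k)).trans
          (by
            have := h8.right [ρ (a * s)]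
            rwa [List.append_assoc] at this)
        have h10 : nf z js k ++ [a, s] = nf z js k ++ [a] ++ [s] := by simp
        rw [h10] at h9
        have h11 := h5.trans h9
        refine ⟨k', ρ (a * s), hρR _, ?_, h11.mono_k ?_⟩
        · rw [List.length_append, List.length_singleton]
          have : M * (w.length + 1) = M * w.length + M := by ring
          omega
        · rw [List.length_append, List.length_singleton]
          have h12 : (nf z js (κ (a * s))).length *
              ((nf z js k).length + (nf z js (κ (a * s))).length + 1) ≤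
              M * (M * w.length + 2 * M + 1) := by
            apply Nat.mul_le_mul
            · omega
            · omega
          have h13 : M * (M * w.length + 2 * M + 1) ≤ M * (M * (w.length + 1) + 2 * M + 1) :=
            Nat.mul_le_mul_left _ (by
              have := Nat.mul_le_mul_left M (Nat.le_succ w.length)
              simp only [Nat.succ_eq_add_one] at this
              omega)
          have h14 : w.length * (1 + M * (M * w.length + 2 * M + 1)) ≤
              w.length * (1 + M * (M * (w.length + 1) + 2 * M + 1)) :=
            Nat.mul_le_mul_left _ (by omega)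
          have h15 : (w.length + 1) * (1 + M * (M * (w.length + 1) + 2 * M + 1)) =
              w.length * (1 + M * (M * (w.length + 1) + 2 * M + 1)) +
              (1 + M * (M * (w.length + 1) + 2 * M + 1)) := by ring
          omega
    refine ⟨c, 1 + M * (3 * M + 1) + 2, ?_⟩
    intro w hw hw1
    obtain ⟨k, a, ha, h2, h4⟩ := hmain w hw
    have h5 := h4.prod_eq
    rw [hw1, List.prod_append, List.prod_singleton] at h5
    have h6 := hm' a ha k h5.symm
    have h7 : Ar S c 1 (nf z js k ++ [a]) [] := by
      apply Ar.whole
      · rw [List.prod_append, List.prod_singleton, ← h5, List.prod_nil]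
      · rw [List.length_append, List.length_singleton]; omega
      · simp
      · intro g hg
        rcases List.mem_append.1 hg with hg | hg
        · exact hnfS _ g hg
        · rw [List.mem_singleton.1 hg]; exact hRS _ ha
      · simp
    refine ⟨[], by simp, by simp, (h4.trans h7).mono_k ?_⟩
    generalize w.length = n
    have h8 : n * (1 + M * (M * n + 2 * M + 1)) ≤ n * n * (1 + M * (3 * M + 1)) := by
      rcases Nat.eq_zero_or_pos n with rfl | hn
      · simp
      · rw [mul_assoc]
        apply Nat.mul_le_mul_left
        have h9 : M * (M * n + 2 * M + 1) ≤ n * (M * (3 * M + 1)) := by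
          have h10 : M * n + 2 * M + 1 ≤ n * (3 * M + 1) := by nlinarith
          calc M * (M * n + 2 * M + 1) ≤ M * (n * (3 * M + 1)) := Nat.mul_le_mul_left _ h10
            _ = n * (M * (3 * M + 1)) := by ring
        nlinarith
    have h9 : n ^ 2 = n * n := sq n
    rw [h9]
    nlinarith [Nat.zero_le (n * n)]

end QD
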