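import Pool.Agent.Helper24.QD.ArB

set_option autoImplicit false

/-! Sorted words of powers of commuting elements. -/

namespace QD

section zbl

variable {G : Type} [Group G]

theorem zb_zero (g : G) : zb g 0 = [] := by simp [zb]

theorem zb_one (g : G) : zb g 1 = [g] := by simp [zb]

theorem zb_neg_one (g : G) : zb g (-1) = [g⁻¹] := by simp [zb]

theorem zb_nat (g : G) (n : ℕ) : zb g n = List.replicate n g := by
  simp [zb]

theorem zb_neg_nat (g : G) (n : ℕ) : zb g (-(n : ℤ)) = List.replicate n g⁻¹ := by
  rcases Nat.eq_zero_or_pos n with rfl | h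
  · simp [zb]
  · rw [zb, if_neg (by omega), neg_neg, Int.toNat_natCast]

theorem zb_inv_neg (g : G) (k : ℤ) : zb g⁻¹ (-k) = zb g k := by
  obtain ⟨n, rfl | rfl⟩ := Int.eq_nat_or_neg k
  · rw [zb_nat, zb_neg_nat, inv_inv]
  · rw [neg_neg, zb_nat, zb_neg_nat]

theorem zb_length (g : G) (k : ℤ) : (zb g k).length = k.natAbs := by
  obtain ⟨n, rfl | rfl⟩ := Int.eq_nat_or_neg k
  · rw [zb_nat, List.length_replicate, Int.natAbs_natCast]
  · rw [zb_neg_nat, List.length_replicate, Int.natAbs_neg, Int.natAbs_natCast]

theorem zb_mem (g : G) (k : ℤ) : ∀ x ∈ zb g k, x = g ∨ x = g⁻¹ := by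
  intro x hx
  rw [zb] at hx
  split_ifs at hx
  · exact Or.inl (List.mem_replicate.1 hx).2
  · exact Or.inr (List.mem_replicate.1 hx).2

theorem zb_prod (g : G) (k : ℤ) : (zb g k).prod = g ^ k := by
  obtain ⟨n, rfl | rfl⟩ := Int.eq_nat_or_neg k
  · rw [zb_nat, List.prod_replicate, zpow_natCast]
  · rw [zb_neg_nat, List.prod_replicate, zpow_neg, zpow_natCast, inv_pow]

theorem zb_merge_one {S : Set G} {c : ℕ} (hc : 2 ≤ c) (g : G) (hg : g ∈ S) (hg' : g⁻¹ ∈ S)
    (k : ℤ) : Ar S c 1 (zb g k ++ zb g 1) (zb g (k + 1)) := by
  rw [zb_one]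
  obtain ⟨n, rfl | rfl⟩ := Int.eq_nat_or_neg k
  · have h1 : ((n : ℤ) + 1) = ((n + 1 : ℕ) : ℤ) := by push_cast; rfl
    rw [h1, zb_nat, zb_nat, List.replicate_succ']
    exact Ar.refl _ _
  · rcases n with _ | n
    · simp only [Nat.cast_zero, neg_zero, zero_add, zb_zero, zb_one]
      exact Ar.refl _ _
    · have h1 : (-((n + 1 : ℕ) : ℤ) + 1) = -(n : ℤ) := by push_cast; ring
      rw [h1, zb_neg_nat, zb_neg_nat, List.replicate_succ']
      have h2 : Ar S c 1 [g⁻¹, g] [] := by
        apply Ar.whole
        · simp
        · simpa using hc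
        · simp
        · intro x hx; simp at hx; rcases hx with rfl | rfl <;> assumption
        · simp
      have h3 := h2.left (List.replicate n g⁻¹)
      simp only [List.append_nil] at h3
      rw [List.append_assoc]
      exact h3

theorem zb_merge {S : Set G} {c : ℕ} (hc : 2 ≤ c) (g : G) (hg : g ∈ S) (hg' : g⁻¹ ∈ S)
    (k e : ℤ) (he : e = 1 ∨ e = -1) : Ar S c 1 (zb g k ++ zb g e) (zb g (k + e)) := by
  rcases he with rfl | rfl
  · exact zb_merge_one hc g hg hg' k
  · have h := zb_merge_one hc g⁻¹ hg' (by rw [inv_inv]; exact hg) (-k)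
    rw [zb_inv_neg] at h
    have h1 : zb g⁻¹ 1 = zb g (-1) := by rw [zb_one, zb_neg_one]
    have h2 : zb g⁻¹ (-k + 1) = zb g (k + -1) := by
      have h3 : (-k + 1 : ℤ) = -(k + -1) := by ring
      rw [h3, zb_inv_neg]
    rw [h1, h2] at h
    exact h

variable {J : Type}

theorem nf_cons (z : J → G) (i : J) (js : List J) (k : J → ℤ) :
    nf z (i :: js) k = zb (z i) (k i) ++ nf z js k := by
  simp [nf]

theorem nf_nil (z : J → G) (k : J → ℤ) : nf z [] k = [] := by simp [nf]

theorem nf_zero (z : J → G) (js : List J) : nf z js 0 = [] := by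
  induction js with
  | nil => exact nf_nil z 0
  | cons i js ih => rw [nf_cons, ih]; simp [zb_zero]

theorem nf_congr (z : J → G) (js : List J) (k k' : J → ℤ) (h : ∀ j ∈ js, k j = k' j) :
    nf z js k = nf z js k' := by
  induction js with
  | nil => rw [nf_nil, nf_nil]
  | cons i js ih =>
    rw [nf_cons, nf_cons, ih (fun j hj => h j (by simp [hj])), h i (by simp)]

theorem nf_mem (z : J → G) (js : List J) (k : J → ℤ) :
    ∀ g ∈ nf z js k, ∃ j ∈ js, g = z j ∨ g = (z j)⁻¹ := by
  induction js with
  | nil => intro g hg; rw [nf_nil] at hg; simp at hg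
  | cons i js ih =>
    intro g hg
    rw [nf_cons, List.mem_append] at hg
    rcases hg with hg | hg
    · exact ⟨i, by simp, zb_mem _ _ g hg⟩
    · obtain ⟨j, hj, h⟩ := ih g hg
      exact ⟨j, by simp [hj], h⟩

theorem zcomm (z : J → G) (hz : ∀ i j, z i * z j = z j * z i) (i j : J) (x y : G)
    (hx : x = z i ∨ x = (z i)⁻¹) (hy : y = z j ∨ y = (z j)⁻¹) : x * y = y * x := by
  have h : Commute (z i) (z j) := hz i j
  rcases hx with rfl | rfl <;> rcases hy with rfl | rfl
  · exact h
  · exact h.inv_right
  · exact h.inv_left
  · exact h.inv_inv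

theorem nf_commute (z : J → G) (hz : ∀ i j, z i * z j = z j * z i) (i : J) (js : List J)
    (k : J → ℤ) : Commute (z i) (nf z js k).prod := by
  apply Commute.list_prod_right
  intro g hg
  obtain ⟨j, _, h⟩ := nf_mem z js k g hg
  exact zcomm z hz i j (z i) g (Or.inl rfl) h

theorem nf_prod_add (z : J → G) (hz : ∀ i j, z i * z j = z j * z i) (js : List J)
    (k k' : J → ℤ) : (nf z js (k + k')).prod = (nf z js k).prod * (nf z js k').prod := by
  induction js with
  | nil => simp [nf_nil]
  | cons i js ih =>
    rw [nf_cons, nf_cons, nf_cons, List.prod_append, List.prod_append, List.prod_append, ih,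
      zb_prod, zb_prod, zb_prod, Pi.add_apply, zpow_add]
    have h := (nf_commute z hz i js k).zpow_left (k' i)
    calc z i ^ k i * z i ^ k' i * ((nf z js k).prod * (nf z js k').prod)
        = z i ^ k i * (z i ^ k' i * (nf z js k).prod) * (nf z js k').prod := by
          simp only [mul_assoc]
      _ = z i ^ k i * ((nf z js k).prod * z i ^ k' i) * (nf z js k').prod := by rw [h.eq]
      _ = _ := by simp only [mul_assoc]

theorem nf_prod_inj (z : J → G) (hz : ∀ i j, z i * z j = z j * z i) (js : List J)
    (h0 : ∀ k : J → ℤ, (nf z js k).prod = 1 → k = 0) (k k' : J → ℤ)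
    (h : (nf z js k).prod = (nf z js k').prod) : k = k' := by
  have h1 : (nf z js (-k')).prod * (nf z js k').prod = 1 := by
    rw [← nf_prod_add z hz, neg_add_cancel, nf_zero, List.prod_nil]
  have h2 : (nf z js (-k' + k)).prod = 1 := by
    rw [nf_prod_add z hz, h, h1]
  have h3 := h0 _ h2
  rw [neg_add_eq_zero] at h3
  exact h3.symm

end zbl

theorem st_ZNF : ST_ZNF := by
  intro G J _ _ S c z js hc hjs hzS hzS' hz k j e hj he
  have hel : (zb (z j) e).length = 1 := by
    rw [zb_length]
    rcases he with rfl | rfl <;> rfl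
  have hmem : ∀ (js : List J) (k : J → ℤ), ∀ g ∈ nf z js k, g ∈ S := by
    intro js k g hg
    obtain ⟨i, _, h | h⟩ := nf_mem z js k g hg
    · rw [h]; exact hzS i
    · rw [h]; exact hzS' i
  have hmain : ∀ (js : List J), js.Nodup → j ∈ js →
      (nf z js (Function.update k j (k j + e))).length ≤ (nf z js k).length + 1 ∧
      Ar S c ((nf z js k).length + 1) (nf z js k ++ zb (z j) e)
        (nf z js (Function.update k j (k j + e))) := by
    intro js
    induction js with
    | nil => intro _ h; simp at h
    | cons i js ih =>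
      intro hnd hji
      rw [List.nodup_cons] at hnd
      by_cases hij : j = i
      · subst hij
        have h1 : nf z js (Function.update k j (k j + e)) = nf z js k := by
          apply nf_congr
          intro l hl
          rw [Function.update_of_ne]
          rintro rfl
          exact hnd.1 hl
        rw [nf_cons, nf_cons, h1, Function.update_self]
        constructor
        · rw [List.length_append, List.length_append, zb_length, zb_length]
          rcases he with rfl | rfl <;> omega
        · have h2 : Ar S c ((nf z js k).length * (zb (z j) e).length)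
              (nf z js k ++ zb (z j) e) (zb (z j) e ++ nf z js k) := by
            apply Ar.comm_lists hc _ _ (hmem js k)
            · intro g hg
              rcases zb_mem _ _ g hg with h | h
              · rw [h]; exact hzS j
              · rw [h]; exact hzS' j
            · intro g hg h hh
              obtain ⟨l, _, hl⟩ := nf_mem z js k g hg
              exact zcomm z hz l j g h hl (zb_mem _ _ h hh)
          have h3 := (zb_merge (S := S) hc (z j) (hzS j) (hzS' j) (k j) e he).right (nf z js k)
          have h4 := h2.left (zb (z j) (k j))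
          rw [List.append_assoc] at h3
          have h5 := h4.trans h3
          rw [List.append_assoc]
          refine h5.mono_k ?_
          rw [hel, List.length_append]
          omega
      · have hj' : j ∈ js := by
          rcases List.mem_cons.1 hji with h | h
          · exact absurd h hij
          · exact h
        obtain ⟨h1, h2⟩ := ih hnd.2 hj'
        rw [nf_cons, nf_cons, Function.update_of_ne (fun h => hij h.symm)]
        constructor
        · rw [List.length_append, List.length_append]; omega
        · have h3 := h2.left (zb (z i) (k i))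
          rw [List.append_assoc]
          refine h3.mono_k ?_
          rw [List.length_append]
          omega
  exact ⟨(hmain js hjs hj).1, hmem js k, (hmain js hjs hj).2⟩

theorem st_UCOM : ST_UCOM := by
  intro G J _ _ S₀ z hz hind
  classical
  set Z : Set G := {g | ∃ j, g = z j ∨ g = (z j)⁻¹} with hZ
  set S : Set G := S₀ ∪ Z with hS
  set js : List J := (Finset.univ : Finset J).toList with hjs
  have hnd : js.Nodup := Finset.nodup_toList _
  have hjm : ∀ j, j ∈ js := fun j => by rw [hjs]; simp
  have hzS : ∀ j, z j ∈ S := fun j => Or.inr ⟨j, Or.inl rfl⟩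
  have hzS' : ∀ j, (z j)⁻¹ ∈ S := fun j => Or.inr ⟨j, Or.inr rfl⟩
  have hzz : ∀ i j, z i * z j = z j * z i := fun i j => hz i (z j)
  have hmain : ∀ w : List G, (∀ g ∈ w, g ∈ S) → ∃ (k : J → ℤ) (w₀ : List G),
      (∀ g ∈ w₀, g ∈ S₀) ∧ w₀.length ≤ w.length ∧ (nf z js k).length ≤ w.length ∧
      Ar S 2 (w.length * (2 * w.length + 1)) w (nf z js k ++ w₀) := by
    intro w
    induction w using List.reverseRecOn with
    | nil =>
      intro _
      exact ⟨0, [], by simp, by simp, by rw [nf_zero], by rw [nf_zero]; exact Ar.refl _ _⟩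
    | append_singleton w g ih =>
      intro hw
      obtain ⟨k, w₀, h1, h2, h3, h4⟩ := ih (fun x hx => hw x (by simp [hx]))
      have h5 := h4.right [g]
      rcases hw g (by simp) with hg | ⟨j, hg⟩
      · refine ⟨k, w₀ ++ [g], ?_, ?_, ?_, ?_⟩
        · intro x hx
          rcases List.mem_append.1 hx with hx | hx
          · exact h1 x hx
          · rw [List.mem_singleton.1 hx]; exact hg
        · rw [List.length_append, List.length_append]; simpa using h2
        · rw [List.length_append]; omega
        · rw [List.append_assoc] at h5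
          refine h5.mono_k ?_
          rw [List.length_append, List.length_singleton]
          nlinarith
      · obtain ⟨e, he, hge⟩ : ∃ e : ℤ, (e = 1 ∨ e = -1) ∧ [g] = zb (z j) e := by
          rcases hg with hg | hg
          · exact ⟨1, Or.inl rfl, by rw [zb_one, hg]⟩
          · exact ⟨-1, Or.inr rfl, by rw [zb_neg_one, hg]⟩
        have hgS : g ∈ S := hw g (by simp)
        have hw0 : ∀ x ∈ w₀, x ∈ S := fun x hx => Or.inl (h1 x hx)
        have hcz : ∀ x : G, g * x = x * g := by
          intro x
          rcases hg with hg | hg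
          · rw [hg]; exact hz j x
          · rw [hg]
            exact (Commute.inv_left (show Commute (z j) x from hz j x)).eq
        have h6 := (Ar.comm_letter (S := S) (le_refl 2) g hgS w₀ hw0
          (fun x _ => hcz x)).symm.left (nf z js k)
        obtain ⟨h7, h8, h9⟩ := st_ZNF G J S 2 z js (le_refl 2) hnd hzS hzS' hzz k j e (hjm j) he
        rw [← hge] at h9
        have h10 := h9.right w₀
        have h11 : nf z js k ++ g :: w₀ = nf z js k ++ [g] ++ w₀ := by simp
        rw [h11] at h6
        rw [List.append_assoc] at h5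
        have h12 := (h5.trans h6).trans h10
        refine ⟨Function.update k j (k j + e), w₀, h1, ?_, ?_, ?_⟩
        · rw [List.length_append]; omega
        · rw [List.length_append, List.length_singleton]; omega
        · refine h12.mono_k ?_
          rw [List.length_append, List.length_singleton]
          nlinarith
  refine ⟨2, 3, ?_⟩
  intro w hw hw1
  obtain ⟨k, w₀, h1, h2, h3, h4⟩ := hmain w hw
  have h5 := h4.prod_eq
  rw [hw1, List.prod_append] at h5
  have h6 := hind k w₀ h1 h5.symm
  rw [h6, nf_zero, List.nil_append] at h4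
  refine ⟨w₀, h1, by omega, h4.mono_k ?_⟩
  nlinarith

end QD
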