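import Pool.Agent.Helper24.QD.FIN
import Pool.Agent.Helper24.QD.Stmts2
import Pool.Agent.Helper24.QD.RAY
import Pool.Agent.Helper24.QD.CRS
import Pool.Agent.Helper24.QD.NFL
import Pool.Agent.Helper24.QD.IND
import Pool.Agent.Helper24.QD.ZNF
import Pool.Agent.Helper24.QD.VAB2
import Pool.Agent.Helper24.QD.TRF
import Pool.Agent.Helper24.QD.PRES
import Pool.Agent.Helper24.QD.NTA
import Pool.Agent.Helper24.QD.NTB
import Pool.Agent.Helper24.QD.NTC
import Pool.Agent.Helper24.QD.UNI
import Pool.Agent.Helper24.QD.COV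
import Pool.Agent.Helper24.QD.SET
import Pool.Agent.Helper24.QD.UNQ
import Pool.Agent.Helper24.QD.GEN
import Pool.Agent.Helper24.QD.COVR
import Pool.Agent.Helper24.QD.OBD
import Pool.Agent.Helper24.QD.FNS
import Pool.Agent.Helper24.QD.SCAL
import Pool.Agent.Helper24.QD.DIA
import Pool.Agent.Helper63.QD.VAB1

set_option autoImplicit false

namespace QD

theorem m1 : ST_M1 :=
  st_M1 (st_WEX st_R1) (st_WMUL st_R3 (st_CRS st_R2 st_R4)) (st_WPASS st_R5) (st_WONE st_R6)

theorem core : ST_CORE :=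
  st_CORE st_SET m1 st_UNQ st_TRF st_GEN (st_COVR (st_COV st_NTA st_UNIb)) (st_OBD st_UNIa)
    (st_FNS st_NTB st_UNIa)

theorem one : ST_ONE := st_ONE core st_UCOM st_PRES st_NTC st_DEN

theorem vab : ST_VAB := st_VAB Pool.Agent.Helper63.QD.VAB1 st_VAB2 st_PRES

theorem liftForm_numberField (K : Type) [Field K] [NumberField K] : LiftForm K :=
  fun n b H hH hb L _ hL lam th h1 h2 => lift_form one st_SCAL K n b H hH hb L hL lam th h1 h2

theorem vabForm_numberField (K : Type) [Field K] [NumberField K] : VabForm K :=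
  fun n b H hH hb H₀ h0 h1 => vab_form one st_SCAL st_DIA vab K n b H hH hb H₀ h0 h1

end QD
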