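import Pool.Agent.Helper24.QD.ArB

set_option autoImplicit false

/-! Assembly of the arithmetic group `Γ`. -/

namespace QD

theorem list_lift {G G' : Type} (f : G → G') (S : Set G) (w : List G')
    (hw : ∀ g ∈ w, g ∈ f '' S) : ∃ w₁ : List G, (∀ g ∈ w₁, g ∈ S) ∧ w = w₁.map f := by
  induction w with
  | nil => exact ⟨[], by simp, rfl⟩
  | cons g w ih =>
    obtain ⟨w₁, h1, h2⟩ := ih (fun x hx => hw x (by simp [hx]))
    obtain ⟨g', hg', hgg⟩ := hw g (by simp)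
    refine ⟨g' :: w₁, ?_, by simp [h2, hgg]⟩
    intro x hx
    rcases List.mem_cons.1 hx with rfl | hx
    · exact hg'
    · exact h1 x hx

theorem Red.image {G G' : Type} [Group G] [Group G'] {S S₀ : Set G} (f : G →* G')
    (hf : Function.Injective f) (h : Red S S₀) : Red (f '' S) (f '' S₀) := by
  obtain ⟨c, C, h⟩ := h
  refine ⟨c, C, ?_⟩
  intro w hw hw1
  obtain ⟨w₁, h1, rfl⟩ := list_lift f S w hw
  have h2 : w₁.prod = 1 := by
    apply hf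
    rw [map_list_prod, map_one]; exact hw1
  obtain ⟨w₀, h3, h4, h5⟩ := h w₁ h1 h2
  refine ⟨w₀.map f, ?_, by simpa using h4, by simpa using h5.map f⟩
  intro g hg
  obtain ⟨g', hg', rfl⟩ := List.mem_map.1 hg
  exact ⟨g', h3 g' hg', rfl⟩

section
variable {ι : Type} [Fintype ι] [DecidableEq ι] {b : ι → ℕ} {m : ℕ} {Q : Type} [Group Q]

theorem Inst.q_inj (D : Inst ι b m Q) : Function.Injective D.q := by
  intro s t h
  exact congrArg Prod.snd h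

theorem Inst.q_mem_Gam (D : Inst ι b m Q) (t : Q) : D.q t ∈ D.Gam := by
  refine ⟨fun _ => rfl, D.hρB t, ?_⟩
  show D.ρ t * (D.ρ t)⁻¹ ∈ Vb b
  rw [mul_inv_cancel]; exact (Vb b).one_mem

theorem Inst.S_inv (D : Inst ι b m Q) (R : ℕ) : ∀ s ∈ D.S R, s⁻¹ ∈ D.S R := by
  intro s hs
  rcases hs with ⟨t, ht, rfl⟩ | hs
  · exact Or.inl ⟨t⁻¹, D.hTinv t ht, map_inv _ _⟩
  · obtain ⟨i, hi⟩ := Set.mem_iUnion.1 hs
    refine Or.inr (Set.mem_iUnion.2 ⟨i, (D.V i).inv_mem hi.1, ?_⟩)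
    intro x y
    refine ⟨(hi.2 x y).2, ?_⟩
    have : ((s⁻¹).1 i)⁻¹ = s.1 i := by
      rw [Prod.fst_inv, Pi.inv_apply, inv_inv]
    rw [this]
    exact (hi.2 x y).1

theorem Inst.one_mem_O (D : Inst ι b m Q) : (1 : (Pl m → GL ι ℚ) × Q) ∈ D.O := by
  refine ⟨rfl, fun i => ⟨(Vb b).one_mem, ?_⟩⟩
  intro s t
  show av m i ((1 : Matrix ι ι ℚ) s t) ≤ 1
  rw [Matrix.one_apply]
  split_ifs
  · simp
  · simp

end

theorem st_CORE (hSET : ST_SET) (hM1 : ST_M1) (hUNQ : ST_UNQ) (hTRF : ST_TRF) (hGEN : ST_GEN)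
    (hCOVR : ST_COVR) (hOBD : ST_OBD) (hFNS : ST_FNS) : ST_CORE := by
  intro ι _ _ b m Q _ D T₀ hT₀ hRed
  obtain ⟨R, hR1, hOBD⟩ := hOBD ι b
  obtain ⟨U, hUV, hUE, hUT, hUA⟩ := hSET ι b m Q D R hR1
  have hS : U.S = D.S R := by unfold Setup.S Inst.S; rw [hUE, hUT]
  have h1 : Red (D.S R) (D.q '' D.T) := by
    rw [← hS, ← hUT]
    apply hM1 _ _ U
    intro v t hv ht h
    exact hUNQ ι b m Q D v t (by rw [hUV] at hv; exact hv) (by rw [hUT] at ht; exact ht) h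
  have h2 : Red (D.q '' D.T) (D.q '' T₀) := hRed.image D.q D.q_inj
  have h3 : Red (D.S R) (D.q '' T₀) := h1.trans h2 Set.subset_union_left
  have hgam : (D.Gam : Set ((Pl m → GL ι ℚ) × Q)) ⊆
      {x | ∀ i, x.1 i * (D.ρ x.2)⁻¹ ∈ Vb b} := by
    intro x hx i
    rw [hx.1 i]
    exact hx.2.2
  obtain ⟨a1, a2, a3⟩ := hTRF _ D.Gam D.O (D.S R) (D.q '' T₀) (Fintype.card (Pl m))
    D.one_mem_O (D.S_inv R) (fun w hw => hCOVR ι b m Q D R w hw)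
    (fun o ho => by
      obtain ⟨w, hw1, hw2, hw3⟩ := hOBD m Q D o ho
      refine ⟨w, hw1, fun g hg => ?_, hw3⟩
      obtain ⟨i, hi⟩ := hw2 g hg
      exact Or.inr (Set.mem_iUnion.2 ⟨i, hi⟩))
    (fun γ hγ => hGEN ι b m Q D R hR1 γ (hgam hγ))
    ((Set.image_mono hT₀).trans Set.subset_union_left)
    (by rintro _ ⟨t, _, rfl⟩; exact D.q_mem_Gam t) h3 _ rfl
  refine ⟨_, hFNS ι b m Q D R hR1, a1, a2, ?_, a3⟩
  intro γ hγ
  refine ⟨1, D.one_mem_O, (γ : (Pl m → GL ι ℚ) × Q), ?_, 1, D.one_mem_O, by simp⟩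
  exact Or.inl ((Set.image_mono hT₀) hγ)

end QD
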