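import Mathlib

set_option autoImplicit false

/-!
Quadratic Dehn functions: replacement moves on words in a group, the reduction
relation, block unipotent groups, places, and the statements of the modules.
-/

namespace QD

/-! ### Words and replacement moves -/

/-- One move: a sublist `x` of the word is replaced by a list `y` with the same product;
both have length at most `c` and letters in `S`. -/
def Step {G : Type} [Group G] (S : Set G) (c : ℕ) (w w' : List G) : Prop :=
  ∃ a x y d : List G, w = a ++ (x ++ d) ∧ w' = a ++ (y ++ d) ∧ x.prod = y.prod ∧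
    x.length ≤ c ∧ y.length ≤ c ∧ (∀ g ∈ x, g ∈ S) ∧ (∀ g ∈ y, g ∈ S)

/-- `Ar S c k w w'`: at most `k` moves lead from `w` to `w'`. -/
inductive Ar {G : Type} [Group G] (S : Set G) (c : ℕ) : ℕ → List G → List G → Prop
  | refl (k : ℕ) (w : List G) : Ar S c k w w
  | step {k : ℕ} {w w' w'' : List G} : Step S c w w' → Ar S c k w' w'' → Ar S c (k + 1) w w''

/-- Every null word in `S` is turned by quadratically many moves into a word in `S₀` of
linear length. -/
def Red {G : Type} [Group G] (S S₀ : Set G) : Prop :=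
  ∃ c C : ℕ, ∀ w : List G, (∀ g ∈ w, g ∈ S) → w.prod = 1 →
    ∃ w₀ : List G, (∀ g ∈ w₀, g ∈ S₀) ∧ w₀.length ≤ C * w.length + C ∧
      Ar S c (C * w.length ^ 2 + C) w w₀

/-- Every element of `Γ` is the product of a word in `S`. -/
def Gen {G : Type} [Group G] (S : Set G) (Γ : Set G) : Prop :=
  ∀ γ ∈ Γ, ∃ w : List G, (∀ g ∈ w, g ∈ S) ∧ w.prod = γ

/-- The word `g ^ n * (g ^ (-n) x g ^ n) * g ^ (-n)`, whose product is `x`. -/
def ray {G : Type} [Group G] (g : G) (n : ℕ) (x : G) : List G :=
  List.replicate n g ++ (g⁻¹ ^ n * x * g ^ n) :: List.replicate n g⁻¹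

/-! ### Presentations -/

/-- `w` is a product of at most `m` conjugates of elements of `rels` and their inverses. -/
def AreaLe {α : Type} (rels : Set (FreeGroup α)) (m : ℕ) (w : FreeGroup α) : Prop :=
  ∃ l : List (FreeGroup α × FreeGroup α), l.length ≤ m ∧
    (∀ p ∈ l, p.2 ∈ rels ∨ p.2⁻¹ ∈ rels) ∧ w = (l.map (fun p => p.1 * p.2 * p.1⁻¹)).prod

/-- The finite presentation `⟨Fin k ∣ rels⟩` satisfies a quadratic isoperimetric inequality. -/
def QPres (k : ℕ) (rels : Finset (FreeGroup (Fin k))) : Prop :=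
  ∃ C : ℕ, ∀ w : FreeGroup (Fin k),
    w ∈ Subgroup.normalClosure (rels : Set (FreeGroup (Fin k))) →
    AreaLe (rels : Set (FreeGroup (Fin k))) (C * (FreeGroup.norm w) ^ 2 + C) w

/-- `G` has a finite presentation with quadratic Dehn function. -/
def QuadDehn (G : Type) [Group G] : Prop :=
  ∃ (k : ℕ) (rels : Finset (FreeGroup (Fin k))), QPres k rels ∧
    Nonempty (G ≃* PresentedGroup (rels : Set (FreeGroup (Fin k))))

/-- `H` embeds in a group with a finite presentation with quadratic Dehn function. -/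
def EmbQD (H : Type) [Group H] : Prop :=
  ∃ (k : ℕ) (rels : Finset (FreeGroup (Fin k))), QPres k rels ∧
    ∃ f : H →* PresentedGroup (rels : Set (FreeGroup (Fin k))), Function.Injective f

/-! ### The combinatorial setting (rays over finitely many commuting factors) -/

/-- Subgroups `V i` (pairwise commuting), bounded sets `E i ⊆ V i`, a set `T` of letters
normalising the `V i`, and elements `A i j ∈ T` commuting with `T` which contract `E i` and
`E j`. -/
structure Setup (G I : Type) [Group G] where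
  V : I → Subgroup G
  E : I → Set G
  T : Set G
  A : I → I → G
  k0 : ℕ
  hEV : ∀ i, ∀ x ∈ E i, x ∈ V i
  hE1 : ∀ i, (1 : G) ∈ E i
  hTinv : ∀ t ∈ T, t⁻¹ ∈ T
  hAT : ∀ i j, A i j ∈ T
  hAcomm : ∀ i j, ∀ t ∈ T, A i j * t = t * A i j
  hVcomm : ∀ i j, i ≠ j → ∀ x ∈ V i, ∀ y ∈ V j, x * y = y * x
  hTV : ∀ t ∈ T, ∀ i, ∀ x ∈ V i, t * x * t⁻¹ ∈ V i
  hC1 : ∀ i j l, (l = i ∨ l = j) → ∀ x ∈ E l, (A i j)⁻¹ * x * A i j ∈ E l
  hC2 : ∀ i j l, (l = i ∨ l = j) → ∀ x ∈ E l, ∀ y ∈ E l,
    (A i j)⁻¹ ^ k0 * (x * y) * A i j ^ k0 ∈ E l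
  hC3 : ∀ i j l, (l = i ∨ l = j) → ∀ t ∈ T, ∀ x ∈ E l,
    (A i j)⁻¹ ^ k0 * (t * x * t⁻¹) * A i j ^ k0 ∈ E l

/-- The letters of the setting. -/
def Setup.S {G I : Type} [Group G] (D : Setup G I) : Set G := D.T ∪ ⋃ i, D.E i

/-- The normal form word: for every index of the list the ray word of `v i` along `A i i`. -/
def Setup.W {G I : Type} [Group G] (D : Setup G I) (is : List I) (n : ℕ) (v : I → G) : List G :=
  (is.map fun i => ray (D.A i i) n (v i)).flatten

/-- `v i ∈ V i` and `v i` has scale `n` along `A i i`, for all `i`. -/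
def Setup.Ok {G I : Type} [Group G] (D : Setup G I) (n : ℕ) (v : I → G) : Prop :=
  ∀ i, v i ∈ D.V i ∧ (D.A i i)⁻¹ ^ n * v i * D.A i i ^ n ∈ D.E i

/-! ### Powers of commuting elements -/

/-- The word `g ⋯ g` (`k` times) or `g⁻¹ ⋯ g⁻¹` (`-k` times). -/
def zb {G : Type} [Group G] (g : G) (k : ℤ) : List G :=
  if 0 ≤ k then List.replicate k.toNat g else List.replicate (-k).toNat g⁻¹

/-- The sorted word of `∏ z_j ^ k_j` over the list `js`. -/
def nf {G J : Type} [Group G] (z : J → G) (js : List J) (k : J → ℤ) : List G :=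
  (js.map fun j => zb (z j) (k j)).flatten

/-! ### Matrices -/

section mat
variable {ι : Type} [Fintype ι] [DecidableEq ι]

/-- Block unipotent matrices over `ℚ`: `g x y = δ x y` whenever `b y ≤ b x`. -/
def Vb (b : ι → ℕ) : Subgroup (GL ι ℚ) where
  carrier := {g | ∀ x y, b y ≤ b x → g.1 x y = (1 : Matrix ι ι ℚ) x y}
  one_mem' := fun x y _ => rfl
  mul_mem' := by
    intro g h hg hh x y hxy
    show (g.1 * h.1) x y = _
    rw [Matrix.mul_apply]
    have : ∀ z, g.1 x z * h.1 z y = (1 : Matrix ι ι ℚ) x z * (1 : Matrix ι ι ℚ) z y := by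
      intro z
      rcases le_or_gt (b z) (b x) with h1 | h1
      · rw [hg x z h1]
        rcases eq_or_ne x z with rfl | h2
        · rw [hh x y hxy]
        · rw [Matrix.one_apply_ne h2]; simp
      · rw [hh z y (hxy.trans h1.le)]
        have h2 : z ≠ y := by rintro rfl; omega
        have h3 : x ≠ z := by rintro rfl; omega
        rw [Matrix.one_apply_ne h2, Matrix.one_apply_ne h3]; simp
    rw [Finset.sum_congr rfl (fun z _ => this z), ← Matrix.mul_apply, one_mul]
  inv_mem' := by
    intro g hg x y hxy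
    have hbt : Matrix.BlockTriangular g.1 b := fun i j hij => by
      rw [hg i j hij.le, Matrix.one_apply_ne]; rintro rfl; omega
    have : Invertible g.1 := g.invertible
    have hbt' : Matrix.BlockTriangular (g.1)⁻¹ b :=
      Matrix.blockTriangular_inv_of_blockTriangular hbt
    have hinv : (g⁻¹).1 = (g.1)⁻¹ := by simp
    have hmul : (g⁻¹).1 * g.1 = 1 := by
      rw [← Units.val_mul, inv_mul_cancel]; rfl
    have h1 := congrFun (congrFun hmul x) y
    rw [Matrix.mul_apply] at h1
    have : ∀ z, (g⁻¹).1 x z * g.1 z y = (g⁻¹).1 x z * (1 : Matrix ι ι ℚ) z y := by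
      intro z
      rcases le_or_gt (b x) (b z) with h2 | h2
      · rw [hg z y (hxy.trans h2)]
      · rw [hinv, hbt' h2]; simp
    rw [Finset.sum_congr rfl (fun z _ => this z), ← Matrix.mul_apply, mul_one] at h1
    exact h1

/-- `g` and `g⁻¹` have entries in the subring `B`. -/
def GLB (B : Subring ℚ) : Subgroup (GL ι ℚ) where
  carrier := {g | (∀ x y, g.1 x y ∈ B) ∧ ∀ x y, (g⁻¹).1 x y ∈ B}
  one_mem' := by
    constructor <;> intro x y
    · show (1 : Matrix ι ι ℚ) x y ∈ B
      rw [Matrix.one_apply]; split_ifs; exacts [B.one_mem, B.zero_mem]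
    · rw [inv_one]
      show (1 : Matrix ι ι ℚ) x y ∈ B
      rw [Matrix.one_apply]; split_ifs; exacts [B.one_mem, B.zero_mem]
  mul_mem' := by
    intro g h hg hh
    constructor <;> intro x y
    · show (g.1 * h.1) x y ∈ B
      rw [Matrix.mul_apply]
      exact B.sum_mem fun z _ => B.mul_mem (hg.1 x z) (hh.1 z y)
    · rw [mul_inv_rev]
      show ((h⁻¹).1 * (g⁻¹).1) x y ∈ B
      rw [Matrix.mul_apply]
      exact B.sum_mem fun z _ => B.mul_mem (hh.2 x z) (hg.2 z y)
  inv_mem' := by
    intro g hg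
    exact ⟨hg.2, by rw [inv_inv]; exact hg.1⟩

end mat

/-! ### Places of `ℤ[1/m]` -/

/-- The `p`-adic absolute value on `ℚ` with values in `ℚ`. -/
noncomputable def padicAV (p : ℕ) [hp : Fact p.Prime] : AbsoluteValue ℚ ℚ where
  toFun := padicNorm p
  map_mul' := padicNorm.mul
  nonneg' := padicNorm.nonneg
  eq_zero' := fun x => ⟨padicNorm.zero_of_padicNorm_eq_zero, fun h => by rw [h]; simp⟩
  add_le' := fun x y => padicNorm.triangle_ineq x y

/-- The places: the real one and one for every prime divisor of `m`. -/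
abbrev Pl (m : ℕ) : Type := Option {p : ℕ // p ∈ m.primeFactors}

/-- The absolute value of a place. -/
noncomputable def av (m : ℕ) : Pl m → AbsoluteValue ℚ ℚ
  | none => AbsoluteValue.abs
  | some p => @padicAV p.1 ⟨Nat.prime_of_mem_primeFactors p.2⟩

/-- `ℤ[1/m]`: the rationals that are `p`-integral for all primes `p ∤ m`. -/
def Bm (m : ℕ) : Subring ℚ where
  carrier := {x | ∀ p : ℕ, p.Prime → ¬ p ∣ m → padicNorm p x ≤ 1}
  mul_mem' := by
    intro x y hx hy p hp hpm
    have : Fact p.Prime := ⟨hp⟩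
    rw [padicNorm.mul]
    exact mul_le_one₀ (hx p hp hpm) (padicNorm.nonneg _) (hy p hp hpm)
  one_mem' := by
    intro p hp _
    have : Fact p.Prime := ⟨hp⟩
    simp
  add_mem' := by
    intro x y hx hy p hp hpm
    have : Fact p.Prime := ⟨hp⟩
    exact (padicNorm.nonarchimedean).trans (max_le (hx p hp hpm) (hy p hp hpm))
  zero_mem' := by
    intro p hp _
    simp
  neg_mem' := by
    intro x hx p hp hpm
    have : Fact p.Prime := ⟨hp⟩
    rw [padicNorm.neg]
    exact hx p hp hpm

end QD
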