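import Pool.Agent.Helper24.QD.ONE

set_option autoImplicit false

/-! Final assembly: number fields, virtually abelian block diagonal parts. -/

namespace QD

theorem st_VAB (h1 : ST_VAB1) (h2 : ST_VAB2) (hP : ST_PRES) : ST_VAB := by
  intro L _ hL A hA hAc
  obtain ⟨r, z, R, a1, a2, a3⟩ := h1 L hL A hA hAc
  obtain ⟨S, b1, b2, b3, b4⟩ := h2 L r z R a1 a2 a3
  have hQ : QPres 0 ∅ := by
    refine ⟨0, ?_⟩
    intro w _
    refine ⟨[], by simp, by simp, ?_⟩
    exact Subsingleton.elim _ _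
  have hsub : Subsingleton (PresentedGroup ((∅ : Finset (FreeGroup (Fin 0))) :
      Set (FreeGroup (Fin 0)))) := by
    constructor
    intro x y
    obtain ⟨x, rfl⟩ := PresentedGroup.mk_surjective _ x
    obtain ⟨y, rfl⟩ := PresentedGroup.mk_surjective _ y
    rw [Subsingleton.elim x y]
  refine hP L S b1 b2 b3 0 ∅ hQ 1 (Function.injective_of_subsingleton _) (fun i => i.elim0) ?_
  have : {g : L | ∃ i : Fin 0, g = (1 : PresentedGroup ((∅ : Finset (FreeGroup (Fin 0))) :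
      Set (FreeGroup (Fin 0))) →* L) (PresentedGroup.of i) ∨
      g = ((1 : PresentedGroup ((∅ : Finset (FreeGroup (Fin 0))) :
      Set (FreeGroup (Fin 0))) →* L) (PresentedGroup.of i))⁻¹} = ∅ := by
    ext g
    constructor
    · rintro ⟨i, _⟩; exact i.elim0
    · intro h; exact absurd h (Set.notMem_empty g)
  rw [this]
  exact b4

/-- The lifting form over number fields. -/
theorem lift_form (hONE : ST_ONE) (hSCAL : ST_SCAL) (K : Type) [Field K] [NumberField K] (n : ℕ)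
    (b : Fin n → ℕ) (H : Subgroup (GL (Fin n) K)) (hH : H.FG)
    (hb : ∀ g ∈ H, ∀ x y, b y < b x → g.1 x y = 0)
    (L : Type) [Group L] (hL : QuadDehn L) (lam : H →* L) (th : L →* GL (Fin n) K)
    (h1 : ∀ l x y, b x ≠ b y → (th l).1 x y = 0)
    (h2 : ∀ (h : H) x y, b x = b y → (th (lam h)).1 x y = h.1.1 x y) : EmbQD H := by
  obtain ⟨d, f, F, hf, hfF⟩ := hSCAL K n
  refine hONE (Fin n × Fin d) (fun p => b p.1) H L ((Group.fg_iff_subgroup_fg H).2 hH) hL
    (f.comp H.subtype) lam (f.comp th) (hf.comp H.subtype_injective) ?_ ?_ ?_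
  · rintro h ⟨x, s⟩ ⟨y, t⟩ hxy
    show (f h.1).1 (x, s) (y, t) = 0
    rw [hfF, hb h.1 h.2 x y hxy, map_zero]; rfl
  · rintro l ⟨x, s⟩ ⟨y, t⟩ hxy
    show (f (th l)).1 (x, s) (y, t) = 0
    rw [hfF, h1 l x y hxy, map_zero]; rfl
  · rintro h ⟨x, s⟩ ⟨y, t⟩ hxy
    show (f (th (lam h))).1 (x, s) (y, t) = (f h.1).1 (x, s) (y, t)
    rw [hfF, hfF, h2 h x y hxy]

/-- Virtually abelian block diagonal part. -/
theorem vab_form (hONE : ST_ONE) (hSCAL : ST_SCAL) (hDIA : ST_DIA) (hVAB : ST_VAB)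
    (K : Type) [Field K] [NumberField K] (n : ℕ)
    (b : Fin n → ℕ) (H : Subgroup (GL (Fin n) K)) (hH : H.FG)
    (hb : ∀ g ∈ H, ∀ x y, b y < b x → g.1 x y = 0)
    (H₀ : Subgroup H) (hfi : H₀.FiniteIndex)
    (hcomm : ∀ g ∈ H₀, ∀ h ∈ H₀, ∀ x y, b x = b y → (g * h).1.1 x y = (h * g).1.1 x y) :
    EmbQD H := by
  obtain ⟨D, hD⟩ := hDIA K n b H hb
  have hFGH : Group.FG H := (Group.fg_iff_subgroup_fg H).2 hH
  have hrange : Group.FG D.range := Group.fg_range D
  have hfi' : (H₀.map D.rangeRestrict).FiniteIndex := by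
    constructor
    rw [Subgroup.index_map]
    have h1 : D.rangeRestrict.range = ⊤ :=
      MonoidHom.range_eq_top.2 D.rangeRestrict_surjective
    rw [h1, Subgroup.index_top, mul_one]
    exact (Subgroup.finiteIndex_of_le (le_sup_left : H₀ ≤ H₀ ⊔ D.rangeRestrict.ker)).index_ne_zero
  have hQD : QuadDehn D.range := by
    refine hVAB D.range hrange _ hfi' ?_
    rintro _ ⟨g, hg, rfl⟩ _ ⟨h, hh, rfl⟩
    rw [← map_mul, ← map_mul]
    apply Subtype.ext
    show D (g * h) = D (h * g)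
    apply Units.ext
    ext x y
    rw [hD, hD]
    split_ifs with hxy
    · exact hcomm g hg h hh x y hxy
    · rfl
  refine lift_form hONE hSCAL K n b H hH hb D.range hQD D.rangeRestrict D.range.subtype ?_ ?_
  · rintro ⟨_, h, rfl⟩ x y hxy
    show (D h).1 x y = 0
    rw [hD, if_neg hxy]
  · intro h x y hxy
    show (D h).1 x y = h.1.1 x y
    rw [hD, if_pos hxy]

end QD
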