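import Pool.Agent.Helper24.QD.Stmts2

set_option autoImplicit false

/-! The invariant flag with virtually commutative layers. -/

namespace QD

/-- One layer: the span of the common eigenvectors of a normal subgroup of finite index. -/
theorem flg_layer (hEIG : ST_EIG) {F V G : Type} [Field F] [IsAlgClosed F] [AddCommGroup V]
    [Module F V] [FiniteDimensional F V] [Nontrivial V] [Group G] (ρ : G →* Module.End F V)
    (G₁ : Subgroup G) (h1 : G₁.FiniteIndex) (hs : Group.IsSolvable G₁) :
    ∃ (N : Subgroup G) (U : Submodule F V), N.FiniteIndex ∧ U ≠ ⊥ ∧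
      (∀ g, ∀ u ∈ U, ρ g u ∈ U) ∧
      (∀ g ∈ N, ∀ h ∈ N, ∀ u ∈ U, ρ (g * h) u = ρ (h * g) u) := by
  obtain ⟨G₀, v, hfi, hv, hev⟩ := hEIG F V G₁ (ρ.comp G₁.subtype) hs
  have hfi' : (G₀.map G₁.subtype).FiniteIndex := by
    constructor
    rw [Subgroup.index_map_subtype]
    exact mul_ne_zero hfi.index_ne_zero h1.index_ne_zero
  let N : Subgroup G := (G₀.map G₁.subtype).normalCore
  have hNn : N.Normal := Subgroup.normalCore_normal _
  have hNfi : N.FiniteIndex := inferInstanceAs (G₀.map G₁.subtype).normalCore.FiniteIndex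
  let E : Set V := {w | ∀ g ∈ N, ∃ c : F, ρ g w = c • w}
  have hvE : v ∈ E := by
    intro g hg
    obtain ⟨g', hg', rfl⟩ := Subgroup.normalCore_le _ hg
    exact hev g' hg'
  refine ⟨N, Submodule.span F E, hNfi, ?_, ?_, ?_⟩
  · intro hbot
    apply hv
    rw [← Submodule.mem_bot F, ← hbot]
    exact Submodule.subset_span hvE
  · intro h u hu
    have hle : Submodule.span F E ≤ (Submodule.span F E).comap (ρ h) := by
      rw [Submodule.span_le]
      intro w hw
      show ρ h w ∈ Submodule.span F E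
      apply Submodule.subset_span
      intro g hg
      have hg' : h⁻¹ * g * h ∈ N := by
        have := hNn.conj_mem g hg h⁻¹
        rwa [inv_inv] at this
      obtain ⟨c, hc⟩ := hw _ hg'
      refine ⟨c, ?_⟩
      calc ρ g (ρ h w) = ρ (g * h) w := by rw [map_mul]; rfl
        _ = ρ (h * (h⁻¹ * g * h)) w := by
          congr 2
          group
        _ = ρ h (ρ (h⁻¹ * g * h) w) := by rw [map_mul]; rfl
        _ = c • ρ h w := by rw [hc, map_smul]
    exact hle hu
  · intro g hg h hh u hu
    have hle : Submodule.span F E ≤ LinearMap.eqLocus (ρ (g * h)) (ρ (h * g)) := by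
      rw [Submodule.span_le]
      intro w hw
      show ρ (g * h) w = ρ (h * g) w
      obtain ⟨c, hc⟩ := hw g hg
      obtain ⟨d, hd⟩ := hw h hh
      rw [map_mul, map_mul]
      show ρ g (ρ h w) = ρ h (ρ g w)
      rw [hc, hd, map_smul, map_smul, hc, hd, smul_comm]
    exact hle hu

theorem flg_aux (hEIG : ST_EIG) (F G : Type) [Field F] [IsAlgClosed F] [Group G]
    (G₁ : Subgroup G) (h1 : G₁.FiniteIndex) (hs : Group.IsSolvable G₁) (d : ℕ) :
    ∀ (V : Type) [AddCommGroup V] [Module F V] [FiniteDimensional F V] (ρ : G →* Module.End F V),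
    Module.finrank F V ≤ d →
    ∃ (N : Subgroup G) (n : ℕ) (β : Module.Basis (Fin n) F V) (b : Fin n → ℕ), N.FiniteIndex ∧
      (∀ g x y, b y < b x → β.repr (ρ g (β y)) x = 0) ∧
      (∀ g ∈ N, ∀ h ∈ N, ∀ x y, b x = b y →
        β.repr (ρ (g * h) (β y)) x = β.repr (ρ (h * g) (β y)) x) := by
  have triv : ∀ (V : Type) [AddCommGroup V] [Module F V] [FiniteDimensional F V]
      (ρ : G →* Module.End F V), Subsingleton V →
      ∃ (N : Subgroup G) (n : ℕ) (β : Module.Basis (Fin n) F V) (b : Fin n → ℕ),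
      N.FiniteIndex ∧
      (∀ g x y, b y < b x → β.repr (ρ g (β y)) x = 0) ∧
      (∀ g ∈ N, ∀ h ∈ N, ∀ x y, b x = b y →
        β.repr (ρ (g * h) (β y)) x = β.repr (ρ (h * g) (β y)) x) := by
    intro V _ _ _ ρ hV
    refine ⟨⊤, 0, Module.Basis.empty V, fun _ => 0, inferInstance, ?_, ?_⟩
    · intro g x; exact x.elim0
    · intro g _ h _ x; exact x.elim0
  induction d with
  | zero =>
    intro V _ _ _ ρ hd
    exact triv V ρ (Module.finrank_zero_iff.1 (Nat.le_zero.1 hd))
  | succ d ih =>
    intro V _ _ _ ρ hd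
    rcases subsingleton_or_nontrivial V with hV | hV
    · exact triv V ρ hV
    obtain ⟨N₁, U, hN₁, hU, hinv, hcom⟩ := flg_layer hEIG ρ G₁ h1 hs
    let ρq : G →* Module.End F (V ⧸ U) :=
      { toFun := fun g => U.mapQ U (ρ g) (fun u hu => hinv g u hu)
        map_one' := by
          apply Submodule.linearMap_qext
          ext v
          show Submodule.Quotient.mk (ρ 1 v) = _
          rw [map_one]
          rfl
        map_mul' := by
          intro g h
          apply Submodule.linearMap_qext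
          ext v
          show Submodule.Quotient.mk (ρ (g * h) v) = _
          rw [map_mul]
          rfl }
    have hfr : Module.finrank F (V ⧸ U) ≤ d := by
      have h2 := U.finrank_quotient_add_finrank
      have h3 : 1 ≤ Module.finrank F U := Submodule.one_le_finrank_iff.2 hU
      omega
    obtain ⟨N₂, n₂, β₂, b₂, hN₂, hb₂, hc₂⟩ := ih (V ⧸ U) ρq hfr
    let m := Module.finrank F U
    let βU : Module.Basis (Fin m) F U := Module.finBasis F U
    let β' : Module.Basis (Fin m ⊕ Fin n₂) F V := Module.Basis.sumQuot βU β₂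
    let b' : Fin m ⊕ Fin n₂ → ℕ := Sum.elim (fun _ => 0) (fun j => b₂ j + 1)
    have hinl : ∀ i, β' (Sum.inl i) = βU i := fun i => Module.Basis.sumQuot_inl βU β₂ i
    have hinr : ∀ j, (Submodule.Quotient.mk (β' (Sum.inr j)) : V ⧸ U) = β₂ j :=
      fun j => Module.Basis.sumQuot_inr βU β₂ j
    have hmk : ∀ (g : G) (v : V), (U.mkQ (ρ g v) : V ⧸ U) = ρq g (Submodule.Quotient.mk v) :=
      fun g v => rfl
    -- the entries
    have hb' : ∀ g x y, b' y < b' x → β'.repr (ρ g (β' y)) x = 0 := by
      intro g x y hxy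
      rcases x with x | x
      · exact absurd hxy (Nat.not_lt_zero _)
      · have h3 : β'.repr (ρ g (β' y)) (Sum.inr x) = β₂.repr (U.mkQ (ρ g (β' y))) x :=
          Module.Basis.sumQuot_repr_inr βU β₂ _ x
        rw [h3]
        rcases y with y | y
        · have h4 : U.mkQ (ρ g (β' (Sum.inl y))) = 0 := by
            rw [hinl]
            exact (Submodule.Quotient.mk_eq_zero U).2 (hinv g _ (βU y).2)
          rw [h4]
          simp
        · rw [hmk, hinr]
          exact hb₂ g x y (Nat.lt_of_succ_lt_succ hxy)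
    have hc' : ∀ g ∈ N₁ ⊓ N₂, ∀ h ∈ N₁ ⊓ N₂, ∀ x y, b' x = b' y →
        β'.repr (ρ (g * h) (β' y)) x = β'.repr (ρ (h * g) (β' y)) x := by
      intro g hg h hh x y hxy
      rcases x with x | x <;> rcases y with y | y
      · rw [hinl, hcom g hg.1 h hh.1 _ (βU y).2]
      · exact absurd hxy (Nat.succ_ne_zero _).symm
      · exact absurd hxy (Nat.succ_ne_zero _)
      · have h3 : ∀ k : G, β'.repr (ρ k (β' (Sum.inr y))) (Sum.inr x) =
            β₂.repr (ρq k (β₂ y)) x := by
          intro k
          have h4 : β'.repr (ρ k (β' (Sum.inr y))) (Sum.inr x) =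
              β₂.repr (U.mkQ (ρ k (β' (Sum.inr y)))) x :=
            Module.Basis.sumQuot_repr_inr βU β₂ _ x
          rw [h4, hmk, hinr]
        rw [h3, h3]
        exact hc₂ g hg.2 h hh.2 x y (Nat.succ_injective hxy)
    let e : Fin m ⊕ Fin n₂ ≃ Fin (m + n₂) := finSumFinEquiv
    refine ⟨N₁ ⊓ N₂, m + n₂, β'.reindex e, b' ∘ e.symm, inferInstance, ?_, ?_⟩
    · intro g x y hxy
      rw [Module.Basis.reindex_apply, Module.Basis.repr_reindex_apply]
      exact hb' g _ _ hxy
    · intro g hg h hh x y hxy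
      rw [Module.Basis.reindex_apply, Module.Basis.repr_reindex_apply,
        Module.Basis.repr_reindex_apply]
      exact hc' g hg h hh _ _ hxy

theorem st_FLG (hEIG : ST_EIG) : ST_FLG := by
  intro F V G _ _ _ _ _ _ ρ G₁ h1 hs
  exact flg_aux hEIG F G G₁ h1 hs (Module.finrank F V) V ρ le_rfl

end QD
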