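import Pool.Agent.Helper24.QD.Glob

/-! GF: rational function fields over finite fields have arithmetic data. -/

set_option autoImplicit false

namespace QD

open IsDedekindDomain HeightOneSpectrum Polynomial WithZero
open scoped NNReal

theorem gf_two : (1 : ℝ≥0) < 2 := one_lt_two

/-- the real absolute value with base 2 attached to a valuation -/
noncomputable def avV {k : Type} [Field k] (v : Valuation k ℤᵐ⁰) : AbsoluteValue k ℝ where
  toFun x := (WithZeroMulInt.toNNReal (ne_zero_of_lt gf_two) (v x) : ℝ≥0)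
  map_mul' x y := by simp
  nonneg' _ := NNReal.coe_nonneg _
  eq_zero' x := by simp
  add_le' x y := by
    have hm := (WithZeroMulInt.toNNReal_strictMono gf_two).monotone
    have h1 := hm (v.map_add x y)
    rw [hm.map_max] at h1
    have h2 : max (WithZeroMulInt.toNNReal (ne_zero_of_lt gf_two) (v x))
        (WithZeroMulInt.toNNReal (ne_zero_of_lt gf_two) (v y)) ≤
        WithZeroMulInt.toNNReal (ne_zero_of_lt gf_two) (v x) +
        WithZeroMulInt.toNNReal (ne_zero_of_lt gf_two) (v y) :=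
      max_le (le_add_of_nonneg_right bot_le) (le_add_of_nonneg_left bot_le)
    exact_mod_cast h1.trans h2

theorem avV_le_one {k : Type} [Field k] (v : Valuation k ℤᵐ⁰) (x : k) :
    avV v x ≤ 1 ↔ v x ≤ 1 := by
  show ((WithZeroMulInt.toNNReal (ne_zero_of_lt gf_two) (v x) : ℝ≥0) : ℝ) ≤ 1 ↔ _
  rw [← NNReal.coe_one, NNReal.coe_le_coe]
  exact WithZeroMulInt.toNNReal_le_one_iff gf_two

theorem one_lt_avV {k : Type} [Field k] (v : Valuation k ℤᵐ⁰) (x : k) :
    1 < avV v x ↔ 1 < v x := by
  rw [← not_le, avV_le_one, not_le]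

theorem avV_le_pow {k : Type} [Field k] (v : Valuation k ℤᵐ⁰) (x : k) (K : ℕ)
    (h : avV v x ≤ 2 ^ K) : v x ≤ exp (K : ℤ) := by
  have h1 : ((WithZeroMulInt.toNNReal (ne_zero_of_lt gf_two) (v x) : ℝ≥0) : ℝ) ≤ 2 ^ K := h
  have h2 : WithZeroMulInt.toNNReal (ne_zero_of_lt gf_two) (exp (K : ℤ)) = 2 ^ K := by
    rw [WithZeroMulInt.toNNReal_neg_apply _ exp_ne_zero]
    exact zpow_natCast (2 : ℝ≥0) K
  have h3 : WithZeroMulInt.toNNReal (ne_zero_of_lt gf_two) (v x) ≤
      WithZeroMulInt.toNNReal (ne_zero_of_lt gf_two) (exp (K : ℤ)) := by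
    rw [h2]
    exact_mod_cast h1
  exact (WithZeroMulInt.toNNReal_strictMono gf_two).le_iff_le.1 h3

/-- approximation at finitely many primes of a Dedekind domain -/
theorem gf_fin (R K : Type) [CommRing R] [IsDedekindDomain R] [Field K] [Algebra R K]
    [IsFractionRing R K] (P : Finset (HeightOneSpectrum R)) (x : HeightOneSpectrum R → K) :
    ∃ γ : K, (∀ v ∈ P, v.valuation K (x v - γ) ≤ 1) ∧ ∀ v ∉ P, v.valuation K γ ≤ 1 := by
  classical
  obtain ⟨⟨D, hD⟩, hDx⟩ := IsLocalization.exist_integer_multiples_of_finset (nonZeroDivisors R)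
    (P.image x)
  have hD0 : D ≠ 0 := nonZeroDivisors.ne_zero hD
  have hDK : algebraMap R K D ≠ 0 := by
    simpa using hD0
  have hy : ∀ v : HeightOneSpectrum R, ∃ y : R, v ∈ P → algebraMap R K y = algebraMap R K D * x v := by
    intro v
    by_cases hv : v ∈ P
    · obtain ⟨y, hy⟩ := hDx (x v) (Finset.mem_image_of_mem x hv)
      refine ⟨y, fun _ => ?_⟩
      rw [hy]
      exact Algebra.smul_def _ _
    · exact ⟨0, fun h => absurd h hv⟩
  choose y hy using hy
  have he : ∀ v : HeightOneSpectrum R, ∃ e : ℕ, v.intValuation D = exp (-(e : ℤ)) := fun v =>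
    ⟨_, v.intValuation_if_neg hD0⟩
  choose e he using he
  set s : Finset (HeightOneSpectrum R) := P ∪ (Support.finite R ((algebraMap R K D)⁻¹)).toFinset
    with hs
  obtain ⟨z, hz⟩ := IsDedekindDomain.exists_forall_sub_mem_ideal (s := s) (fun v => v.asIdeal) e
    (fun v _ => v.prime) (fun v _ w _ hvw h => hvw (HeightOneSpectrum.ext h))
    (fun v => if (v : HeightOneSpectrum R) ∈ P then y v else 0)
  have hkey : ∀ v : HeightOneSpectrum R, ∀ a : R, a ∈ v.asIdeal ^ e v →
      v.valuation K (algebraMap R K a / algebraMap R K D) ≤ 1 := by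
    intro v a ha
    rw [map_div₀, valuation_of_algebraMap, valuation_of_algebraMap, he v]
    have h1 := (v.intValuation_le_pow_iff_mem a (e v)).2 ha
    exact div_le_one_of_le₀ h1 zero_le
  refine ⟨algebraMap R K z / algebraMap R K D, ?_, ?_⟩
  · intro v hv
    have h1 := hz v (Finset.mem_union_left _ hv)
    simp only [hv, if_true] at h1
    have h2 := hkey v (z - y v) h1
    have e1 : x v - algebraMap R K z / algebraMap R K D
        = -(algebraMap R K (z - y v) / algebraMap R K D) := by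
      rw [map_sub, hy v hv]
      field_simp
      ring
    rw [e1, Valuation.map_neg]
    exact h2
  · intro v hv
    by_cases hvs : v ∈ s
    · have h1 := hz v hvs
      simp only [hv, if_false, sub_zero] at h1
      exact hkey v z h1
    · have h1 : ¬ (1 < v.valuation K ((algebraMap R K D)⁻¹)) := by
        intro h
        exact hvs (Finset.mem_union_right _ ((Set.Finite.mem_toFinset _).2 h))
      rw [not_lt] at h1
      rw [div_eq_mul_inv, map_mul]
      exact mul_le_one' (v.valuation_le_one z) h1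

open Classical in
/-- approximation at infinity -/
theorem gf_inf (F : Type) [Field F] (x : RatFunc F) :
    ∃ q : F[X], RatFunc.inftyValuation F (x - algebraMap F[X] (RatFunc F) q) ≤ 1 := by
  refine ⟨x.num / x.denom, ?_⟩
  have hd : x.denom ≠ 0 := RatFunc.denom_ne_zero x
  have hdK : algebraMap F[X] (RatFunc F) x.denom ≠ 0 := by simpa using hd
  have e1 : x - algebraMap F[X] (RatFunc F) (x.num / x.denom)
      = algebraMap F[X] (RatFunc F) (x.num % x.denom) / algebraMap F[X] (RatFunc F) x.denom := by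
    have h1 : algebraMap F[X] (RatFunc F) x.num
        = algebraMap F[X] (RatFunc F) x.denom * algebraMap F[X] (RatFunc F) (x.num / x.denom)
          + algebraMap F[X] (RatFunc F) (x.num % x.denom) := by
      rw [← map_mul, ← map_add, EuclideanDomain.div_add_mod]
    conv_lhs => rw [← RatFunc.num_div_denom x]
    rw [RatFunc.num_div_denom x]
    rw [eq_div_iff hdK, sub_mul]
    have h2 : x * algebraMap F[X] (RatFunc F) x.denom = algebraMap F[X] (RatFunc F) x.num := by
      conv_lhs => rw [← RatFunc.num_div_denom x]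
      rw [RatFunc.num_div_denom x]
      conv_lhs => lhs; rw [← RatFunc.num_div_denom x]
      exact div_mul_cancel₀ _ hdK
    rw [h2, h1]
    ring
  rw [e1, map_div₀]
  by_cases hr : x.num % x.denom = 0
  · rw [hr]
    simp
  · have h1 : (x.num % x.denom).natDegree < x.denom.natDegree :=
      Polynomial.natDegree_lt_natDegree hr (EuclideanDomain.mod_lt x.num hd)
    rw [RatFunc.inftyValuation_apply, RatFunc.inftyValuation_apply,
      RatFunc.inftyValuation.polynomial F hr, RatFunc.inftyValuation.polynomial F hd]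
    refine div_le_one_of_le₀ ?_ zero_le
    rw [exp_le_exp]
    exact_mod_cast h1.le

/-- finitely many elements have bounded absolute values -/
theorem gf_degfin (F : Type) [Field F] [Finite F] (N : ℕ) :
    {q : F[X] | q.natDegree ≤ N}.Finite := by
  have : Set.InjOn (fun (q : F[X]) (i : Fin (N + 1)) => q.coeff i) {q : F[X] | q.natDegree ≤ N} := by
    intro q hq r hr h
    ext n
    by_cases hn : n ≤ N
    · exact congrFun h ⟨n, by omega⟩
    · rw [Polynomial.coeff_eq_zero_of_natDegree_lt (by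
        have : q.natDegree ≤ N := hq
        omega), Polynomial.coeff_eq_zero_of_natDegree_lt (by
        have : r.natDegree ≤ N := hr
        omega)]
  exact Set.Finite.of_injOn (fun _ _ => Set.mem_univ _) this Set.finite_univ

open Classical in
theorem gf_bdd (F : Type) [Field F] [Finite F] (P : Finset (HeightOneSpectrum F[X])) (K : ℕ) :
    {β : RatFunc F | (∀ v ∉ P, v.valuation (RatFunc F) β ≤ 1) ∧
      (∀ v ∈ P, v.valuation (RatFunc F) β ≤ exp (K : ℤ)) ∧
      RatFunc.inftyValuation F β ≤ exp (K : ℤ)}.Finite := by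
  have hu : ∀ v : HeightOneSpectrum F[X], ∃ π : F[X],
      v.valuation (RatFunc F) (algebraMap F[X] (RatFunc F) π) = exp (-1 : ℤ) := fun v =>
    v.valuation_exists_uniformizer' (RatFunc F)
  choose π hπ using hu
  have hπ0 : ∀ v, π v ≠ 0 := by
    intro v h
    have := hπ v
    rw [h, map_zero, map_zero] at this
    exact exp_ne_zero this.symm
  set M : F[X] := ∏ v ∈ P, π v ^ K with hM
  have hM0 : M ≠ 0 := Finset.prod_ne_zero_iff.2 fun v _ => pow_ne_zero _ (hπ0 v)
  have hMK : algebraMap F[X] (RatFunc F) M ≠ 0 := by simpa using hM0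
  have hMv : ∀ v ∈ P, v.valuation (RatFunc F) (algebraMap F[X] (RatFunc F) M)
      ≤ exp (-(K : ℤ)) := by
    intro v hv
    rw [hM, ← Finset.mul_prod_erase P _ hv, map_mul, map_mul]
    have h1 : v.valuation (RatFunc F) (algebraMap F[X] (RatFunc F) (π v ^ K))
        = exp (-(K : ℤ)) := by
      rw [map_pow, map_pow, hπ v, ← exp_nsmul]
      simp
    rw [h1]
    exact mul_le_of_le_one_right' (v.valuation_le_one _)
  refine ((gf_degfin F (M.natDegree + K)).image
    (fun q => algebraMap F[X] (RatFunc F) q / algebraMap F[X] (RatFunc F) M)).subset ?_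
  rintro β ⟨h1, h2, h3⟩
  have hint : algebraMap F[X] (RatFunc F) M * β ∈ (algebraMap F[X] (RatFunc F)).range := by
    apply mem_integers_of_valuation_le_one (R := F[X]) (RatFunc F)
    intro v
    rw [map_mul]
    by_cases hv : v ∈ P
    · calc v.valuation (RatFunc F) (algebraMap F[X] (RatFunc F) M) * v.valuation (RatFunc F) β
          ≤ exp (-(K : ℤ)) * exp (K : ℤ) := mul_le_mul' (hMv v hv) (h2 v hv)
        _ = 1 := by
            rw [← exp_add]
            simp
    · exact mul_le_one' (v.valuation_le_one _) (h1 v hv)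
  obtain ⟨q, hq⟩ := hint
  refine ⟨q, ?_, ?_⟩
  · show q.natDegree ≤ M.natDegree + K
    by_cases hq0 : q = 0
    · rw [hq0]
      simp
    have h4 : RatFunc.inftyValuation F (algebraMap F[X] (RatFunc F) q)
        ≤ exp ((M.natDegree : ℤ) + K) := by
      rw [hq, map_mul, exp_add]
      refine mul_le_mul' ?_ h3
      rw [RatFunc.inftyValuation_apply, RatFunc.inftyValuation.polynomial F hM0]
    rw [RatFunc.inftyValuation_apply, RatFunc.inftyValuation.polynomial F hq0, exp_le_exp] at h4
    exact_mod_cast h4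
  · show algebraMap F[X] (RatFunc F) q / algebraMap F[X] (RatFunc F) M = β
    rw [hq]
    field_simp

open Classical in
/-- rational function fields over finite fields -/
theorem gf (F : Type) [Field F] [Finite F] : IsGlob (RatFunc F) := by
  intro S hS
  have hX1 : (X + 1 : F[X]) ≠ 0 := by
    rw [← Polynomial.C_1]
    exact Polynomial.X_add_C_ne_zero 1
  set i := algebraMap F[X] (RatFunc F) with hi
  have hi0 : ∀ q : F[X], q ≠ 0 → i q ≠ 0 := fun q hq =>
    (map_ne_zero_iff _ (IsFractionRing.injective F[X] (RatFunc F))).2 hq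
  have hfin : (Support F[X] ((i X)⁻¹) ∪ Support F[X] ((i (X + 1))⁻¹) ∪
      ⋃ f ∈ S, Support F[X] f : Set (HeightOneSpectrum F[X])).Finite :=
    ((Support.finite F[X] _).union (Support.finite F[X] _)).union
      (hS.biUnion fun f _ => Support.finite F[X] f)
  set P : Finset (HeightOneSpectrum F[X]) := hfin.toFinset with hP
  have hPmem : ∀ v, v ∈ P ↔ (1 < v.valuation (RatFunc F) ((i X)⁻¹) ∨
      1 < v.valuation (RatFunc F) ((i (X + 1))⁻¹)) ∨ ∃ f ∈ S, 1 < v.valuation (RatFunc F) f := by
    intro v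
    rw [hP, Set.Finite.mem_toFinset]
    simp only [Set.mem_union, Set.mem_iUnion, exists_prop]
    rfl
  set w := RatFunc.inftyValuation F with hw
  -- generators
  have hgen : ∀ v : HeightOneSpectrum F[X], ∃ π : F[X], π ≠ 0 ∧
      v.valuation (RatFunc F) (i π) < 1 ∧ (∀ u, u ≠ v → u.valuation (RatFunc F) (i π) = 1) := by
    intro v
    have hpr : v.asIdeal.IsPrincipal := IsPrincipalIdealRing.principal v.asIdeal
    obtain ⟨π, hπ⟩ := hpr
    have hπ' : v.asIdeal = Ideal.span {π} := hπ
    refine ⟨π, ?_, ?_, ?_⟩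
    · intro h
      apply v.ne_bot
      rw [hπ', h, Ideal.span_singleton_eq_bot]
    · rw [valuation_lt_one_iff_mem, hπ']
      exact Ideal.mem_span_singleton_self π
    · intro u hu
      rw [valuation_eq_one_iff_notMem]
      intro h
      apply hu
      have h1 : v.asIdeal ≤ u.asIdeal := by
        rw [hπ', Ideal.span_singleton_le_iff_mem]
        exact h
      have h2 := v.isMaximal.eq_of_le u.isPrime.ne_top h1
      exact (HeightOneSpectrum.ext h2).symm
  choose π hπ0 hπ1 hπ2 using hgen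
  have hπi : ∀ v, i (π v) ≠ 0 := fun v => by simpa [hi] using hπ0 v
  have hpos : ∀ (v : HeightOneSpectrum F[X]) (x : RatFunc F), x ≠ 0 →
      0 < v.valuation (RatFunc F) x := fun v x hx =>
    zero_lt_iff.2 ((Valuation.ne_zero_iff _).2 hx)
  -- the ring
  let B : Subring (RatFunc F) :=
    { carrier := {f | ∀ v ∉ P, v.valuation (RatFunc F) f ≤ 1}
      mul_mem' := fun {a b} ha hb v hv => by
        rw [map_mul]
        exact mul_le_one' (ha v hv) (hb v hv)
      one_mem' := fun v _ => by rw [map_one]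
      add_mem' := fun {a b} ha hb v hv => (v.valuation (RatFunc F)).map_add_le (ha v hv) (hb v hv)
      zero_mem' := fun v _ => by
        rw [map_zero]
        exact zero_le
      neg_mem' := fun {a} ha v hv => by
        rw [Valuation.map_neg]
        exact ha v hv }
  have hBmem : ∀ f, f ∈ B ↔ ∀ v ∉ P, v.valuation (RatFunc F) f ≤ 1 := fun f => Iff.rfl
  have hunit : ∀ f : RatFunc F, (∀ v ∉ P, v.valuation (RatFunc F) f = 1) → f ∈ B ∧ f⁻¹ ∈ B := by
    intro f hf
    refine ⟨fun v hv => (hf v hv).le, fun v hv => ?_⟩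
    rw [map_inv₀, hf v hv, inv_one]
  have hXval : ∀ v ∉ P, v.valuation (RatFunc F) (i X) = 1 := by
    intro v hv
    rw [hPmem] at hv
    push Not at hv
    have h1 := hv.1.1
    rw [map_inv₀] at h1
    have h2 : v.valuation (RatFunc F) (i X) ≤ 1 := v.valuation_le_one X
    exact le_antisymm h2 ((inv_le_one₀ (hpos v _ (hi0 _ Polynomial.X_ne_zero))).1 h1)
  have hX1val : ∀ v ∉ P, v.valuation (RatFunc F) (i (X + 1)) = 1 := by
    intro v hv
    rw [hPmem] at hv
    push Not at hv
    have h1 := hv.1.2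
    rw [map_inv₀] at h1
    have h2 : v.valuation (RatFunc F) (i (X + 1)) ≤ 1 := v.valuation_le_one (X + 1)
    exact le_antisymm h2 ((inv_le_one₀ (hpos v _ (hi0 _ hX1))).1 h1)
  have hπval : ∀ u ∉ P, ∀ v ∈ P, u.valuation (RatFunc F) (i (π v)) = 1 := by
    intro u hu v hv
    exact hπ2 v u (fun h => hu (h ▸ hv))
  have hUfin : ∀ v ∈ P, ∀ v' ∈ P, ∃ α : (RatFunc F)ˣ, (α : RatFunc F) ∈ B ∧
      ((α⁻¹ : (RatFunc F)ˣ) : RatFunc F) ∈ B ∧ 1 < v.valuation (RatFunc F) (α : RatFunc F) ∧
      1 < v'.valuation (RatFunc F) (α : RatFunc F) := by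
    intro v hv v' hv'
    have h0 : (i (π v) * i (π v'))⁻¹ ≠ 0 := inv_ne_zero (mul_ne_zero (hπi v) (hπi v'))
    have h1 := hunit ((i (π v) * i (π v'))⁻¹) (fun u hu => by
      rw [map_inv₀, map_mul, hπval u hu v hv, hπval u hu v' hv', mul_one, inv_one])
    refine ⟨Units.mk0 _ h0, h1.1, ?_, ?_, ?_⟩
    · rw [Units.val_inv_eq_inv_val]
      exact h1.2
    · show 1 < v.valuation (RatFunc F) ((i (π v) * i (π v'))⁻¹)
      rw [map_inv₀, one_lt_inv₀ (hpos v _ (mul_ne_zero (hπi v) (hπi v'))), map_mul]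
      exact lt_of_le_of_lt (mul_le_of_le_one_right' (v.valuation_le_one _)) (hπ1 v)
    · show 1 < v'.valuation (RatFunc F) ((i (π v) * i (π v'))⁻¹)
      rw [map_inv₀, one_lt_inv₀ (hpos v' _ (mul_ne_zero (hπi v) (hπi v'))), map_mul]
      exact lt_of_le_of_lt (mul_le_of_le_one_left' (v'.valuation_le_one _)) (hπ1 v')
  have hUinf : ∀ v ∈ P, ∃ α : (RatFunc F)ˣ, (α : RatFunc F) ∈ B ∧
      ((α⁻¹ : (RatFunc F)ˣ) : RatFunc F) ∈ B ∧ 1 < w (α : RatFunc F) ∧
      1 < v.valuation (RatFunc F) (α : RatFunc F) := by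
    intro v hv
    have hσ : ∃ σ : F[X], σ ≠ 0 ∧ σ.natDegree = 1 ∧ v.valuation (RatFunc F) (i σ) = 1 ∧
        ∀ u ∉ P, u.valuation (RatFunc F) (i σ) = 1 := by
      by_cases hXv : X ∈ v.asIdeal
      · refine ⟨X + 1, hX1, ?_, ?_, hX1val⟩
        · rw [← Polynomial.C_1]
          exact Polynomial.natDegree_X_add_C 1
        · rw [valuation_eq_one_iff_notMem]
          intro h
          apply v.isPrime.ne_top
          rw [Ideal.eq_top_iff_one]
          have : (1 : F[X]) = (X + 1) - X := by ring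
          rw [this]
          exact v.asIdeal.sub_mem h hXv
      · exact ⟨X, Polynomial.X_ne_zero, Polynomial.natDegree_X,
          (valuation_eq_one_iff_notMem v).2 hXv, hXval⟩
    obtain ⟨σ, hσ0, hσ1, hσ2, hσ3⟩ := hσ
    have hσi : i σ ≠ 0 := by simpa [hi] using hσ0
    set e := (π v).natDegree + 1 with he
    have h0 : i σ ^ e * (i (π v))⁻¹ ≠ 0 := mul_ne_zero (pow_ne_zero _ hσi) (inv_ne_zero (hπi v))
    have h1 := hunit (i σ ^ e * (i (π v))⁻¹) (fun u hu => by
      rw [map_mul, map_pow, map_inv₀, hσ3 u hu, hπval u hu v hv, one_pow, inv_one, mul_one])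
    refine ⟨Units.mk0 _ h0, h1.1, ?_, ?_, ?_⟩
    · rw [Units.val_inv_eq_inv_val]
      exact h1.2
    · show 1 < w (i σ ^ e * (i (π v))⁻¹)
      rw [map_mul, map_pow, map_inv₀]
      have h2 : w (i σ) = exp (1 : ℤ) := by
        rw [hw, RatFunc.inftyValuation_apply, RatFunc.inftyValuation.polynomial F hσ0, hσ1]
        rfl
      have h3 : w (i (π v)) = exp ((π v).natDegree : ℤ) := by
        rw [hw, RatFunc.inftyValuation_apply, RatFunc.inftyValuation.polynomial F (hπ0 v)]
      rw [h2, h3, ← exp_nsmul, ← exp_neg, ← exp_add, ← exp_zero, exp_lt_exp]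
      rw [he]
      simp
    · show 1 < v.valuation (RatFunc F) (i σ ^ e * (i (π v))⁻¹)
      rw [map_mul, map_pow, hσ2, one_pow, one_mul, map_inv₀, one_lt_inv₀ (hpos v _ (hπi v))]
      exact hπ1 v
  have hXX : ∃ α : (RatFunc F)ˣ, (α : RatFunc F) ∈ B ∧
      ((α⁻¹ : (RatFunc F)ˣ) : RatFunc F) ∈ B ∧ 1 < w (α : RatFunc F) := by
    have h0 : i X ≠ 0 := hi0 _ Polynomial.X_ne_zero
    have h1 := hunit (i X) hXval
    refine ⟨Units.mk0 _ h0, h1.1, ?_, ?_⟩
    · rw [Units.val_inv_eq_inv_val]
      exact h1.2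
    · show 1 < w (i X)
      rw [hw, RatFunc.inftyValuation_apply, RatFunc.inftyValuation.polynomial F
        Polynomial.X_ne_zero, Polynomial.natDegree_X, ← exp_zero, exp_lt_exp]
      norm_num
  refine ⟨{
    I := Option {v // v ∈ P}
    i0 := none
    av := fun j => match j with
      | none => avV w
      | some v => avV (v.1.valuation (RatFunc F))
    B := B
    hA := ?_
    hB := ?_
    hU := ?_ }, ?_⟩
  · intro x
    obtain ⟨γ, hγ1, hγ2⟩ := gf_fin F[X] (RatFunc F) P
      (fun v => if h : v ∈ P then x (some ⟨v, h⟩) else 0)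
    obtain ⟨q, hq⟩ := gf_inf F (x none - γ)
    refine ⟨γ + i q, ?_, ?_⟩
    · intro v hv
      exact (v.valuation (RatFunc F)).map_add_le (hγ2 v hv) (v.valuation_le_one q)
    · intro j
      match j with
      | none =>
        show avV w (x none - (γ + i q)) ≤ 1
        rw [avV_le_one, ← sub_sub]
        convert hq
      | some ⟨v, hv⟩ =>
        show avV (v.valuation (RatFunc F)) (x (some ⟨v, hv⟩) - (γ + i q)) ≤ 1
        rw [avV_le_one, ← sub_sub]
        have h1 := hγ1 v hv
        simp only [hv, dif_pos] at h1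
        exact (v.valuation (RatFunc F)).map_sub_le h1 (v.valuation_le_one q)
  · intro R
    refine (gf_bdd F P R).subset ?_
    rintro β ⟨h1, h2⟩
    have hR : (R : ℝ) ≤ 2 ^ R := by
      exact_mod_cast (Nat.lt_two_pow_self (n := R)).le
    refine ⟨h1, fun v hv => ?_, ?_⟩
    · exact avV_le_pow _ _ _ ((h2 (some ⟨v, hv⟩)).trans hR)
    · have := avV_le_pow _ _ _ ((h2 none).trans hR)
      convert this
  · intro j j'
    match j, j' with
    | none, none =>
      obtain ⟨α, h1, h2, h3⟩ := hXX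
      exact ⟨α, h1, h2, (one_lt_avV _ _).2 h3, (one_lt_avV _ _).2 h3⟩
    | none, some ⟨v, hv⟩ =>
      obtain ⟨α, h1, h2, h3, h4⟩ := hUinf v hv
      exact ⟨α, h1, h2, (one_lt_avV _ _).2 h3, (one_lt_avV _ _).2 h4⟩
    | some ⟨v, hv⟩, none =>
      obtain ⟨α, h1, h2, h3, h4⟩ := hUinf v hv
      exact ⟨α, h1, h2, (one_lt_avV _ _).2 h4, (one_lt_avV _ _).2 h3⟩
    | some ⟨v, hv⟩, some ⟨v', hv'⟩ =>
      obtain ⟨α, h1, h2, h3, h4⟩ := hUfin v hv v' hv'
      exact ⟨α, h1, h2, (one_lt_avV _ _).2 h3, (one_lt_avV _ _).2 h4⟩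
  · intro f hf v hv
    rw [hPmem] at hv
    push Not at hv
    exact hv.2 f hf

theorem st_GF : ST_GF := fun p _ => gf (ZMod p)

end QD
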