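import Pool.Agent.Helper24.QD.Glob
import Pool.Agent.Helper24.QD.NTA
import Pool.Agent.Helper24.QD.NTB
import Pool.Agent.Helper24.QD.NTC

set_option autoImplicit false

/-! Row GQ: arithmetic data of the rational numbers. -/

namespace QD

/-- The absolute values of `ℤ[1/m]` with real values. -/
noncomputable def avR (m : ℕ) (i : Pl m) : AbsoluteValue ℚ ℝ where
  toFun x := ((av m i x : ℚ) : ℝ)
  map_mul' x y := by rw [map_mul, Rat.cast_mul]
  nonneg' x := by exact_mod_cast (av m i).nonneg x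
  eq_zero' x := by
    rw [Rat.cast_eq_zero]
    exact (av m i).eq_zero
  add_le' x y := by exact_mod_cast (av m i).add_le x y

theorem avR_apply (m : ℕ) (i : Pl m) (x : ℚ) : avR m i x = ((av m i x : ℚ) : ℝ) := rfl

theorem st_GQ : ST_GQ := by
  intro F hF
  obtain ⟨m, hm, h6, hden⟩ := st_DEN F hF
  refine ⟨{ I := Pl m, i0 := none, av := avR m, B := Bm m, hA := ?_, hB := ?_, hU := ?_ }, hden⟩
  · intro x
    obtain ⟨β, hβ, h⟩ := st_NTA m hm x
    refine ⟨β, hβ, fun i => ?_⟩
    rw [avR_apply]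
    exact_mod_cast h i
  · intro R
    refine (st_NTB m R hm).subset ?_
    rintro β ⟨h1, h2⟩
    refine ⟨h1, fun i => ?_⟩
    have := h2 i
    rw [avR_apply] at this
    exact_mod_cast this
  · intro i j
    obtain ⟨α, h1, h2, h3, h4⟩ := st_NTC m hm h6 i j
    refine ⟨α, h1, h2, ?_, ?_⟩
    · rw [avR_apply]
      exact_mod_cast h3
    · rw [avR_apply]
      exact_mod_cast h4

end QD
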