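import Pool.Agent.Helper24.QD.Stmts2

set_option autoImplicit false

/-!
Arithmetic data of a field `k`: a ring `B` of `S`-integers with finitely many absolute values.
-/

namespace QD

/-- A subring `B` and finitely many absolute values such that `B` is cocompact and discrete in
the product of the completions, and has units that are large at any two given places. -/
structure Glob (k : Type) [Field k] where
  I : Type
  [fI : Fintype I]
  [dI : DecidableEq I]
  i0 : I
  av : I → AbsoluteValue k ℝ
  B : Subring k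
  hA : ∀ x : I → k, ∃ β ∈ B, ∀ i, av i (x i - β) ≤ 1
  hB : ∀ R : ℕ, {β : k | β ∈ B ∧ ∀ i, av i β ≤ R}.Finite
  hU : ∀ i j, ∃ α : kˣ, (α : k) ∈ B ∧ ((α⁻¹ : kˣ) : k) ∈ B ∧ 1 < av i (α : k) ∧
    1 < av j (α : k)

attribute [instance] Glob.fI Glob.dI

/-- Every finite subset of `k` lies in the ring of such data. -/
def IsGlob (k : Type) [Field k] : Prop := ∀ F : Set k, F.Finite → ∃ A : Glob k, F ⊆ A.B

/-- GQ: the rationals (from ST_NTA, ST_NTB, ST_NTC, ST_DEN). -/
def ST_GQ : Prop := IsGlob ℚ

/-- GF: rational function fields over prime fields. -/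
def ST_GF : Prop := ∀ (p : ℕ) [Fact p.Prime], IsGlob (RatFunc (ZMod p))

/-- GSCAL: restriction of scalars for a finite extension. -/
def ST_GSCAL : Prop := ∀ (k K : Type) [Field k] [Field K] [Algebra k K] [FiniteDimensional k K]
  (n : ℕ), ∃ (d : ℕ) (f : GL (Fin n) K →* GL (Fin n × Fin d) k)
    (F : K →+ Matrix (Fin d) (Fin d) k),
  Function.Injective f ∧ ∀ g x y s t, (f g).1 (x, s) (y, t) = F (g.1 x y) s t

end QD
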