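import Pool.Agent.Helper24.QD.CORE

set_option autoImplicit false

/-! The embedding theorem over `ℚ`. -/

namespace QD

theorem zb_prod {G : Type} [Group G] (g : G) (k : ℤ) : (zb g k).prod = g ^ k := by
  unfold zb
  split_ifs with h
  · rw [List.prod_replicate, ← zpow_natCast, Int.toNat_of_nonneg h]
  · rw [List.prod_replicate, inv_pow, ← zpow_natCast, Int.toNat_of_nonneg (by omega), zpow_neg,
      inv_inv]

theorem nf_prod {G J : Type} [Group G] (z : J → G) (js : List J) (k : J → ℤ) :
    (nf z js k).prod = (js.map fun j => z j ^ k j).prod := by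
  unfold nf
  rw [List.prod_flatten, List.map_map]
  congr 1
  apply List.map_congr_left
  intro j _
  exact zb_prod _ _

/-- units of the subring -/
def UB (B : Subring ℚ) : Subgroup ℚˣ where
  carrier := {x | (x : ℚ) ∈ B ∧ ((x⁻¹ : ℚˣ) : ℚ) ∈ B}
  one_mem' := by simp [B.one_mem]
  mul_mem' := by
    intro x y hx hy
    refine ⟨?_, ?_⟩
    · rw [Units.val_mul]; exact B.mul_mem hx.1 hy.1
    · rw [mul_inv, Units.val_mul]; exact B.mul_mem hx.2 hy.2
  inv_mem' := by
    intro x hx
    exact ⟨hx.2, by rw [inv_inv]; exact hx.1⟩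

section
variable {ι : Type} [Fintype ι] [DecidableEq ι] (b : ι → ℕ)

theorem dg_mem (B : Subring ℚ) (x : ℚˣ) (hx : x ∈ UB B) : dg b x ∈ GLB B := by
  constructor
  · intro s t
    show Matrix.diagonal (fun x_1 => ((x⁻¹ ^ b x_1 : ℚˣ) : ℚ)) s t ∈ B
    rw [Matrix.diagonal_apply]
    split_ifs
    · rw [Units.val_pow_eq_pow_val]; exact B.pow_mem hx.2 _
    · exact B.zero_mem
  · intro s t
    rw [← map_inv]
    show Matrix.diagonal (fun x_1 => (((x⁻¹)⁻¹ ^ b x_1 : ℚˣ) : ℚ)) s t ∈ B
    rw [Matrix.diagonal_apply, inv_inv]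
    split_ifs
    · rw [Units.val_pow_eq_pow_val]; exact B.pow_mem hx.1 _
    · exact B.zero_mem

theorem dg_comm (x : ℚˣ) (g : GL ι ℚ) (hg : ∀ s t, b s ≠ b t → g.1 s t = 0) :
    dg b x * g = g * dg b x := by
  apply Units.ext
  show Matrix.diagonal (fun s => ((x⁻¹ ^ b s : ℚˣ) : ℚ)) * g.1 =
    g.1 * Matrix.diagonal (fun s => ((x⁻¹ ^ b s : ℚˣ) : ℚ))
  ext s t
  rw [Matrix.diagonal_mul, Matrix.mul_diagonal]
  by_cases h : b s = b t
  · rw [h]; ring
  · rw [hg s t h]; ring

end

/-- the character -/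
def chi {m : ℕ} (α : Pl m → Pl m → ℚˣ) : (Pl m × Pl m → Multiplicative ℤ) →* ℚˣ where
  toFun u := ∏ j : Pl m × Pl m, α j.1 j.2 ^ (Multiplicative.toAdd (u j))
  map_one' := by simp
  map_mul' := by
    intro u v
    rw [← Finset.prod_mul_distrib]
    refine Finset.prod_congr rfl fun j _ => ?_
    rw [Pi.mul_apply, toAdd_mul, zpow_add]

theorem chi_single {m : ℕ} (α : Pl m → Pl m → ℚˣ) (i j : Pl m) :
    chi α (Pi.mulSingle (i, j) (Multiplicative.ofAdd 1)) = α i j := by
  show ∏ l : Pl m × Pl m, α l.1 l.2 ^ (Multiplicative.toAdd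
    ((Pi.mulSingle (i, j) (Multiplicative.ofAdd 1) : Pl m × Pl m → Multiplicative ℤ) l)) = α i j
  rw [Finset.prod_eq_single (i, j)]
  · simp
  · intro l _ hl
    rw [Pi.mulSingle_eq_of_ne hl]; simp
  · intro h; exact absurd (Finset.mem_univ _) h

theorem chi_mem {m : ℕ} (α : Pl m → Pl m → ℚˣ) (B : Subring ℚ) (h : ∀ i j, α i j ∈ UB B)
    (u : Pl m × Pl m → Multiplicative ℤ) : chi α u ∈ UB B :=
  Subgroup.prod_mem _ fun j _ => Subgroup.zpow_mem _ (h j.1 j.2) _

/-- the central letters -/
noncomputable def zz (m : ℕ) (L : Type) [Group L] (j : Pl m × Pl m) :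
    (Pl m × Pl m → Multiplicative ℤ) × L :=
  (Pi.mulSingle j (Multiplicative.ofAdd 1), 1)

theorem st_ONE (hCORE : ST_CORE) (hUCOM : ST_UCOM) (hPRES : ST_PRES) (hNTC : ST_NTC)
    (hDEN : ST_DEN) : ST_ONE := by
  classical
  intro ι _ _ b H L _ _ hFG hQL f lam th hf hfb hth hdiag
  obtain ⟨k, rels, hQP, ⟨e⟩⟩ := hQL
  set gi : Fin k → L := fun i => e.symm (PresentedGroup.of i) with hgi
  obtain ⟨Sh, hSh⟩ := hFG
  -- common denominator
  let ent : GL ι ℚ → Set ℚ := fun g => (Set.range fun p : ι × ι => g.1 p.1 p.2) ∪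
    (Set.range fun p : ι × ι => (g⁻¹).1 p.1 p.2)
  have hent : ∀ g, (ent g).Finite := fun g => (Set.finite_range _).union (Set.finite_range _)
  obtain ⟨m, hm, h6, hmF⟩ := hDEN ((⋃ i : Fin k, ent (th (gi i))) ∪ (⋃ h ∈ Sh, ent (f h)))
    ((Set.finite_iUnion fun i => hent _).union (Set.Finite.biUnion Sh.finite_toSet
      fun h _ => hent _))
  have hthB : ∀ l, th l ∈ GLB (Bm m) := by
    have h1 : ∀ i, th (gi i) ∈ GLB (Bm m) := by
      intro i
      refine ⟨fun x y => hmF _ (Or.inl (Set.mem_iUnion.2 ⟨i, Or.inl ⟨(x, y), rfl⟩⟩)),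
        fun x y => hmF _ (Or.inl (Set.mem_iUnion.2 ⟨i, Or.inr ⟨(x, y), rfl⟩⟩))⟩
    have h2 : Subgroup.closure (Set.range (PresentedGroup.of (rels := (rels : Set (FreeGroup
        (Fin k)))))) ≤ (GLB (Bm m)).comap (th.comp e.symm.toMonoidHom) := by
      rw [Subgroup.closure_le]
      rintro _ ⟨i, rfl⟩
      exact h1 i
    rw [PresentedGroup.closure_range_of] at h2
    intro l
    have := h2 (Subgroup.mem_top (e l))
    simpa using this
  have hfB : ∀ h, f h ∈ GLB (Bm m) := by
    have h1 : ∀ h ∈ Sh, f h ∈ GLB (Bm m) := by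
      intro h hh
      refine ⟨fun x y => hmF _ (Or.inr (Set.mem_iUnion₂.2 ⟨h, hh, Or.inl ⟨(x, y), rfl⟩⟩)),
        fun x y => hmF _ (Or.inr (Set.mem_iUnion₂.2 ⟨h, hh, Or.inr ⟨(x, y), rfl⟩⟩))⟩
    have h2 : Subgroup.closure (Sh : Set H) ≤ (GLB (Bm m)).comap f := by
      rw [Subgroup.closure_le]
      intro h hh
      exact h1 h hh
    rw [hSh] at h2
    intro h
    exact h2 (Subgroup.mem_top h)
  choose α hα1 hα2 hα3 hα4 using hNTC m hm h6
  have hαU : ∀ i j, α i j ∈ UB (Bm m) := fun i j => ⟨hα1 i j, hα2 i j⟩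
  -- the group Q and its representation
  let Q := (Pl m × Pl m → Multiplicative ℤ) × L
  let ρ : Q →* GL ι ℚ :=
    { toFun := fun t => dg b (chi α t.1) * th t.2
      map_one' := by simp
      map_mul' := by
        intro s t
        show dg b (chi α (s.1 * t.1)) * th (s.2 * t.2) = _
        rw [map_mul, map_mul, map_mul]
        have := dg_comm b (chi α t.1) (th s.2) (hth s.2)
        calc dg b (chi α s.1) * dg b (chi α t.1) * (th s.2 * th t.2)
            = dg b (chi α s.1) * (dg b (chi α t.1) * th s.2) * th t.2 := by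
              simp only [mul_assoc]
          _ = _ := by rw [this]; simp only [mul_assoc] }
  have hρ1 : ∀ l, ρ (1, l) = th l := by
    intro l
    show dg b (chi α 1) * th l = th l
    rw [map_one, map_one, one_mul]
  set T₀ : Set Q := {g | ∃ i, g = ((1 : Pl m × Pl m → Multiplicative ℤ), gi i) ∨
    g = ((1 : Pl m × Pl m → Multiplicative ℤ), gi i)⁻¹} with hT₀
  set T : Set Q := T₀ ∪ {g | ∃ j, g = zz m L j ∨ g = (zz m L j)⁻¹} with hT
  have hTinv : ∀ t ∈ T, t⁻¹ ∈ T := by
    rintro t (⟨i, rfl | rfl⟩ | ⟨j, rfl | rfl⟩)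
    · exact Or.inl ⟨i, Or.inr rfl⟩
    · exact Or.inl ⟨i, Or.inl (inv_inv _)⟩
    · exact Or.inr ⟨j, Or.inr rfl⟩
    · exact Or.inr ⟨j, Or.inl (inv_inv _)⟩
  have hTfin : T.Finite := by
    apply Set.Finite.union
    · have : T₀ = Set.range (fun i => (((1 : Pl m × Pl m → Multiplicative ℤ), gi i) : Q)) ∪
          Set.range (fun i => (((1 : Pl m × Pl m → Multiplicative ℤ), gi i) : Q)⁻¹) := by
        ext g; constructor
        · rintro ⟨i, rfl | rfl⟩
          · exact Or.inl ⟨i, rfl⟩
          · exact Or.inr ⟨i, rfl⟩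
        · rintro (⟨i, rfl⟩ | ⟨i, rfl⟩)
          · exact ⟨i, Or.inl rfl⟩
          · exact ⟨i, Or.inr rfl⟩
      rw [this]
      exact (Set.finite_range _).union (Set.finite_range _)
    · have : {g : Q | ∃ j, g = zz m L j ∨ g = (zz m L j)⁻¹} = Set.range (fun j => zz m L j) ∪
          Set.range (fun j => (zz m L j)⁻¹) := by
        ext g; constructor
        · rintro ⟨i, rfl | rfl⟩
          · exact Or.inl ⟨i, rfl⟩
          · exact Or.inr ⟨i, rfl⟩
        · rintro (⟨i, rfl⟩ | ⟨i, rfl⟩)
          · exact ⟨i, Or.inl rfl⟩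
          · exact ⟨i, Or.inr rfl⟩
      rw [this]
      exact (Set.finite_range _).union (Set.finite_range _)
  have hclos : Subgroup.closure T = ⊤ := by
    rw [eq_top_iff]
    have hL : ∀ l : L, (((1 : Pl m × Pl m → Multiplicative ℤ), l) : Q) ∈ Subgroup.closure T := by
      have h2 : Subgroup.closure (Set.range (PresentedGroup.of (rels := (rels : Set (FreeGroup
          (Fin k)))))) ≤ (Subgroup.closure T).comap ((MonoidHom.inr
            (Pl m × Pl m → Multiplicative ℤ) L).comp e.symm.toMonoidHom) := by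
        rw [Subgroup.closure_le]
        rintro _ ⟨i, rfl⟩
        exact Subgroup.subset_closure (Or.inl ⟨i, Or.inl rfl⟩)
      rw [PresentedGroup.closure_range_of] at h2
      intro l
      have := h2 (Subgroup.mem_top (e l))
      simpa using this
    have hU : ∀ u : Pl m × Pl m → Multiplicative ℤ, ((u, (1 : L)) : Q) ∈ Subgroup.closure T := by
      intro u
      have h1 : u = ∏ j : Pl m × Pl m, Pi.mulSingle j (Multiplicative.ofAdd 1) ^
          (Multiplicative.toAdd (u j)) := by
        funext l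
        rw [Finset.prod_apply, Finset.prod_eq_single l]
        · rw [Pi.pow_apply, Pi.mulSingle_eq_same, ← ofAdd_zsmul]
          simp
        · intro j _ hj
          rw [Pi.pow_apply, Pi.mulSingle_eq_of_ne hj.symm, one_zpow]
        · intro h; exact absurd (Finset.mem_univ _) h
      have h2 : u ∈ (Subgroup.closure T).comap (MonoidHom.inl
          (Pl m × Pl m → Multiplicative ℤ) L) := by
        rw [h1]
        apply Subgroup.prod_mem
        intro j _
        apply Subgroup.zpow_mem
        exact Subgroup.subset_closure (Or.inr ⟨j, Or.inl rfl⟩)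
      exact h2
    intro t _
    have : t = (t.1, 1) * (1, t.2) := Prod.ext (mul_one _).symm (one_mul _).symm
    rw [this]
    exact Subgroup.mul_mem _ (hU _) (hL _)
  have hTgen : Gen T Set.univ := by
    intro t _
    have ht : t ∈ (Subgroup.closure T).toSubmonoid := by rw [hclos]; exact Subgroup.mem_top _
    rw [Subgroup.closure_toSubmonoid] at ht
    obtain ⟨w, hw1, hw2⟩ := Submonoid.exists_list_of_mem_closure ht
    refine ⟨w, fun g hg => ?_, hw2⟩
    rcases hw1 g hg with h | h
    · exact h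
    · have := hTinv _ (Set.mem_inv.1 h)
      rwa [inv_inv] at this
  let D : Inst ι b m Q :=
    { ρ := ρ
      T := T
      a := fun i j => zz m L (i, j)
      α := α
      hm := hm
      hTfin := hTfin
      hTinv := hTinv
      hTgen := hTgen
      haT := fun i j => Or.inr ⟨(i, j), Or.inl rfl⟩
      hac := by
        intro i j t
        refine Prod.ext ?_ ?_
        · exact mul_comm _ _
        · show (1 : L) * t.2 = t.2 * 1
          rw [one_mul, mul_one]
      hρ := by
        intro t x y hxy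
        show (Matrix.diagonal (fun s => (((chi α t.1)⁻¹ ^ b s : ℚˣ) : ℚ)) * (th t.2).1) x y = 0
        rw [Matrix.diagonal_mul, hth t.2 x y hxy, mul_zero]
      hρB := fun t => (GLB (Bm m)).mul_mem (dg_mem b (Bm m) _ (chi_mem α (Bm m) hαU _)) (hthB _)
      hρa := by
        intro i j
        show dg b (chi α (Pi.mulSingle (i, j) (Multiplicative.ofAdd 1))) * th 1 = _
        rw [chi_single, map_one, mul_one]
      hα := fun i j => ⟨hα3 i j, hα4 i j⟩ }
  have hRed : Red D.T T₀ := by
    refine hUCOM Q (Pl m × Pl m) T₀ (zz m L) (fun j g => ?_) ?_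
    · refine Prod.ext ?_ ?_
      · exact mul_comm _ _
      · show (1 : L) * g.2 = g.2 * 1
        rw [one_mul, mul_one]
    · intro κ w₀ hw₀ hprod
      have h1 : ∀ w : List Q, (∀ g ∈ w, g ∈ T₀) → w.prod.1 = 1 := by
        intro w
        induction w with
        | nil => intro _; rfl
        | cons g w ih =>
          intro hw
          rw [List.prod_cons, Prod.fst_mul, ih (fun x hx => hw x (by simp [hx])), mul_one]
          rcases hw g (by simp) with ⟨i, rfl | rfl⟩
          · rfl
          · show (1 : Pl m × Pl m → Multiplicative ℤ)⁻¹ = 1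
            exact inv_one
      have h2 := congrArg Prod.fst hprod
      rw [Prod.fst_mul, h1 w₀ hw₀, mul_one, nf_prod] at h2
      funext l
      have h3 : ∀ js : List (Pl m × Pl m), js.Nodup → (js.map fun j => zz m L j ^ κ j).prod.1 l =
          if l ∈ js then Multiplicative.ofAdd (κ l) else 1 := by
        intro js
        induction js with
        | nil => intro _; rfl
        | cons j js ih =>
          intro hnd
          rw [List.nodup_cons] at hnd
          rw [List.map_cons, List.prod_cons, Prod.fst_mul, Pi.mul_apply, ih hnd.2]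
          have e1 : (zz m L j ^ κ j).1 l = (Pi.mulSingle j (Multiplicative.ofAdd (1 : ℤ)) :
              Pl m × Pl m → Multiplicative ℤ) l ^ κ j := rfl
          rw [e1]
          by_cases hl : l = j
          · subst hl
            rw [Pi.mulSingle_eq_same, if_neg hnd.1, if_pos (by simp), mul_one, ← ofAdd_zsmul]
            simp
          · rw [Pi.mulSingle_eq_of_ne hl, one_zpow, one_mul]
            simp [hl]
      have h4 := congrFun h2 l
      rw [h3 _ (Finset.nodup_toList _), if_pos (by simp)] at h4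
      exact Multiplicative.ofAdd.injective h4
  obtain ⟨S', c1, c2, c3, c4, c5⟩ := hCORE ι b m Q D T₀ Set.subset_union_left hRed
  let j : PresentedGroup (rels : Set (FreeGroup (Fin k))) →* D.Gam :=
    (D.q.codRestrict D.Gam (fun t => D.q_mem_Gam t)).comp
      ((MonoidHom.inr (Pl m × Pl m → Multiplicative ℤ) L).comp e.symm.toMonoidHom)
  have hj : ∀ x, ((j x : D.Gam) : (Pl m → GL ι ℚ) × Q) = D.q (1, e.symm x) := fun x => rfl
  have hjinj : Function.Injective j := by
    intro x y hxy
    have h1 := congrArg (fun z : D.Gam => (z : (Pl m → GL ι ℚ) × Q)) hxy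
    simp only [hj] at h1
    have h2 := D.q_inj h1
    exact e.symm.injective (congrArg Prod.snd h2)
  have hset : {γ : D.Gam | (γ : (Pl m → GL ι ℚ) × Q) ∈ D.q '' T₀} =
      {g | ∃ i, g = j (PresentedGroup.of i) ∨ g = (j (PresentedGroup.of i))⁻¹} := by
    ext g
    constructor
    · rintro ⟨t, ⟨i, rfl | rfl⟩, ht⟩
      · refine ⟨i, Or.inl (Subtype.ext ?_)⟩
        rw [hj]; exact ht.symm
      · refine ⟨i, Or.inr (Subtype.ext ?_)⟩
        rw [Subgroup.coe_inv, hj, ← map_inv]; exact ht.symm
    · rintro ⟨i, rfl | rfl⟩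
      · exact ⟨_, ⟨i, Or.inl rfl⟩, rfl⟩
      · refine ⟨_, ⟨i, Or.inr rfl⟩, ?_⟩
        rw [Subgroup.coe_inv, hj, ← map_inv]
  have hjS : ∀ i, j (PresentedGroup.of i) ∈ S' := by
    intro i
    apply c4
    exact ⟨_, ⟨i, Or.inl rfl⟩, rfl⟩
  rw [hset] at c5
  obtain ⟨k', rels', hQP', ⟨e'⟩⟩ := hPRES D.Gam S' c1 c2 c3 k rels hQP j hjinj hjS c5
  -- the embedding
  have hmem : ∀ h : H, (((fun _ : Pl m => f h), ((1 : Pl m × Pl m → Multiplicative ℤ), lam h)) :
      (Pl m → GL ι ℚ) × Q) ∈ D.Gam := by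
    intro h
    refine ⟨fun _ => rfl, hfB h, ?_⟩
    show f h * (ρ (1, lam h))⁻¹ ∈ Vb b
    rw [hρ1, ← map_inv]
    intro x y hxy
    have hinv : (th (lam h)).1 * (th (lam h)⁻¹).1 = 1 := by
      rw [← Units.val_mul, ← map_mul, mul_inv_cancel, map_one]; rfl
    show ((f h).1 * (th (lam h)⁻¹).1) x y = _
    rw [Matrix.mul_apply]
    rcases lt_or_eq_of_le hxy with hlt | heq
    · rw [Matrix.one_apply_ne (by rintro rfl; omega)]
      apply Finset.sum_eq_zero
      intro z _
      by_cases hz : b z = b y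
      · rw [hfb h x z (by omega), zero_mul]
      · rw [hth _ z y hz, mul_zero]
    · rw [← hinv, Matrix.mul_apply]
      apply Finset.sum_congr rfl
      intro z _
      by_cases hz : b z = b y
      · rw [hdiag h x z (by omega)]
      · rw [hth _ z y hz, mul_zero, mul_zero]
  let F : H →* D.Gam :=
    { toFun := fun h => ⟨_, hmem h⟩
      map_one' := by
        apply Subtype.ext
        refine Prod.ext ?_ ?_
        · funext i; exact map_one f
        · exact Prod.ext rfl (map_one lam)
      map_mul' := by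
        intro g h
        apply Subtype.ext
        refine Prod.ext ?_ ?_
        · funext i; exact map_mul f g h
        · exact Prod.ext (one_mul 1).symm (map_mul lam g h) }
  have hF : Function.Injective F := by
    intro g h hgh
    apply hf
    have h1 := congrArg (fun z : D.Gam => (z : (Pl m → GL ι ℚ) × Q).1 none) hgh
    exact h1
  exact ⟨k', rels', hQP', e'.toMonoidHom.comp F, fun x y hxy => hF (e'.injective hxy)⟩

end QD
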