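import Pool.Agent.Helper24.QD.Stmts2

set_option autoImplicit false

/-! Row PI: finite products of groups with quadratic Dehn function. -/

namespace QD

theorem quadDehn_congr {G H : Type} [Group G] [Group H] (e : G ≃* H) (h : QuadDehn G) :
    QuadDehn H := by
  obtain ⟨k, rels, hQ, ⟨f⟩⟩ := h
  exact ⟨k, rels, hQ, ⟨e.symm.trans f⟩⟩

theorem quadDehn_subsingleton {G : Type} [Group G] [Subsingleton G] : QuadDehn G := by
  have hQ : QPres 0 ∅ := by
    refine ⟨0, ?_⟩
    intro w _
    refine ⟨[], by simp, by simp, ?_⟩
    exact Subsingleton.elim _ _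
  have hsub : Subsingleton (PresentedGroup ((∅ : Finset (FreeGroup (Fin 0))) :
      Set (FreeGroup (Fin 0)))) := by
    constructor
    intro x y
    obtain ⟨x, rfl⟩ := PresentedGroup.mk_surjective _ x
    obtain ⟨y, rfl⟩ := PresentedGroup.mk_surjective _ y
    rw [Subsingleton.elim x y]
  exact ⟨0, ∅, hQ, ⟨
    { toFun := fun _ => 1
      invFun := fun _ => 1
      left_inv := fun _ => Subsingleton.elim _ _
      right_inv := fun _ => Subsingleton.elim _ _
      map_mul' := fun _ _ => Subsingleton.elim _ _ }⟩⟩

theorem st_PI (hP : ST_PROD) : ST_PI := by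
  intro r
  induction r with
  | zero =>
    intro L _ _
    exact quadDehn_subsingleton
  | succ r ih =>
    intro L _ h
    have h1 : QuadDehn (L 0 × (∀ i : Fin r, L i.succ)) :=
      hP _ _ (h 0) (ih (fun i => L i.succ) (fun i => h i.succ))
    refine quadDehn_congr ?_ h1
    exact
      { toFun := fun p => Fin.cons p.1 p.2
        invFun := fun f => (f 0, fun i => f i.succ)
        left_inv := fun p => by simp
        right_inv := fun f => by
          funext i
          refine Fin.cases ?_ (fun j => ?_) i
          · simp
          · simp
        map_mul' := fun p q => by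
          funext i
          refine Fin.cases ?_ (fun j => ?_) i
          · simp
          · simp }

end QD
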