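import Pool.Agent.Helper24.QD.Stmts2
import Pool.Agent.Helper24.QD.PRES

set_option autoImplicit false

namespace QD

namespace PR

variable {k₁ k₂ : ℕ}

/-- first inclusion -/
def i1 : FreeGroup (Fin k₁) →* FreeGroup (Fin (k₁ + k₂)) :=
  FreeGroup.lift fun i => FreeGroup.of (Fin.castAdd k₂ i)

/-- second inclusion -/
def i2 : FreeGroup (Fin k₂) →* FreeGroup (Fin (k₁ + k₂)) :=
  FreeGroup.lift fun i => FreeGroup.of (Fin.natAdd k₁ i)

/-- first projection on letters -/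
def f1 : Fin (k₁ + k₂) → FreeGroup (Fin k₁) :=
  Fin.addCases (fun i => FreeGroup.of i) (fun _ => 1)

/-- second projection on letters -/
def f2 : Fin (k₁ + k₂) → FreeGroup (Fin k₂) :=
  Fin.addCases (fun _ => 1) (fun i => FreeGroup.of i)

/-- first projection -/
def p1 : FreeGroup (Fin (k₁ + k₂)) →* FreeGroup (Fin k₁) := FreeGroup.lift f1

/-- second projection -/
def p2 : FreeGroup (Fin (k₁ + k₂)) →* FreeGroup (Fin k₂) := FreeGroup.lift f2

/-- a letter as an element -/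
def lt {α : Type} (p : α × Bool) : FreeGroup α := FreeGroup.mk [p]

/-- commutator of letters of the two kinds -/
def cm (p : Fin k₁ × Bool) (q : Fin k₂ × Bool) : FreeGroup (Fin (k₁ + k₂)) :=
  i2 (lt q) * i1 (lt p) * (i1 (lt p) * i2 (lt q))⁻¹

/-- the relations -/
def RS (R₁ : Finset (FreeGroup (Fin k₁))) (R₂ : Finset (FreeGroup (Fin k₂))) :
    Set (FreeGroup (Fin (k₁ + k₂))) :=
  (i1 '' (R₁ : Set (FreeGroup (Fin k₁)))) ∪ (i2 '' (R₂ : Set (FreeGroup (Fin k₂)))) ∪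
    Set.range (fun x : (Fin k₁ × Bool) × (Fin k₂ × Bool) => cm x.1 x.2)

theorem RS_finite (R₁ : Finset (FreeGroup (Fin k₁))) (R₂ : Finset (FreeGroup (Fin k₂))) :
    (RS R₁ R₂).Finite :=
  ((R₁.finite_toSet.image _).union (R₂.finite_toSet.image _)).union (Set.finite_range _)

theorem p1_i1 (u : FreeGroup (Fin k₁)) : p1 (k₂ := k₂) (i1 u) = u := by
  have : (p1 (k₂ := k₂)).comp (i1 (k₁ := k₁)) = MonoidHom.id _ := by
    ext i; simp [p1, i1, f1]
  exact DFunLike.congr_fun this u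

theorem p2_i2 (u : FreeGroup (Fin k₂)) : p2 (k₁ := k₁) (i2 u) = u := by
  have : (p2 (k₁ := k₁)).comp (i2 (k₂ := k₂)) = MonoidHom.id _ := by
    ext i; simp [p2, i2, f2]
  exact DFunLike.congr_fun this u

theorem p1_i2 (u : FreeGroup (Fin k₂)) : p1 (k₁ := k₁) (i2 u) = 1 := by
  have : (p1 (k₁ := k₁)).comp (i2 (k₂ := k₂)) = 1 := by
    ext i; simp [p1, i2, f1]
  exact DFunLike.congr_fun this u

theorem p2_i1 (u : FreeGroup (Fin k₁)) : p2 (k₂ := k₂) (i1 u) = 1 := by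
  have : (p2 (k₂ := k₂)).comp (i1 (k₁ := k₁)) = 1 := by
    ext i; simp [p2, i1, f2]
  exact DFunLike.congr_fun this u

theorem lt_cases (p : Fin (k₁ + k₂) × Bool) :
    (∃ q : Fin k₁ × Bool, lt p = i1 (lt q)) ∨ ∃ q : Fin k₂ × Bool, lt p = i2 (lt q) := by
  obtain ⟨i, b⟩ := p
  induction i using Fin.addCases with
  | left i =>
    left
    refine ⟨(i, b), ?_⟩
    rw [lt, lt, i1, FreeGroup.lift_mk]
    cases b <;> simp <;> rfl
  | right i =>
    right
    refine ⟨(i, b), ?_⟩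
    rw [lt, lt, i2, FreeGroup.lift_mk]
    cases b <;> simp <;> rfl

theorem mk_cons {α : Type} (p : α × Bool) (L : List (α × Bool)) :
    FreeGroup.mk (p :: L) = lt p * FreeGroup.mk L := by
  rw [lt, FreeGroup.mul_mk]; rfl

/-- a letter of the second kind passes a word of the first kind -/
theorem comm_area (R₁ : Finset (FreeGroup (Fin k₁))) (R₂ : Finset (FreeGroup (Fin k₂)))
    (q : Fin k₂ × Bool) (M : List (Fin k₁ × Bool)) :
    AreaLe (RS R₁ R₂) M.length
      (i2 (lt q) * i1 (FreeGroup.mk M) * (i1 (FreeGroup.mk M) * i2 (lt q))⁻¹) := by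
  induction M with
  | nil =>
    have : FreeGroup.mk ([] : List (Fin k₁ × Bool)) = 1 := rfl
    rw [this, map_one]
    have h2 : i2 (lt q) * 1 * (1 * i2 (lt q))⁻¹ = (1 : FreeGroup (Fin (k₁ + k₂))) := by group
    rw [h2]
    exact AreaLe.one _
  | cons p M ih =>
    have h1 : i2 (lt q) * i1 (FreeGroup.mk (p :: M)) *
        (i1 (FreeGroup.mk (p :: M)) * i2 (lt q))⁻¹ =
        cm p q * (i1 (lt p) * (i2 (lt q) * i1 (FreeGroup.mk M) *
          (i1 (FreeGroup.mk M) * i2 (lt q))⁻¹) * (i1 (lt p))⁻¹) := by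
      rw [mk_cons, map_mul, cm]; group
    rw [h1, List.length_cons, Nat.add_comm M.length 1]
    refine (AreaLe.of_mem ?_).mul (ih.conj _)
    exact Or.inr ⟨(p, q), rfl⟩

/-- sorting a word -/
theorem sort_area (R₁ : Finset (FreeGroup (Fin k₁))) (R₂ : Finset (FreeGroup (Fin k₂)))
    (L : List (Fin (k₁ + k₂) × Bool)) :
    AreaLe (RS R₁ R₂) (L.length ^ 2)
      (FreeGroup.mk L * (i1 (p1 (FreeGroup.mk L)) * i2 (p2 (FreeGroup.mk L)))⁻¹) := by
  induction L with
  | nil =>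
    have : FreeGroup.mk ([] : List (Fin (k₁ + k₂) × Bool)) = 1 := rfl
    rw [this]
    simp only [map_one, mul_one, inv_one]
    exact (AreaLe.one _).mono (Nat.zero_le _)
  | cons p L ih =>
    have hlen : L.length ^ 2 + L.length ≤ (p :: L).length ^ 2 := by
      rw [List.length_cons]; nlinarith [Nat.zero_le L.length]
    rcases lt_cases p with ⟨q, hq⟩ | ⟨q, hq⟩
    · have h1 : FreeGroup.mk (p :: L) * (i1 (p1 (FreeGroup.mk (p :: L))) *
          i2 (p2 (FreeGroup.mk (p :: L))))⁻¹ =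
          lt p * (FreeGroup.mk L * (i1 (p1 (FreeGroup.mk L)) *
            i2 (p2 (FreeGroup.mk L)))⁻¹) * (lt p)⁻¹ := by
        rw [mk_cons, hq]
        simp only [map_mul, p1_i1, p2_i1, one_mul]
        group
      rw [h1]
      exact (ih.conj _).mono (by omega)
    · set u := p1 (k₁ := k₁) (k₂ := k₂) (FreeGroup.mk L) with hu
      have hnorm : u.norm ≤ L.length := by
        refine (pr_norm_lift_le f1 ?_ _).trans FreeGroup.norm_mk_le
        intro i
        induction i using Fin.addCases with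
        | left i => simp [f1]
        | right i => simp [f1]
      have h1 : FreeGroup.mk (p :: L) * (i1 (p1 (FreeGroup.mk (p :: L))) *
          i2 (p2 (FreeGroup.mk (p :: L))))⁻¹ =
          (lt p * (FreeGroup.mk L * (i1 u * i2 (p2 (FreeGroup.mk L)))⁻¹) * (lt p)⁻¹) *
          (i2 (lt q) * i1 u * (i1 u * i2 (lt q))⁻¹) := by
        rw [mk_cons, hq]
        simp only [map_mul, p1_i2, p2_i2, one_mul, ← hu]
        group
      rw [h1]
      have h2 := comm_area R₁ R₂ q u.toWord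
      rw [FreeGroup.mk_toWord] at h2
      refine ((ih.conj (lt p)).mul h2).mono ?_
      have : u.toWord.length = u.norm := rfl
      omega

end PR

open PR

theorem st_PROD : ST_PROD := by
  intro L₁ L₂ _ _ h1 h2
  obtain ⟨k₁, R₁, ⟨C₁, hC₁⟩, ⟨e₁⟩⟩ := h1
  obtain ⟨k₂, R₂, ⟨C₂, hC₂⟩, ⟨e₂⟩⟩ := h2
  have hmain : ∀ w : FreeGroup (Fin (k₁ + k₂)),
      p1 w ∈ Subgroup.normalClosure (R₁ : Set (FreeGroup (Fin k₁))) →
      p2 w ∈ Subgroup.normalClosure (R₂ : Set (FreeGroup (Fin k₂))) →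
      AreaLe (RS R₁ R₂) ((1 + C₁ + C₂) * w.norm ^ 2 + (1 + C₁ + C₂)) w := by
    intro w hw1 hw2
    have hn1 : (p1 w).norm ≤ w.norm := by
      refine pr_norm_lift_le f1 ?_ _
      intro i
      induction i using Fin.addCases with
      | left i => simp [f1]
      | right i => simp [f1]
    have hn2 : (p2 w).norm ≤ w.norm := by
      refine pr_norm_lift_le f2 ?_ _
      intro i
      induction i using Fin.addCases with
      | left i => simp [f2]
      | right i => simp [f2]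
    have a1 := (hC₁ _ hw1).map (R' := RS R₁ R₂) i1
      (fun r hr => Or.inl (Or.inl ⟨r, hr, rfl⟩))
    have a2 := (hC₂ _ hw2).map (R' := RS R₁ R₂) i2
      (fun r hr => Or.inl (Or.inr ⟨r, hr, rfl⟩))
    have a0 := sort_area R₁ R₂ w.toWord
    rw [FreeGroup.mk_toWord] at a0
    have a3 := (a0.mul a1).mul a2
    have h3 : w * (i1 (p1 w) * i2 (p2 w))⁻¹ * i1 (p1 w) * i2 (p2 w) =
        (w * (i1 (p1 w) * i2 (p2 w))⁻¹ * (i1 (p1 w) * i2 (p2 w))) := by group
    rw [h3, inv_mul_cancel_right] at a3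
    refine a3.mono ?_
    have hn : w.toWord.length = w.norm := rfl
    rw [hn]
    have b1 : C₁ * (p1 w).norm ^ 2 ≤ C₁ * w.norm ^ 2 :=
      Nat.mul_le_mul_left _ (Nat.pow_le_pow_left hn1 2)
    have b2 : C₂ * (p2 w).norm ^ 2 ≤ C₂ * w.norm ^ 2 :=
      Nat.mul_le_mul_left _ (Nat.pow_le_pow_left hn2 2)
    have b3 : (1 + C₁ + C₂) * w.norm ^ 2 = w.norm ^ 2 + C₁ * w.norm ^ 2 + C₂ * w.norm ^ 2 := by
      ring
    omega
  set φ : FreeGroup (Fin (k₁ + k₂)) →* L₁ × L₂ :=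
    MonoidHom.prod
      ((e₁.symm.toMonoidHom.comp (PresentedGroup.mk (R₁ : Set (FreeGroup (Fin k₁))))).comp p1)
      ((e₂.symm.toMonoidHom.comp (PresentedGroup.mk (R₂ : Set (FreeGroup (Fin k₂))))).comp p2)
    with hφ
  have hφ1 : ∀ w, (φ w).1 = e₁.symm (PresentedGroup.mk (R₁ : Set (FreeGroup (Fin k₁))) (p1 w)) :=
    fun w => rfl
  have hφ2 : ∀ w, (φ w).2 = e₂.symm (PresentedGroup.mk (R₂ : Set (FreeGroup (Fin k₂))) (p2 w)) :=
    fun w => rfl
  have hk1 : ∀ w, (φ w).1 = 1 ↔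
      p1 w ∈ Subgroup.normalClosure (R₁ : Set (FreeGroup (Fin k₁))) := by
    intro w
    rw [hφ1, map_eq_one_iff _ e₁.symm.injective]
    exact QuotientGroup.eq_one_iff _
  have hk2 : ∀ w, (φ w).2 = 1 ↔
      p2 w ∈ Subgroup.normalClosure (R₂ : Set (FreeGroup (Fin k₂))) := by
    intro w
    rw [hφ2, map_eq_one_iff _ e₂.symm.injective]
    exact QuotientGroup.eq_one_iff _
  have hk : ∀ w, w ∈ φ.ker ↔ (p1 w ∈ Subgroup.normalClosure (R₁ : Set (FreeGroup (Fin k₁))) ∧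
      p2 w ∈ Subgroup.normalClosure (R₂ : Set (FreeGroup (Fin k₂)))) := by
    intro w
    rw [MonoidHom.mem_ker, Prod.ext_iff]
    exact and_congr (hk1 w) (hk2 w)
  have hker : Subgroup.normalClosure (RS R₁ R₂) = φ.ker := by
    apply le_antisymm
    · apply Subgroup.normalClosure_le_normal
      intro u hu
      show u ∈ φ.ker
      rw [hk]
      rcases hu with (⟨r, hr, rfl⟩ | ⟨r, hr, rfl⟩) | ⟨x, rfl⟩
      · rw [p1_i1, p2_i1]
        exact ⟨Subgroup.subset_normalClosure hr, Subgroup.one_mem _⟩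
      · rw [p1_i2, p2_i2]
        exact ⟨Subgroup.one_mem _, Subgroup.subset_normalClosure hr⟩
      · simp only [cm, map_mul, map_inv, p1_i1, p1_i2, p2_i1, p2_i2, one_mul, mul_one,
          mul_inv_cancel]
        exact ⟨Subgroup.one_mem _, Subgroup.one_mem _⟩
    · intro u hu
      rw [hk] at hu
      exact (hmain u hu.1 hu.2).mem
  refine ⟨k₁ + k₂, (RS_finite R₁ R₂).toFinset, ⟨1 + C₁ + C₂, fun u hu => ?_⟩, ?_⟩
  · rw [Set.Finite.coe_toFinset] at hu ⊢
    rw [hker, hk] at hu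
    exact hmain u hu.1 hu.2
  · have hsurj : Function.Surjective φ := by
      rintro ⟨a, b⟩
      obtain ⟨u, hu⟩ := QuotientGroup.mk_surjective (e₁ a)
      obtain ⟨v, hv⟩ := QuotientGroup.mk_surjective (e₂ b)
      refine ⟨i1 u * i2 v, Prod.ext ?_ ?_⟩
      · rw [hφ1, map_mul, p1_i1, p1_i2, mul_one]
        rw [MulEquiv.symm_apply_eq]
        exact hu
      · rw [hφ2, map_mul, p2_i1, p2_i2, one_mul]
        rw [MulEquiv.symm_apply_eq]
        exact hv
    have h1 : L₁ × L₂ ≃* FreeGroup (Fin (k₁ + k₂)) ⧸ φ.ker :=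
      (QuotientGroup.quotientKerEquivOfSurjective φ hsurj).symm
    have h2 : FreeGroup (Fin (k₁ + k₂)) ⧸ φ.ker ≃*
        FreeGroup (Fin (k₁ + k₂)) ⧸ Subgroup.normalClosure
          (((RS_finite R₁ R₂).toFinset : Finset (FreeGroup (Fin (k₁ + k₂)))) :
            Set (FreeGroup (Fin (k₁ + k₂)))) :=
      QuotientGroup.quotientMulEquivOfEq (by rw [Set.Finite.coe_toFinset, hker])
    exact ⟨h1.trans h2⟩

end QD
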