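import Pool.Agent.Helper24.QD.Stmts2

set_option autoImplicit false

/-! Virtually solvable groups of matrices: the change of basis is defined over a finite
extension of the base field. -/

namespace QD

theorem st_SOLV (hFLG : ST_FLG) : ST_SOLV := by
  intro K _ hVab n H hH hsol
  obtain ⟨H₁, hH₁, hS₁⟩ := hsol
  have hFGH : Group.FG H := (Group.fg_iff_subgroup_fg H).2 hH
  let F := AlgebraicClosure K
  let V := Fin n → F
  let ρ : H →* Module.End F V :=
    ((Matrix.toLinAlgEquiv' : Matrix (Fin n) (Fin n) F ≃ₐ[F]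
      ((Fin n → F) →ₗ[F] Fin n → F)).toAlgHom.toRingHom.toMonoidHom).comp
    (((algebraMap K F).mapMatrix (m := Fin n)).toMonoidHom.comp
      ((Units.coeHom (Matrix (Fin n) (Fin n) K)).comp H.subtype))
  have hρ : ∀ h : H, ρ h = Matrix.toLin' (h.1.1.map (algebraMap K F)) := fun h => rfl
  obtain ⟨N, n', β, b, hN, hb, hc⟩ := hFLG F V H ρ H₁ hH₁ hS₁
  have hn : n' = n := by
    have h1 := Module.finrank_eq_card_basis β
    have h2 : Module.finrank F V = n := Module.finrank_fin_fun F
    rw [h2, Fintype.card_fin] at h1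
    exact h1.symm
  subst hn
  -- the matrices of the change of basis
  let P : Matrix (Fin n') (Fin n') F := (Pi.basisFun F (Fin n')).toMatrix β
  let Q : Matrix (Fin n') (Fin n') F := β.toMatrix (Pi.basisFun F (Fin n'))
  have hPQ : P * Q = 1 := Module.Basis.toMatrix_mul_toMatrix_flip _ _
  have hQP : Q * P = 1 := Module.Basis.toMatrix_mul_toMatrix_flip _ _
  have hkey0 : ∀ (h : H) x y, (Q * h.1.1.map (algebraMap K F) * P) x y =
      β.repr (ρ h (β y)) x := by
    intro h x y
    have h1 := basis_toMatrix_mul_linearMap_toMatrix_mul_basis_toMatrix β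
      (Pi.basisFun F (Fin n')) β (Pi.basisFun F (Fin n')) (ρ h)
    have h2 : LinearMap.toMatrix (Pi.basisFun F (Fin n')) (Pi.basisFun F (Fin n')) (ρ h) =
        h.1.1.map (algebraMap K F) := by
      rw [hρ]
      exact LinearMap.toMatrix'_toLin' _
    rw [h2] at h1
    show (β.toMatrix (Pi.basisFun F (Fin n')) * h.1.1.map (algebraMap K F) *
      (Pi.basisFun F (Fin n')).toMatrix β) x y = _
    rw [h1, LinearMap.toMatrix_apply]
  -- the finite extension
  let S : Set F := (Set.range fun p : Fin n' × Fin n' => P p.1 p.2) ∪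
    Set.range fun p : Fin n' × Fin n' => Q p.1 p.2
  have hSf : S.Finite := (Set.finite_range _).union (Set.finite_range _)
  have : Finite S := hSf
  let K' : IntermediateField K F := IntermediateField.adjoin K S
  have hfd : FiniteDimensional K K' :=
    IntermediateField.finiteDimensional_adjoin fun x _ => Algebra.IsIntegral.isIntegral x
  have hPm : ∀ x y, P x y ∈ K' := fun x y =>
    IntermediateField.subset_adjoin K S (Or.inl ⟨(x, y), rfl⟩)
  have hQm : ∀ x y, Q x y ∈ K' := fun x y =>
    IntermediateField.subset_adjoin K S (Or.inr ⟨(x, y), rfl⟩)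
  let ι : K' →+* F := algebraMap K' F
  have hι : Function.Injective ι := ι.injective
  let P' : Matrix (Fin n') (Fin n') K' := fun x y => ⟨P x y, hPm x y⟩
  let Q' : Matrix (Fin n') (Fin n') K' := fun x y => ⟨Q x y, hQm x y⟩
  have hP' : P'.map ι = P := rfl
  have hQ' : Q'.map ι = Q := rfl
  have hmapinj : Function.Injective (fun M : Matrix (Fin n') (Fin n') K' => M.map ι) :=
    Matrix.map_injective hι
  have hPQ' : P' * Q' = 1 := by
    apply hmapinj
    show (P' * Q').map ι = (1 : Matrix (Fin n') (Fin n') K').map ι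
    rw [Matrix.map_mul, hP', hQ', hPQ, Matrix.map_one _ (map_zero ι) (map_one ι)]
  have hQP' : Q' * P' = 1 := by
    apply hmapinj
    show (Q' * P').map ι = (1 : Matrix (Fin n') (Fin n') K').map ι
    rw [Matrix.map_mul, hP', hQ', hQP, Matrix.map_one _ (map_zero ι) (map_one ι)]
  let U : GL (Fin n') K' := ⟨Q', P', hQP', hPQ'⟩
  let g0 : GL (Fin n') K →* GL (Fin n') K' :=
    Units.map ((algebraMap K K').mapMatrix (m := Fin n')).toMonoidHom
  have hg0 : Function.Injective g0 := by
    apply Units.map_injective
    show Function.Injective fun M : Matrix (Fin n') (Fin n') K => M.map (algebraMap K K')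
    exact Matrix.map_injective (algebraMap K K').injective
  let f : H →* GL (Fin n') K' := (MulAut.conj U).toMonoidHom.comp (g0.comp H.subtype)
  have hf : Function.Injective f :=
    (MulAut.conj U).injective.comp (hg0.comp H.subtype_injective)
  have hfv : ∀ h : H, (f h).1 = Q' * h.1.1.map (algebraMap K K') * P' := fun h => rfl
  have hkey : ∀ (h : H) x y, ι ((f h).1 x y) = β.repr (ρ h (β y)) x := by
    intro h x y
    rw [← hkey0, hfv]
    have h1 : (Q' * h.1.1.map (algebraMap K K') * P').map ι =
        Q * h.1.1.map (algebraMap K F) * P := by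
      rw [Matrix.map_mul, Matrix.map_mul, hP', hQ']
      rfl
    exact congrFun (congrFun h1 x) y
  have hrange : Group.FG f.range := Group.fg_range f
  have hfi' : (N.map f.rangeRestrict).FiniteIndex := by
    constructor
    rw [Subgroup.index_map]
    have h1 : f.rangeRestrict.range = ⊤ :=
      MonoidHom.range_eq_top.2 f.rangeRestrict_surjective
    rw [h1, Subgroup.index_top, mul_one]
    exact (Subgroup.finiteIndex_of_le (le_sup_left : N ≤ N ⊔ f.rangeRestrict.ker)).index_ne_zero
  have hE : EmbQD f.range := by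
    refine hVab K' n' b f.range ((Group.fg_iff_subgroup_fg _).1 hrange) ?_
      (N.map f.rangeRestrict) hfi' ?_
    · rintro _ ⟨h, rfl⟩ x y hxy
      apply hι
      rw [hkey, map_zero]
      exact hb h x y hxy
    · rintro _ ⟨g, hg, rfl⟩ _ ⟨h, hh, rfl⟩ x y hxy
      rw [← map_mul, ← map_mul]
      show (f (g * h)).1 x y = (f (h * g)).1 x y
      apply hι
      rw [hkey, hkey]
      exact hc g hg h hh x y hxy
  obtain ⟨k, rels, hq, e, he⟩ := hE
  refine ⟨k, rels, hq, e.comp f.rangeRestrict, he.comp ?_⟩
  intro g h hgh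
  exact hf (congrArg Subtype.val hgh)

end QD
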