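import Pool.Agent.Helper24.QD.Defs

set_option autoImplicit false

/-!
Statements of the modules (each module proves one `ST_…`, others may take it as hypothesis).
-/

namespace QD

/-! ### RAY -/

def ST_R1 : Prop := ∀ (G : Type) [Group G] (S E : Set G) (c : ℕ) (g x : G) (n m : ℕ),
  3 ≤ c → g ∈ S → g⁻¹ ∈ S → E ⊆ S → (∀ y ∈ E, g⁻¹ * y * g ∈ E) →
  g⁻¹ ^ n * x * g ^ n ∈ E → Ar S c m (ray g n x) (ray g (n + m) x)

def ST_R2 : Prop := ∀ (G : Type) [Group G] (S E : Set G) (c : ℕ) (g h x : G) (n m : ℕ),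
  3 ≤ c → g ∈ S → g⁻¹ ∈ S → h ∈ S → h⁻¹ ∈ S → E ⊆ S →
  (∀ y ∈ E, g⁻¹ * y * g ∈ E) → (∀ y ∈ E, h⁻¹ * y * h ∈ E) → g * h = h * g →
  g⁻¹ ^ n * x * g ^ n ∈ E → h⁻¹ ^ m * x * h ^ m ∈ E →
  Ar S c (n + m + 2 * n * m) (ray g n x) (ray h m x)

def ST_R3 : Prop := ∀ (G : Type) [Group G] (S E : Set G) (c k0 : ℕ) (g x y : G) (n : ℕ),
  2 * k0 + 3 ≤ c → g ∈ S → g⁻¹ ∈ S → E ⊆ S →
  (∀ x' ∈ E, ∀ y' ∈ E, g⁻¹ ^ k0 * (x' * y') * g ^ k0 ∈ E) →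
  g⁻¹ ^ n * x * g ^ n ∈ E → g⁻¹ ^ n * y * g ^ n ∈ E →
  Ar S c (n + 1) (ray g n x ++ ray g n y) (ray g (n + k0) (x * y))

def ST_R4 : Prop := ∀ (G : Type) [Group G] (S E E' : Set G) (c : ℕ) (g x y : G) (n : ℕ),
  2 ≤ c → g ∈ S → g⁻¹ ∈ S → E ⊆ S → E' ⊆ S → x * y = y * x →
  g⁻¹ ^ n * x * g ^ n ∈ E → g⁻¹ ^ n * y * g ^ n ∈ E' →
  Ar S c (2 * n + 1) (ray g n x ++ ray g n y) (ray g n y ++ ray g n x)

def ST_R5 : Prop := ∀ (G : Type) [Group G] (S E : Set G) (c k0 : ℕ) (g t x : G) (n : ℕ),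
  2 * k0 + 3 ≤ c → g ∈ S → g⁻¹ ∈ S → t ∈ S → E ⊆ S → g * t = t * g →
  (∀ y ∈ E, g⁻¹ ^ k0 * (t * y * t⁻¹) * g ^ k0 ∈ E) →
  g⁻¹ ^ n * x * g ^ n ∈ E →
  Ar S c (2 * n + 1) (t :: ray g n x) (ray g (n + k0) (t * x * t⁻¹) ++ [t])

def ST_R6 : Prop := ∀ (G : Type) [Group G] (S : Set G) (c : ℕ) (g : G) (n : ℕ),
  2 ≤ c → g ∈ S → g⁻¹ ∈ S → (1 : G) ∈ S → Ar S c (n + 1) (ray g n 1) []

/-! ### CRS: ray words at different indices commute at quadratic cost -/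

def ST_CRS : Prop := ∀ (G I : Type) [Group G] (D : Setup G I) (c : ℕ), 2 * D.k0 + 3 ≤ c →
  ∃ K : ℕ, ∀ (i j : I) (n : ℕ) (x y : G), i ≠ j → x ∈ D.V i → y ∈ D.V j →
    (D.A i i)⁻¹ ^ n * x * D.A i i ^ n ∈ D.E i → (D.A j j)⁻¹ ^ n * y * D.A j j ^ n ∈ D.E j →
    Ar D.S c (K * (n + 1) ^ 2) (ray (D.A i i) n x ++ ray (D.A j j) n y)
      (ray (D.A j j) n y ++ ray (D.A i i) n x)

/-! ### NFL: lists of ray words -/

def ST_WEX : Prop := ∀ (G I : Type) [Group G] (D : Setup G I) (c : ℕ), 2 * D.k0 + 3 ≤ c →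
  ∀ (is : List I) (n m : ℕ) (v : I → G), D.Ok n v →
    D.Ok (n + m) v ∧ Ar D.S c (is.length * m) (D.W is n v) (D.W is (n + m) v)

def ST_WMUL : Prop := ∀ (G I : Type) [Group G] (D : Setup G I) (c : ℕ), 2 * D.k0 + 3 ≤ c →
  ∃ K : ℕ, ∀ (is : List I), is.Nodup → ∀ (n : ℕ) (v w : I → G), D.Ok n v → D.Ok n w →
    D.Ok (n + D.k0) (v * w) ∧
    Ar D.S c (K * (is.length + 1) ^ 2 * (n + 1) ^ 2) (D.W is n v ++ D.W is n w)
      (D.W is (n + D.k0) (v * w))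

def ST_WPASS : Prop := ∀ (G I : Type) [Group G] (D : Setup G I) (c : ℕ), 2 * D.k0 + 3 ≤ c →
  ∀ (is : List I) (n : ℕ) (v : I → G) (t : List G), (∀ g ∈ t, g ∈ D.T) → D.Ok n v →
    D.Ok (n + t.length * D.k0) (fun i => t.prod * v i * t.prod⁻¹) ∧
    Ar D.S c (is.length * t.length * (2 * (n + t.length * D.k0) + 1)) (t ++ D.W is n v)
      (D.W is (n + t.length * D.k0) (fun i => t.prod * v i * t.prod⁻¹) ++ t)

def ST_WONE : Prop := ∀ (G I : Type) [Group G] (D : Setup G I) (c : ℕ), 2 * D.k0 + 3 ≤ c →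
  ∀ (is : List I) (n : ℕ), D.Ok n (fun _ => 1) ∧
    Ar D.S c (is.length * (n + 1)) (D.W is n (fun _ => 1)) []

/-! ### IND: the main induction -/

def ST_M1 : Prop := ∀ (G I : Type) [Group G] [Fintype I] (D : Setup G I),
  (∀ (v : I → G) (t : List G), (∀ i, v i ∈ D.V i) → (∀ g ∈ t, g ∈ D.T) →
    ((Finset.univ : Finset I).toList.map v).prod * t.prod = 1 → ∀ i, v i = 1) →
  Red D.S D.T

/-! ### ZNF, UCOM, VAB -/

def ST_ZNF : Prop := ∀ (G J : Type) [Group G] [DecidableEq J] (S : Set G) (c : ℕ) (z : J → G)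
  (js : List J), 2 ≤ c → js.Nodup → (∀ j, z j ∈ S) → (∀ j, (z j)⁻¹ ∈ S) →
  (∀ i j, z i * z j = z j * z i) → ∀ (k : J → ℤ) (j : J) (e : ℤ), j ∈ js → (e = 1 ∨ e = -1) →
  (nf z js (Function.update k j (k j + e))).length ≤ (nf z js k).length + 1 ∧
  (∀ g ∈ nf z js k, g ∈ S) ∧
  Ar S c ((nf z js k).length + 1) (nf z js k ++ zb (z j) e)
    (nf z js (Function.update k j (k j + e)))

def ST_UCOM : Prop := ∀ (G J : Type) [Group G] [Fintype J] (S₀ : Set G) (z : J → G),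
  (∀ j g, z j * g = g * z j) →
  (∀ (k : J → ℤ) (w₀ : List G), (∀ g ∈ w₀, g ∈ S₀) →
    (nf z (Finset.univ : Finset J).toList k).prod * w₀.prod = 1 → k = 0) →
  Red (S₀ ∪ {g | ∃ j, g = z j ∨ g = (z j)⁻¹}) S₀

/-- A finitely generated group with an abelian subgroup of finite index: free abelian data. -/
def ST_VAB1 : Prop := ∀ (L : Type) [Group L], Group.FG L → ∀ A : Subgroup L, A.FiniteIndex →
  (∀ x ∈ A, ∀ y ∈ A, x * y = y * x) →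
  ∃ (r : ℕ) (z : Fin r → L) (R : Finset L), (∀ i j, z i * z j = z j * z i) ∧
    (∀ l : L, ∃ k : Fin r → ℤ, ∃ s ∈ R, l = (nf z (List.finRange r) k).prod * s) ∧
    (∀ k : Fin r → ℤ, (nf z (List.finRange r) k).prod = 1 → k = 0)

def ST_VAB2 : Prop := ∀ (L : Type) [Group L] (r : ℕ) (z : Fin r → L) (R : Finset L),
  (∀ i j, z i * z j = z j * z i) →
  (∀ l : L, ∃ k : Fin r → ℤ, ∃ s ∈ R, l = (nf z (List.finRange r) k).prod * s) →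
  (∀ k : Fin r → ℤ, (nf z (List.finRange r) k).prod = 1 → k = 0) →
  ∃ S : Set L, S.Finite ∧ (∀ s ∈ S, s⁻¹ ∈ S) ∧ Gen S Set.univ ∧ Red S ∅

/-! ### TRF: transfer to a subgroup `Γ` with `G = Γ O` -/

def ST_TRF : Prop := ∀ (G : Type) [Group G] (Γ : Subgroup G) (O S S₀ : Set G) (m : ℕ),
  (1 : G) ∈ O → (∀ s ∈ S, s⁻¹ ∈ S) →
  (∀ w : List G, (∀ g ∈ w, g ∈ S) → ∃ γ ∈ Γ, ∃ o ∈ O, w.prod = γ * o) →
  (∀ o ∈ O, ∃ w : List G, w.length ≤ m ∧ (∀ g ∈ w, g ∈ S) ∧ w.prod = o) →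
  Gen S (Γ : Set G) → S₀ ⊆ S → S₀ ⊆ (Γ : Set G) → Red S S₀ →
  ∀ S' : Set Γ, S' = {γ : Γ | ∃ o ∈ O, ∃ s ∈ S, ∃ o' ∈ O, (γ : G) = o * s * o'⁻¹} →
    (∀ γ ∈ S', γ⁻¹ ∈ S') ∧ Gen S' Set.univ ∧ Red S' {γ : Γ | (γ : G) ∈ S₀}

/-! ### PRES: from replacement moves to a presentation -/

def ST_PRES : Prop := ∀ (G : Type) [Group G] (S : Set G), S.Finite → (∀ s ∈ S, s⁻¹ ∈ S) →
  Gen S Set.univ → ∀ (k : ℕ) (rels : Finset (FreeGroup (Fin k))), QPres k rels →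
  ∀ j : PresentedGroup (rels : Set (FreeGroup (Fin k))) →* G, Function.Injective j →
  (∀ i, j (PresentedGroup.of i) ∈ S) →
  Red S {g | ∃ i, g = j (PresentedGroup.of i) ∨ g = (j (PresentedGroup.of i))⁻¹} →
  QuadDehn G

/-! ### Number theory -/

/-- simultaneous approximation -/
def ST_NTA : Prop := ∀ (m : ℕ), 0 < m → ∀ x : Pl m → ℚ, ∃ β ∈ Bm m, ∀ i, av m i (x i - β) ≤ 1

/-- finiteness -/
def ST_NTB : Prop := ∀ (m R : ℕ), 0 < m → {β : ℚ | β ∈ Bm m ∧ ∀ i, av m i β ≤ R}.Finite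

/-- units that are large at two given places -/
def ST_NTC : Prop := ∀ (m : ℕ), 0 < m → 6 ∣ m → ∀ i j : Pl m, ∃ α : ℚˣ, (α : ℚ) ∈ Bm m ∧
  ((α⁻¹ : ℚˣ) : ℚ) ∈ Bm m ∧ 1 < av m i α ∧ 1 < av m j α

/-- a common denominator -/
def ST_DEN : Prop := ∀ F : Set ℚ, F.Finite → ∃ m : ℕ, 0 < m ∧ 6 ∣ m ∧ ∀ x ∈ F, x ∈ Bm m

/-! ### Block unipotent matrices -/

def ST_UNIa : Prop := ∀ (ι : Type) [Fintype ι] [DecidableEq ι] (b : ι → ℕ), ∃ R : ℕ, 1 ≤ R ∧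
  ∀ (a : AbsoluteValue ℚ ℚ) (v : GL ι ℚ), v ∈ Vb b → (∀ x y, a (v.1 x y) ≤ 1) →
    ∀ x y, a ((v⁻¹).1 x y) ≤ R

def ST_UNIb : Prop := ∀ (ι : Type) [Fintype ι] [DecidableEq ι] (b : ι → ℕ) (B : Subring ℚ)
  (N : Matrix ι ι ℚ), (∀ x y, b y ≤ b x → N x y = 0) → (∀ x y, N x y ∈ B) →
    ∃ g : GL ι ℚ, g.1 = 1 + N ∧ g ∈ Vb b ∧ g ∈ GLB B

def ST_COV : Prop := ∀ (ι : Type) [Fintype ι] [DecidableEq ι] (b : ι → ℕ) (m : ℕ), 0 < m →
  ∀ v : Pl m → GL ι ℚ, (∀ i, v i ∈ Vb b) → ∃ γ : GL ι ℚ, γ ∈ Vb b ∧ γ ∈ GLB (Bm m) ∧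
    ∀ i x y, av m i ((γ⁻¹ * v i).1 x y) ≤ 1

/-! ### The arithmetic instance -/

/-- The diagonal matrix with entries `α ^ (- b x)`. -/
def dg {ι : Type} [Fintype ι] [DecidableEq ι] (b : ι → ℕ) : ℚˣ →* GL ι ℚ where
  toFun α := ⟨Matrix.diagonal fun x => ((α⁻¹ ^ b x : ℚˣ) : ℚ),
    Matrix.diagonal fun x => ((α ^ b x : ℚˣ) : ℚ),
    by rw [Matrix.diagonal_mul_diagonal, ← Matrix.diagonal_one]; congr 1; funext x
       rw [← Units.val_mul, ← mul_pow]; simp,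
    by rw [Matrix.diagonal_mul_diagonal, ← Matrix.diagonal_one]; congr 1; funext x
       rw [← Units.val_mul, ← mul_pow]; simp⟩
  map_one' := by
    apply Units.ext
    show Matrix.diagonal _ = (1 : Matrix ι ι ℚ)
    rw [← Matrix.diagonal_one]; congr 1; funext x; simp
  map_mul' := by
    intro α β
    apply Units.ext
    show Matrix.diagonal _ = Matrix.diagonal _ * Matrix.diagonal _
    rw [Matrix.diagonal_mul_diagonal]; congr 1; funext x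
    rw [← Units.val_mul, ← mul_pow, mul_inv]

/-- The data: a group `Q` acting by block diagonal matrices over `ℤ[1/m]`, with central
elements `a i j` acting by `dg b (α i j)`, where `α i j` is large at the places `i`, `j`. -/
structure Inst (ι : Type) [Fintype ι] [DecidableEq ι] (b : ι → ℕ) (m : ℕ) (Q : Type)
    [Group Q] where
  ρ : Q →* GL ι ℚ
  T : Set Q
  a : Pl m → Pl m → Q
  α : Pl m → Pl m → ℚˣ
  hm : 0 < m
  hTfin : T.Finite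
  hTinv : ∀ t ∈ T, t⁻¹ ∈ T
  hTgen : Gen T Set.univ
  haT : ∀ i j, a i j ∈ T
  hac : ∀ i j t, a i j * t = t * a i j
  hρ : ∀ t x y, b x ≠ b y → (ρ t).1 x y = 0
  hρB : ∀ t, ρ t ∈ GLB (Bm m)
  hρa : ∀ i j, ρ (a i j) = dg b (α i j)
  hα : ∀ i j, 1 < av m i (α i j : ℚ) ∧ 1 < av m j (α i j : ℚ)

section inst
variable {ι : Type} [Fintype ι] [DecidableEq ι] {b : ι → ℕ} {m : ℕ} {Q : Type} [Group Q]

/-- Block diagonal matrices normalise `Vb`. -/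
theorem conj_mem_Vb (g v : GL ι ℚ) (hg : ∀ x y, b x ≠ b y → g.1 x y = 0)
    (hg' : ∀ x y, b x ≠ b y → (g⁻¹).1 x y = 0) (hv : v ∈ Vb b) : g * v * g⁻¹ ∈ Vb b := by
  intro x y hxy
  have h1 : ∀ w, b w ≤ b x → (g.1 * v.1) x w = g.1 x w := by
    intro w hw
    have : ∀ z, g.1 x z * v.1 z w = g.1 x z * (1 : Matrix ι ι ℚ) z w := by
      intro z
      by_cases h : b x = b z
      · rw [hv z w (by omega)]
      · rw [hg x z h]; simp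
    rw [Matrix.mul_apply, Finset.sum_congr rfl (fun z _ => this z), ← Matrix.mul_apply, mul_one]
  show (g.1 * v.1 * (g⁻¹).1) x y = _
  have h2 : ∀ w, (g.1 * v.1) x w * (g⁻¹).1 w y = g.1 x w * (g⁻¹).1 w y := by
    intro w
    by_cases h : b w = b y
    · rw [h1 w (by omega)]
    · rw [hg' w y h]; simp
  rw [Matrix.mul_apply, Finset.sum_congr rfl (fun z _ => h2 z), ← Matrix.mul_apply,
    ← Units.val_mul, mul_inv_cancel]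
  rfl

theorem Inst.conj (D : Inst ι b m Q) (t : Q) (v : GL ι ℚ) (hv : v ∈ Vb b) :
    D.ρ t * v * (D.ρ t)⁻¹ ∈ Vb b :=
  conj_mem_Vb _ v (D.hρ t) (by rw [← map_inv]; exact D.hρ t⁻¹) hv

/-- The letter of `t ∈ Q` in the ambient group `∏_i GL × Q`. -/
def Inst.q (D : Inst ι b m Q) : Q →* (Pl m → GL ι ℚ) × Q where
  toFun t := (fun _ => D.ρ t, t)
  map_one' := by ext1 <;> simp; rfl
  map_mul' := by intro s t; ext1 <;> simp; rfl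

/-- Block unipotent matrices at the place `i`. -/
def Inst.V (_D : Inst ι b m Q) (i : Pl m) : Subgroup ((Pl m → GL ι ℚ) × Q) where
  carrier := {x | x.2 = 1 ∧ x.1 i ∈ Vb b ∧ ∀ j, j ≠ i → x.1 j = 1}
  one_mem' := ⟨rfl, (Vb b).one_mem, fun _ _ => rfl⟩
  mul_mem' := by
    intro x y hx hy
    refine ⟨by rw [Prod.snd_mul, hx.1, hy.1, one_mul], (Vb b).mul_mem hx.2.1 hy.2.1, ?_⟩
    intro j hj
    rw [Prod.fst_mul, Pi.mul_apply, hx.2.2 j hj, hy.2.2 j hj, one_mul]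
  inv_mem' := by
    intro x hx
    refine ⟨by rw [Prod.snd_inv, hx.1, inv_one], (Vb b).inv_mem hx.2.1, ?_⟩
    intro j hj
    rw [Prod.fst_inv, Pi.inv_apply, hx.2.2 j hj, inv_one]

/-- The ball of radius `R` in `V i`. -/
def Inst.E (D : Inst ι b m Q) (R : ℕ) (i : Pl m) : Set ((Pl m → GL ι ℚ) × Q) :=
  {x | x ∈ D.V i ∧ ∀ s t, av m i ((x.1 i).1 s t) ≤ R ∧ av m i (((x.1 i)⁻¹).1 s t) ≤ R}

/-- The compact set. -/
def Inst.O (_D : Inst ι b m Q) : Set ((Pl m → GL ι ℚ) × Q) :=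
  {x | x.2 = 1 ∧ ∀ i, x.1 i ∈ Vb b ∧ ∀ s t, av m i ((x.1 i).1 s t) ≤ 1}

/-- The letters of the ambient group. -/
def Inst.S (D : Inst ι b m Q) (R : ℕ) : Set ((Pl m → GL ι ℚ) × Q) :=
  (D.q '' D.T) ∪ ⋃ i, D.E R i

/-- The arithmetic subgroup: constant families `g ∈ GL(ℤ[1/m])` with `g ρ(t)⁻¹` block
unipotent. -/
def Inst.Gam (D : Inst ι b m Q) : Subgroup ((Pl m → GL ι ℚ) × Q) where
  carrier := {x | (∀ i, x.1 i = x.1 none) ∧ x.1 none ∈ GLB (Bm m) ∧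
    x.1 none * (D.ρ x.2)⁻¹ ∈ Vb b}
  one_mem' := by
    refine ⟨fun _ => rfl, (GLB _).one_mem, ?_⟩
    show (1 : GL ι ℚ) * (D.ρ 1)⁻¹ ∈ Vb b
    rw [map_one, inv_one, one_mul]
    exact (Vb b).one_mem
  mul_mem' := by
    intro x y hx hy
    refine ⟨fun i => ?_, (GLB _).mul_mem hx.2.1 hy.2.1, ?_⟩
    · rw [Prod.fst_mul, Pi.mul_apply, Pi.mul_apply, hx.1 i, hy.1 i]
    · have h := (Vb b).mul_mem hx.2.2 (D.conj x.2 _ hy.2.2)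
      convert h using 1
      show x.1 none * y.1 none * (D.ρ (x.2 * y.2))⁻¹ = _
      rw [map_mul]; group
  inv_mem' := by
    intro x hx
    refine ⟨fun i => ?_, (GLB _).inv_mem hx.2.1, ?_⟩
    · rw [Prod.fst_inv, Pi.inv_apply, Pi.inv_apply, hx.1 i]
    · have h := D.conj x.2⁻¹ _ ((Vb b).inv_mem hx.2.2)
      convert h using 1
      show (x.1 none)⁻¹ * (D.ρ (x.2⁻¹))⁻¹ = _
      rw [map_inv]; group

end inst

/-! ### INST rows -/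

/-- SET: the instance is a `Setup`. -/
def ST_SET : Prop := ∀ (ι : Type) [Fintype ι] [DecidableEq ι] (b : ι → ℕ) (m : ℕ) (Q : Type)
  [Group Q] (D : Inst ι b m Q) (R : ℕ), 1 ≤ R →
  ∃ U : Setup ((Pl m → GL ι ℚ) × Q) (Pl m), U.V = D.V ∧ U.E = D.E R ∧ U.T = D.q '' D.T ∧
    U.A = fun i j => D.q (D.a i j)

/-- UNQ: uniqueness of the decomposition. -/
def ST_UNQ : Prop := ∀ (ι : Type) [Fintype ι] [DecidableEq ι] (b : ι → ℕ) (m : ℕ) (Q : Type)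
  [Group Q] (D : Inst ι b m Q) (v : Pl m → (Pl m → GL ι ℚ) × Q)
  (t : List ((Pl m → GL ι ℚ) × Q)), (∀ i, v i ∈ D.V i) → (∀ g ∈ t, g ∈ D.q '' D.T) →
  ((Finset.univ : Finset (Pl m)).toList.map v).prod * t.prod = 1 → ∀ i, v i = 1

/-- GEN: generation. -/
def ST_GEN : Prop := ∀ (ι : Type) [Fintype ι] [DecidableEq ι] (b : ι → ℕ) (m : ℕ) (Q : Type)
  [Group Q] (D : Inst ι b m Q) (R : ℕ), 1 ≤ R →
  Gen (D.S R) {x | ∀ i, x.1 i * (D.ρ x.2)⁻¹ ∈ Vb b}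

/-- COVR: every product of letters is `γ o`. -/
def ST_COVR : Prop := ∀ (ι : Type) [Fintype ι] [DecidableEq ι] (b : ι → ℕ) (m : ℕ) (Q : Type)
  [Group Q] (D : Inst ι b m Q) (R : ℕ) (w : List ((Pl m → GL ι ℚ) × Q)),
  (∀ g ∈ w, g ∈ D.S R) → ∃ γ ∈ D.Gam, ∃ o ∈ D.O, w.prod = γ * o

/-- OBD: elements of `O` are short words. -/
def ST_OBD : Prop := ∀ (ι : Type) [Fintype ι] [DecidableEq ι] (b : ι → ℕ),
  ∃ R : ℕ, 1 ≤ R ∧ ∀ (m : ℕ) (Q : Type) [Group Q] (D : Inst ι b m Q), ∀ o ∈ D.O,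
    ∃ w : List ((Pl m → GL ι ℚ) × Q), w.length ≤ Fintype.card (Pl m) ∧
      (∀ g ∈ w, ∃ i, g ∈ D.E R i) ∧ w.prod = o

/-- FNS: finiteness of the generating set of `Γ`. -/
def ST_FNS : Prop := ∀ (ι : Type) [Fintype ι] [DecidableEq ι] (b : ι → ℕ) (m : ℕ) (Q : Type)
  [Group Q] (D : Inst ι b m Q) (R : ℕ), 1 ≤ R →
  {γ : D.Gam | ∃ o ∈ D.O, ∃ s ∈ D.S R, ∃ o' ∈ D.O,
    (γ : (Pl m → GL ι ℚ) × Q) = o * s * o'⁻¹}.Finite

/-- CORE: the arithmetic group `Γ`. -/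
def ST_CORE : Prop := ∀ (ι : Type) [Fintype ι] [DecidableEq ι] (b : ι → ℕ) (m : ℕ) (Q : Type)
  [Group Q] (D : Inst ι b m Q) (T₀ : Set Q), T₀ ⊆ D.T → Red D.T T₀ →
  ∃ S' : Set D.Gam, S'.Finite ∧ (∀ s ∈ S', s⁻¹ ∈ S') ∧ Gen S' Set.univ ∧
    (∀ γ : D.Gam, (γ : (Pl m → GL ι ℚ) × Q) ∈ D.q '' T₀ → γ ∈ S') ∧
    Red S' {γ : D.Gam | (γ : (Pl m → GL ι ℚ) × Q) ∈ D.q '' T₀}

/-- ONE: the embedding theorem over `ℚ`. -/
def ST_ONE : Prop := ∀ (ι : Type) [Fintype ι] [DecidableEq ι] (b : ι → ℕ) (H L : Type)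
  [Group H] [Group L], Group.FG H → QuadDehn L →
  ∀ (f : H →* GL ι ℚ) (lam : H →* L) (th : L →* GL ι ℚ), Function.Injective f →
  (∀ h x y, b y < b x → (f h).1 x y = 0) → (∀ l x y, b x ≠ b y → (th l).1 x y = 0) →
  (∀ h x y, b x = b y → (th (lam h)).1 x y = (f h).1 x y) → EmbQD H

/-- VAB: finitely generated virtually abelian groups have quadratic Dehn function. -/
def ST_VAB : Prop := ∀ (L : Type) [Group L], Group.FG L → ∀ A : Subgroup L, A.FiniteIndex →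
  (∀ x ∈ A, ∀ y ∈ A, x * y = y * x) → QuadDehn L

/-- SCAL: restriction of scalars. -/
def ST_SCAL : Prop := ∀ (K : Type) [Field K] [NumberField K] (n : ℕ), ∃ (d : ℕ)
  (f : GL (Fin n) K →* GL (Fin n × Fin d) ℚ) (F : K →+ Matrix (Fin d) (Fin d) ℚ),
  Function.Injective f ∧ ∀ g x y s t, (f g).1 (x, s) (y, t) = F (g.1 x y) s t

/-- DIA: the block diagonal part of block triangular matrices. -/
def ST_DIA : Prop := ∀ (K : Type) [Field K] (n : ℕ) (b : Fin n → ℕ)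
  (H : Subgroup (GL (Fin n) K)), (∀ g ∈ H, ∀ x y, b y < b x → g.1 x y = 0) →
  ∃ D : H →* GL (Fin n) K, ∀ (h : H) x y, (D h).1 x y = if b x = b y then h.1.1 x y else 0

end QD
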