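import Pool.Agent.Helper24.QD.ArB
import Pool.Agent.Helper24.QD.Stmts2

/-! VFREE: finitely generated virtually free groups have quadratic Dehn function. -/

set_option autoImplicit false

namespace QD

open FreeGroup

theorem vf_fin (α : Type) (h : Group.FG (FreeGroup α)) : Finite α := by
  classical
  obtain ⟨S, hS⟩ := h.out
  have hX : (⋃ s ∈ S, {x : α | ∃ b, (x, b) ∈ s.toWord}).Finite := by
    refine S.finite_toSet.biUnion fun s _ => ?_
    refine ((s.toWord.map Prod.fst).toFinset.finite_toSet).subset ?_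
    rintro x ⟨b, hb⟩
    simp only [List.coe_toFinset, Set.mem_ofPred_eq, List.mem_map]
    exact ⟨(x, b), hb, rfl⟩
  refine Set.finite_univ_iff.1 (hX.subset fun y _ => ?_)
  by_contra hy
  simp only [Set.mem_iUnion, Set.mem_ofPred_eq, not_exists] at hy
  set χ : FreeGroup α →* Multiplicative ℤ :=
    FreeGroup.lift (fun x => if x = y then Multiplicative.ofAdd 1 else 1) with hχ
  have h1 : ∀ L : List (α × Bool), (∀ b, (y, b) ∉ L) → χ (FreeGroup.mk L) = 1 := by
    intro L hL
    rw [hχ, FreeGroup.lift_mk]
    apply List.prod_eq_one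
    intro z hz
    obtain ⟨p, hp, rfl⟩ := List.mem_map.1 hz
    have hpy : p.1 ≠ y := by
      intro h
      apply hL p.2
      rw [← h]
      exact hp
    rw [if_neg hpy]
    cases p.2 <;> simp
  have h2 : Subgroup.closure (S : Set (FreeGroup α)) ≤ χ.ker := by
    rw [Subgroup.closure_le]
    intro s hs
    show χ s = 1
    have h3 := h1 s.toWord (fun b hb => hy s hs b hb)
    rwa [FreeGroup.mk_toWord] at h3
  rw [hS] at h2
  have h4 : χ (FreeGroup.of y) = 1 := h2 (Subgroup.mem_top _)
  rw [hχ, FreeGroup.lift_apply_of, if_pos rfl] at h4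
  exact absurd (Multiplicative.ofAdd.injective (h4.trans ofAdd_zero.symm)) one_ne_zero

section
variable {L α : Type} [Group L] [DecidableEq α] (φ : FreeGroup α →* L)

/-- image of a letter -/
def vfl (p : α × Bool) : L := cond p.2 (φ (FreeGroup.of p.1)) (φ (FreeGroup.of p.1))⁻¹

/-- image of the reduced word -/
def vfw (a : FreeGroup α) : List L := a.toWord.map (vfl φ)

theorem vfl_prod (u : List (α × Bool)) : (u.map (vfl φ)).prod = φ (FreeGroup.mk u) := by
  induction u with
  | nil =>
    simp only [List.map_nil, List.prod_nil]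
    rw [← FreeGroup.one_eq_mk, _root_.map_one]
  | cons p u ih =>
    rw [List.map_cons, List.prod_cons, ih]
    have e : FreeGroup.mk (p :: u) = FreeGroup.mk [p] * FreeGroup.mk u := by
      rw [FreeGroup.mul_mk]
      rfl
    rw [e, _root_.map_mul]
    congr 1
    obtain ⟨x, b⟩ := p
    cases b
    · show (φ (FreeGroup.of x))⁻¹ = _
      rw [← _root_.map_inv]
      rfl
    · rfl

theorem vfw_prod (a : FreeGroup α) : (vfw φ a).prod = φ a := by
  rw [vfw, vfl_prod, FreeGroup.mk_toWord]

variable {φ} {S : Set L} {c : ℕ}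

theorem vfl_push (hc : 2 ≤ c) (hS : ∀ p, vfl φ p ∈ S) (p : α × Bool) (a : FreeGroup α) :
    (vfw φ (FreeGroup.mk [p] * a)).length ≤ 1 + (vfw φ a).length ∧
    Ar S c 1 (vfl φ p :: vfw φ a) (vfw φ (FreeGroup.mk [p] * a)) := by
  have e : (FreeGroup.mk [p] * a).toWord = reduce (p :: a.toWord) := by
    conv_lhs => rw [← FreeGroup.mk_toWord (x := a)]
    rw [FreeGroup.mul_mk, FreeGroup.toWord_mk]
    rfl
  rw [FreeGroup.reduce.cons, FreeGroup.reduce_toWord] at e
  rw [vfw, vfw, e]
  cases h : a.toWord with
  | nil => exact ⟨by simp, Ar.refl _ _⟩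
  | cons q tl =>
    show (List.map (vfl φ) (if p.1 = q.1 ∧ p.2 = !q.2 then tl else p :: q :: tl)).length ≤ _ ∧
      Ar S c 1 _ (List.map (vfl φ) (if p.1 = q.1 ∧ p.2 = !q.2 then tl else p :: q :: tl))
    split_ifs with hpq
    · refine ⟨by
        simp only [List.length_map, List.length_cons]
        omega, ?_⟩
      rw [List.map_cons]
      have h1 : Ar S c 1 [vfl φ p, vfl φ q] [] := by
        apply Ar.whole
        · obtain ⟨x, b⟩ := p
          obtain ⟨y, d⟩ := q
          obtain ⟨h2, h3⟩ := hpq
          simp only at h2 h3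
          subst h2 h3
          cases d <;> simp [vfl]
        · simpa using hc
        · simp
        · intro g hg
          simp only [List.mem_cons, List.not_mem_nil, or_false] at hg
          rcases hg with rfl | rfl
          · exact hS _
          · exact hS _
        · simp
      simpa using h1.right (tl.map (vfl φ))
    · refine ⟨by
        simp only [List.length_map, List.length_cons]
        omega, ?_⟩
      exact Ar.refl _ _

theorem vfw_push (hc : 2 ≤ c) (hS : ∀ p, vfl φ p ∈ S) (u : List (α × Bool)) (a : FreeGroup α) :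
    (vfw φ (FreeGroup.mk u * a)).length ≤ u.length + (vfw φ a).length ∧
    Ar S c u.length (u.map (vfl φ) ++ vfw φ a) (vfw φ (FreeGroup.mk u * a)) := by
  induction u with
  | nil =>
    rw [← FreeGroup.one_eq_mk, one_mul]
    exact ⟨by simp, Ar.refl _ _⟩
  | cons p u ih =>
    obtain ⟨h1, h2⟩ := ih
    obtain ⟨h3, h4⟩ := vfl_push (φ := φ) hc hS p (FreeGroup.mk u * a)
    have e : FreeGroup.mk (p :: u) * a = FreeGroup.mk [p] * (FreeGroup.mk u * a) := by
      rw [← mul_assoc, FreeGroup.mul_mk]
      rfl
    rw [e]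
    refine ⟨?_, ?_⟩
    · rw [List.length_cons]
      omega
    · rw [List.map_cons, List.cons_append, List.length_cons]
      exact ((h2.cons _).trans h4)

end

theorem vf_main (L α : Type) [Group L] [Finite α] (φ : FreeGroup α →* L)
    (hφ : Function.Injective φ) (R : Set L) (hR : R.Finite) (ρ : L → L) (κ : L → FreeGroup α)
    (hρ : ∀ l, ρ l ∈ R) (hκ : ∀ l, l = ρ l * φ (κ l)) :
    ∃ S : Set L, S.Finite ∧ (∀ s ∈ S, s⁻¹ ∈ S) ∧ Gen S Set.univ ∧ Red S ∅ := by
  classical
  set Z : Set L := Set.range (vfl φ) with hZ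
  set S : Set L := Z ∪ (R ∪ R⁻¹) with hS
  have hZS : ∀ p, vfl φ p ∈ S := fun p => Or.inl ⟨p, rfl⟩
  have hRS : ∀ s ∈ R, s ∈ S := fun s hs => Or.inr (Or.inl hs)
  have hwS : ∀ a : FreeGroup α, ∀ g ∈ vfw φ a, g ∈ S := by
    intro a g hg
    obtain ⟨p, _, rfl⟩ := List.mem_map.1 hg
    exact hZS p
  have hSfin : S.Finite := (Set.finite_range _).union (hR.union hR.inv)
  refine ⟨S, hSfin, ?_, ?_, ?_⟩
  · intro s hs
    rcases hs with ⟨p, rfl⟩ | hs | hs
    · refine Or.inl ⟨(p.1, !p.2), ?_⟩
      obtain ⟨x, b⟩ := p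
      cases b <;> simp [vfl]
    · exact Or.inr (Or.inr (by rw [Set.mem_inv, inv_inv]; exact hs))
    · exact Or.inr (Or.inl hs)
  · intro l _
    refine ⟨ρ l :: vfw φ (κ l), ?_, ?_⟩
    · intro g hg
      rcases List.mem_cons.1 hg with rfl | hg
      · exact hRS _ (hρ l)
      · exact hwS _ g hg
    · rw [List.prod_cons, vfw_prod]
      exact (hκ l).symm
  · obtain ⟨m, hm⟩ : ∃ m : ℕ, ∀ s ∈ S, ∀ a ∈ R, (vfw φ (κ (s * a))).length ≤ m := by
      have hfin : (Set.image2 (fun s a => (vfw φ (κ (s * a))).length) S R).Finite :=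
        Set.Finite.image2 _ hSfin hR
      obtain ⟨m, hm⟩ := hfin.bddAbove
      exact ⟨m, fun s hs a ha => hm (Set.mem_image2_of_mem hs ha)⟩
    obtain ⟨m', hm'⟩ : ∃ m' : ℕ, ∀ r ∈ R, ∀ a : FreeGroup α, r * φ a = 1 →
        (vfw φ a).length ≤ m' := by
      have hch : ∀ r : L, ∃ n : ℕ, ∀ a : FreeGroup α, r * φ a = 1 → (vfw φ a).length ≤ n := by
        intro r
        by_cases h : ∃ a : FreeGroup α, r * φ a = 1
        · obtain ⟨a, ha⟩ := h
          refine ⟨(vfw φ a).length, fun a' ha' => ?_⟩
          have h1 : a' = a := hφ (mul_left_cancel (ha'.trans ha.symm))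
          rw [h1]
        · exact ⟨0, fun a ha => absurd ⟨a, ha⟩ h⟩
      choose n hn using hch
      obtain ⟨m', hm'⟩ := (hR.image n).bddAbove
      exact ⟨m', fun r hr a ha => (hn r a ha).trans (hm' ⟨r, hr, rfl⟩)⟩
    set m0 : ℕ := (vfw φ (κ 1)).length with hm0
    set M : ℕ := m + m' + m0 + 1 with hM
    set c : ℕ := M + 2 with hc
    have hc2 : 2 ≤ c := by omega
    have hmain : ∀ w : List L, (∀ g ∈ w, g ∈ S) → ∃ (r : L) (a : FreeGroup α), r ∈ R ∧
        Ar S c (w.length * (M + 1) + 1) w (r :: vfw φ a) := by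
      intro w
      induction w with
      | nil =>
        intro _
        refine ⟨ρ 1, κ 1, hρ 1, ?_⟩
        have h1 : Ar S c 1 [] (ρ 1 :: vfw φ (κ 1)) := by
          apply Ar.whole
          · rw [List.prod_cons, vfw_prod, ← hκ 1, List.prod_nil]
          · simp
          · rw [List.length_cons]; omega
          · simp
          · intro g hg
            rcases List.mem_cons.1 hg with rfl | hg
            · exact hRS _ (hρ 1)
            · exact hwS _ g hg
        exact h1.mono_k (by omega)
      | cons s w ih =>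
        intro hw
        obtain ⟨r, a, hr, h4⟩ := ih (fun x hx => hw x (by simp [hx]))
        have hs : s ∈ S := hw s (by simp)
        have h5 := h4.cons s
        have hlen := hm s hs r hr
        have h6 : Ar S c 1 [s, r] (ρ (s * r) :: vfw φ (κ (s * r))) := by
          apply Ar.whole
          · rw [List.prod_cons (a := ρ (s * r)), vfw_prod, ← hκ (s * r)]; simp
          · simpa using hc2
          · rw [List.length_cons]; omega
          · intro g hg
            simp only [List.mem_cons, List.not_mem_nil, or_false] at hg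
            rcases hg with rfl | rfl
            · exact hs
            · exact hRS _ hr
          · intro g hg
            rcases List.mem_cons.1 hg with rfl | hg
            · exact hRS _ (hρ _)
            · exact hwS _ g hg
        obtain ⟨_, h8⟩ := vfw_push (φ := φ) hc2 hZS (κ (s * r)).toWord a
        rw [FreeGroup.mk_toWord] at h8
        have h9 := (h6.right (vfw φ a)).trans (h8.cons (ρ (s * r)))
        refine ⟨ρ (s * r), κ (s * r) * a, hρ _, ?_⟩
        have h10 := h5.trans h9
        refine h10.mono_k ?_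
        have h11 : (κ (s * r)).toWord.length ≤ m := by
          have : (vfw φ (κ (s * r))).length = (κ (s * r)).toWord.length := by
            rw [vfw, List.length_map]
          omega
        rw [List.length_cons]
        have : (w.length + 1) * (M + 1) = w.length * (M + 1) + (M + 1) := by ring
        omega
    refine ⟨c, M + 3, ?_⟩
    intro w hw hw1
    obtain ⟨r, a, hr, h4⟩ := hmain w hw
    have h5 := h4.prod_eq
    rw [hw1, List.prod_cons, vfw_prod] at h5
    have h6 := hm' r hr a h5.symm
    have h7 : Ar S c 1 (r :: vfw φ a) [] := by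
      apply Ar.whole
      · rw [List.prod_cons, vfw_prod, ← h5, List.prod_nil]
      · rw [List.length_cons]; omega
      · simp
      · intro g hg
        rcases List.mem_cons.1 hg with rfl | hg
        · exact hRS _ hr
        · exact hwS _ g hg
      · simp
    refine ⟨[], by simp, by simp, (h4.trans h7).mono_k ?_⟩
    generalize w.length = n
    rcases Nat.eq_zero_or_pos n with rfl | hn
    · simp
    · have h8 : n ≤ n ^ 2 := by nlinarith
      have h9 : n * (M + 1) ≤ n ^ 2 * (M + 1) := Nat.mul_le_mul_right _ h8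
      nlinarith

theorem st_VFREE (hP : ST_PRES) : ST_VFREE := by
  intro L _ hL A hA hF
  classical
  have hAfg : Group.FG A := inferInstance
  set e := IsFreeGroup.toFreeGroup A with he
  have hfg : Group.FG (FreeGroup (IsFreeGroup.Generators A)) :=
    Group.fg_of_surjective (f := e.toMonoidHom) e.surjective
  have hfin : Finite (IsFreeGroup.Generators A) := vf_fin _ hfg
  set φ : FreeGroup (IsFreeGroup.Generators A) →* L := A.subtype.comp e.symm.toMonoidHom with hφd
  have hφ : Function.Injective φ := A.subtype_injective.comp e.symm.injective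
  have hq : Finite (L ⧸ A) := Subgroup.finite_quotient_of_finiteIndex
  set R : Set L := Set.range (fun q : L ⧸ A => q.out) with hR
  have hmem : ∀ l : L, ((l : L ⧸ A).out)⁻¹ * l ∈ A := by
    intro l
    rw [← QuotientGroup.eq, QuotientGroup.out_eq']
  obtain ⟨S, b1, b2, b3, b4⟩ := vf_main L (IsFreeGroup.Generators A) φ hφ R (Set.finite_range _)
    (fun l => (l : L ⧸ A).out) (fun l => e ⟨((l : L ⧸ A).out)⁻¹ * l, hmem l⟩)
    (fun l => ⟨(l : L ⧸ A), rfl⟩) (fun l => by
      show l = (l : L ⧸ A).out * (e.symm (e ⟨((l : L ⧸ A).out)⁻¹ * l, hmem l⟩) : L)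
      rw [e.symm_apply_apply]
      simp)
  have hQ : QPres 0 ∅ := by
    refine ⟨0, ?_⟩
    intro w _
    refine ⟨[], by simp, by simp, ?_⟩
    exact Subsingleton.elim _ _
  have hsub : Subsingleton (PresentedGroup ((∅ : Finset (FreeGroup (Fin 0))) :
      Set (FreeGroup (Fin 0)))) := by
    constructor
    intro x y
    obtain ⟨x, rfl⟩ := PresentedGroup.mk_surjective _ x
    obtain ⟨y, rfl⟩ := PresentedGroup.mk_surjective _ y
    rw [Subsingleton.elim x y]
  refine hP L S b1 b2 b3 0 ∅ hQ 1 (Function.injective_of_subsingleton _) (fun i => i.elim0) ?_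
  have : {g : L | ∃ i : Fin 0, g = (1 : PresentedGroup ((∅ : Finset (FreeGroup (Fin 0))) :
      Set (FreeGroup (Fin 0))) →* L) (PresentedGroup.of i) ∨
      g = ((1 : PresentedGroup ((∅ : Finset (FreeGroup (Fin 0))) :
      Set (FreeGroup (Fin 0))) →* L) (PresentedGroup.of i))⁻¹} = ∅ := by
    ext g
    constructor
    · rintro ⟨i, _⟩; exact i.elim0
    · intro h; exact absurd h (Set.notMem_empty g)
  rw [this]
  exact b4

end QD
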